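import Mathlib
import Pool.Agent.Helper56.SKU.Cap

/-!
# Finite dimensional representations of rings over fields
-/

namespace Pool.Agent.Helper56.SKR

open Module

universe w

section rep

variable {A F V : Type*} [Ring A] [Field F] [AddCommGroup V] [Module F V]

/-- The invariant subspaces of a representation. -/
def Inv (ρ : A →+* Module.End F V) (W : Submodule F V) : Prop := ∀ a, ∀ w ∈ W, ρ a w ∈ W

/-- Irreducible representations. -/
def Irr (ρ : A →+* Module.End F V) : Prop :=
  Nontrivial V ∧ ∀ W : Submodule F V, Inv ρ W → W = ⊥ ∨ W = ⊤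

/-- Restriction to an invariant subspace. -/
def subRep (ρ : A →+* Module.End F V) (W : Submodule F V) (h : Inv ρ W) : A →+* Module.End F W where
  toFun a := (ρ a).restrict (h a)
  map_one' := by
    ext v
    simp
  map_mul' a b := by
    ext v
    simp
  map_zero' := by
    ext v
    simp
  map_add' a b := by
    ext v
    simp

@[simp] theorem subRep_apply (ρ : A →+* Module.End F V) (W : Submodule F V) (h : Inv ρ W) (a : A)
    (w : W) : ((subRep ρ W h a w : W) : V) = ρ a w := rfl

/-- The quotient by an invariant subspace. -/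
def quotRep (ρ : A →+* Module.End F V) (W : Submodule F V) (h : Inv ρ W) :
    A →+* Module.End F (V ⧸ W) where
  toFun a := W.mapQ W (ρ a) (h a)
  map_one' := by
    apply LinearMap.ext
    intro v
    obtain ⟨v, rfl⟩ := W.mkQ_surjective v
    simp
  map_mul' a b := by
    apply LinearMap.ext
    intro v
    obtain ⟨v, rfl⟩ := W.mkQ_surjective v
    simp
  map_zero' := by
    apply LinearMap.ext
    intro v
    obtain ⟨v, rfl⟩ := W.mkQ_surjective v
    simp
  map_add' a b := by
    apply LinearMap.ext
    intro v
    obtain ⟨v, rfl⟩ := W.mkQ_surjective v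
    simp

theorem quotRep_mk (ρ : A →+* Module.End F V) (W : Submodule F V) (h : Inv ρ W) (a : A)
    (v : V) : quotRep ρ W h a (W.mkQ v) = W.mkQ (ρ a v) := rfl

theorem exists_irr_sub [FiniteDimensional F V] [Nontrivial V] (ρ : A →+* Module.End F V) :
    ∃ (W : Submodule F V) (h : Inv ρ W), W ≠ ⊥ ∧ Irr (subRep ρ W h) := by
  classical
  let P : ℕ → Prop := fun n => ∃ W : Submodule F V, finrank F W = n ∧ W ≠ ⊥ ∧ Inv ρ W
  have hP : ∃ n, P n := ⟨_, ⊤, rfl, top_ne_bot, fun _ _ _ => trivial⟩
  obtain ⟨W, hWn, hW0, hW⟩ := Nat.find_spec hP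
  refine ⟨W, hW, hW0, Submodule.nontrivial_iff_ne_bot.2 hW0, ?_⟩
  intro U hU
  by_cases hU0 : U = ⊥
  · exact Or.inl hU0
  · right
    have h1 : U.map W.subtype ≠ ⊥ := by
      intro h
      apply hU0
      rw [Submodule.eq_bot_iff]
      intro v hv
      have h3 : (v : V) ∈ U.map W.subtype := ⟨v, hv, rfl⟩
      rw [h, Submodule.mem_bot] at h3
      exact Subtype.ext h3
    have h2 : Inv ρ (U.map W.subtype) := by
      rintro a _ ⟨v, hv, rfl⟩
      exact ⟨_, hU a v hv, rfl⟩
    have h3 : finrank F W ≤ finrank F (U.map W.subtype) := by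
      rw [hWn]
      exact Nat.find_min' hP ⟨_, rfl, h1, h2⟩
    have h4 : U.map W.subtype = W := Submodule.eq_of_le_of_finrank_le (by
      rintro _ ⟨v, _, rfl⟩
      exact v.2) h3
    rw [Submodule.eq_top_iff']
    intro v
    have h5 : (v : V) ∈ U.map W.subtype := by rw [h4]; exact v.2
    obtain ⟨u, hu, huv⟩ := h5
    have : u = v := Subtype.ext huv
    rwa [← this]

/-- The `F`-span of the image. -/
def fspan (ρ : A →+* Module.End F V) : Subalgebra F (Module.End F V) :=
  Submodule.toSubalgebra (Submodule.span F (Set.range ρ)) (Submodule.subset_span ⟨1, map_one ρ⟩)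
    (by
      intro a b ha hb
      induction ha using Submodule.span_induction with
      | mem a ha =>
        obtain ⟨a, rfl⟩ := ha
        induction hb using Submodule.span_induction with
        | mem b hb =>
          obtain ⟨b, rfl⟩ := hb
          rw [← map_mul]
          exact Submodule.subset_span ⟨_, rfl⟩
        | zero => rw [mul_zero]; exact Submodule.zero_mem _
        | add a b _ _ ha hb => rw [mul_add]; exact Submodule.add_mem _ ha hb
        | smul c a _ ha => rw [mul_smul_comm]; exact Submodule.smul_mem _ _ ha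
      | zero => rw [zero_mul]; exact Submodule.zero_mem _
      | add a b _ _ ha hb => rw [add_mul]; exact Submodule.add_mem _ ha hb
      | smul c a _ ha => rw [smul_mul_assoc]; exact Submodule.smul_mem _ _ ha)

theorem mem_fspan {ρ : A →+* Module.End F V} {g : Module.End F V} :
    g ∈ fspan ρ ↔ g ∈ Submodule.span F (Set.range ρ) := Iff.rfl

theorem irr_span [IsAlgClosed F] [FiniteDimensional F V] {ρ : A →+* Module.End F V}
    (h : Irr ρ) (g : Module.End F V) : g ∈ Submodule.span F (Set.range ρ) := by
  have := h.1
  exact Pool.Agent.Helper56.SKU.burnside (fspan ρ) (fun W hW => h.2 W fun a w hw =>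
    hW _ (Submodule.subset_span ⟨a, rfl⟩) w hw) g

theorem irr_of_span [Nontrivial V] {ρ : A →+* Module.End F V}
    (h : ∀ g, g ∈ Submodule.span F (Set.range ρ)) : Irr ρ := by
  refine ⟨inferInstance, fun W hW => ?_⟩
  by_cases h0 : W = ⊥
  · exact Or.inl h0
  · right
    obtain ⟨w, hw, hw0⟩ := (Submodule.ne_bot_iff W).1 h0
    rw [Submodule.eq_top_iff']
    intro v
    obtain ⟨g, hg⟩ : ∃ g : Module.End F V, g w = v := by
      obtain ⟨f, hf⟩ := LinearMap.exists_leftInverse_of_injective
        (LinearMap.toSpanSingleton F V w) (LinearMap.ker_toSpanSingleton F hw0)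
      refine ⟨(LinearMap.toSpanSingleton F V v).comp f, ?_⟩
      have h1 := LinearMap.congr_fun hf 1
      simp only [LinearMap.comp_apply, LinearMap.toSpanSingleton_apply, one_smul,
        LinearMap.id_apply] at h1
      simp [h1]
    have h1 := h g
    have h2 : ∀ g ∈ Submodule.span F (Set.range ρ), g w ∈ W := by
      intro g hg
      induction hg using Submodule.span_induction with
      | mem a ha =>
        obtain ⟨a, rfl⟩ := ha
        exact hW a w hw
      | zero => simp
      | add a b _ _ ha hb => rw [LinearMap.add_apply]; exact W.add_mem ha hb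
      | smul c a _ ha => rw [LinearMap.smul_apply]; exact W.smul_mem _ ha
    rw [← hg]
    exact h2 g h1

/-- All irreducible representations have the same dimension, so it divides all dimensions. -/
theorem dvd_of_irr {A : Type*} [Ring A] {F : Type*} [Field F] (d : ℕ)
    (hd : ∀ (V : Type w) [AddCommGroup V] [Module F V] [FiniteDimensional F V]
      (ρ : A →+* Module.End F V), Irr ρ → d ∣ finrank F V) :
    ∀ (N : ℕ) (V : Type w) [AddCommGroup V] [Module F V] [FiniteDimensional F V]
      (_ : A →+* Module.End F V), finrank F V ≤ N → d ∣ finrank F V := by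
  intro N
  induction N with
  | zero =>
    intro V _ _ _ ρ hN
    rw [Nat.le_zero.1 hN]
    exact dvd_zero d
  | succ N ih =>
    intro V _ _ _ ρ hN
    rcases subsingleton_or_nontrivial V with hV | hV
    · rw [finrank_zero_of_subsingleton]
      exact dvd_zero d
    · obtain ⟨W, hW, hW0, hirr⟩ := exists_irr_sub ρ
      have h1 := Submodule.finrank_quotient_add_finrank W
      have h2 : 0 < finrank F W := by
        have := Submodule.nontrivial_iff_ne_bot.2 hW0
        exact finrank_pos
      rw [← h1]
      exact dvd_add (ih _ (quotRep ρ W hW) (by omega)) (hd _ _ hirr)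

end rep

end Pool.Agent.Helper56.SKR
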