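import Mathlib
import Pool.Agent.Helper56.SKR.Rep

/-!
# Irreducible representations of simple rings
-/

namespace Pool.Agent.Helper56.SKR

open Module

universe v w

section center

variable (K S : Type*) [Field K] [Ring S] [Algebra K S] [IsSimpleRing S]

theorem center_isField : IsField (Subalgebra.center K S) := by
  have h := IsSimpleRing.isField_center S
  refine ⟨⟨0, 1, fun h => ?_⟩, fun a b => ?_, fun {a} ha => ?_⟩
  · exact zero_ne_one (congrArg Subtype.val h : (0 : S) = 1)
  · exact Subtype.ext ((Subalgebra.mem_center_iff.1 b.2) a)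
  · have hmem : (a : S) ∈ Subring.center S := Subring.mem_center_iff.2
      (Subalgebra.mem_center_iff.1 a.2)
    obtain ⟨b, hb⟩ := h.mul_inv_cancel (a := ⟨(a : S), hmem⟩) (fun h0 => ha (Subtype.ext
      (congrArg Subtype.val h0)))
    exact ⟨⟨(b : S), Subalgebra.mem_center_iff.2 (Subring.mem_center_iff.1 b.2)⟩,
      Subtype.ext (congrArg Subtype.val hb)⟩

end center

section mult

variable (K S : Type*) [Field K] [Ring S] [Algebra K S]

/-- The multiplication algebra. -/
def MA : Subalgebra K (Module.End K S) :=
  Algebra.adjoin K (Set.range (LinearMap.mulLeft K : S → Module.End K S) ∪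
    Set.range (LinearMap.mulRight K : S → Module.End K S))

theorem left_mem (a : S) : LinearMap.mulLeft K a ∈ MA K S :=
  Algebra.subset_adjoin (Or.inl ⟨a, rfl⟩)

theorem right_mem (a : S) : LinearMap.mulRight K a ∈ MA K S :=
  Algebra.subset_adjoin (Or.inr ⟨a, rfl⟩)

theorem ma_simple [IsSimpleRing S] : IsSimpleModule (MA K S) S := by
  rw [isSimpleModule_iff]
  refine { exists_pair_ne := ⟨⊥, ⊤, bot_ne_top⟩, eq_bot_or_eq_top := ?_ }
  intro N
  by_cases h0 : N = ⊥
  · exact Or.inl h0
  · right
    obtain ⟨x, hx, hx0⟩ := (Submodule.ne_bot_iff N).1 h0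
    have hl : ∀ a : S, ∀ y ∈ N, a * y ∈ N := fun a y hy =>
      N.smul_mem (⟨_, left_mem K S a⟩ : MA K S) hy
    have hr : ∀ a : S, ∀ y ∈ N, y * a ∈ N := fun a y hy =>
      N.smul_mem (⟨_, right_mem K S a⟩ : MA K S) hy
    let I := TwoSidedIdeal.mk' (N : Set S) N.zero_mem (fun {_ _} => N.add_mem)
      (fun {_} h => by
        have := hl (-1) _ h
        rwa [neg_one_mul] at this) (fun {a b} hb => hl a b hb) (fun {a b} ha => hr b a ha)
    have h1 : (1 : S) ∈ I := IsSimpleRing.one_mem_of_ne_zero_mem I hx0
      ((TwoSidedIdeal.mem_mk' _ _ _ _ _ _ _).2 hx)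
    have h2 : (1 : S) ∈ N := (TwoSidedIdeal.mem_mk' _ _ _ _ _ _ _).1 h1
    rw [Submodule.eq_top_iff']
    intro y
    have := hl y 1 h2
    rwa [mul_one] at this

end mult

/-- Linear relations are stable under the multiplication algebra. -/
theorem ma_rel (K : Type*) {S : Type*} [Field K] [Ring S] [Algebra K S] {F V : Type*} [Field F] [AddCommGroup V] [Module F V]
    (ρ : S →+* Module.End F V) {ι : Type*} [Fintype ι] (c : ι → F)
    (hK : ∀ a : K, ∃ b : Module.End F V, ∀ s, ρ (a • s) = b * ρ s) (r : Module.End K S)
    (hr : r ∈ MA K S) : ∀ t : ι → S, ∑ i, c i • ρ (t i) = 0 → ∑ i, c i • ρ (r (t i)) = 0 := by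
  unfold MA at hr
  induction hr using Algebra.adjoin_induction with
  | mem r hr =>
    intro t ht
    rcases hr with ⟨a, rfl⟩ | ⟨a, rfl⟩
    · have h1 := congrArg (fun x => ρ a * x) ht
      simp only [Finset.mul_sum, mul_smul_comm, mul_zero, ← map_mul] at h1
      exact h1
    · have h1 := congrArg (fun x => x * ρ a) ht
      simp only [Finset.sum_mul, smul_mul_assoc, zero_mul, ← map_mul] at h1
      exact h1
  | algebraMap a =>
    intro t ht
    obtain ⟨b, hb⟩ := hK a
    have h1 := congrArg (fun x => b * x) ht
    simp only [Finset.mul_sum, mul_smul_comm, mul_zero, ← hb] at h1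
    exact h1
  | add r s _ _ hr hs =>
    intro t ht
    have h1 := hr t ht
    have h2 := hs t ht
    simp only [LinearMap.add_apply, map_add, smul_add, Finset.sum_add_distrib, h1, h2, add_zero]
  | mul r s _ _ hr hs =>
    intro t ht
    exact hr (fun i => s (t i)) (hs t ht)

/-- Elements that are independent over the centre act by independent operators. -/
theorem rho_indep (K : Type*) {S : Type*} [Field K] [Ring S] [Algebra K S] [IsSimpleRing S] {F V : Type*} [Field F] [AddCommGroup V] [Module F V]
    [Nontrivial V] (ρ : S →+* Module.End F V) {ι : Type*} [Fintype ι] [DecidableEq ι] (t : ι → S)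
    (f : S → S) (i0 : ι)
    (hf : ∀ z : S, z ∈ Subring.center S → ∀ s, f (z * s) = z * f s)
    (hadd : ∀ s s', f (s + s') = f s + f s')
    (hft : ∀ i, f (t i) = if i = i0 then 1 else 0) (c : ι → F)
    (h : ∑ i, c i • ρ (t i) = 0) : c i0 = 0 := by
  classical
  have := ma_simple K S
  let g : Module.End (Module.End (MA K S) S) S :=
    { toFun := f
      map_add' := hadd
      map_smul' := by
        intro e s
        have h1 : ∀ a s, e (a * s) = a * e s := fun a s =>
          e.map_smul (⟨_, left_mem K S a⟩ : MA K S) s
        have h2 : ∀ a s, e (s * a) = e s * a := fun a s =>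
          e.map_smul (⟨_, right_mem K S a⟩ : MA K S) s
        have h3 : ∀ s, e s = e 1 * s := fun s => by rw [← h2, one_mul]
        have h4 : e 1 ∈ Subring.center S := by
          rw [Subring.mem_center_iff]
          intro s
          rw [← h3, ← h1, mul_one]
        simp only [Module.End.smul_def, RingHom.id_apply]
        rw [h3, hf _ h4, ← h3] }
  obtain ⟨r, hr⟩ := jacobson_density (R := MA K S) g (Finset.univ.image t)
  have h1 := ma_rel K ρ c (fun a => ⟨ρ (algebraMap K S a), fun s => by
    rw [← map_mul, Algebra.smul_def]⟩) (r : Module.End K S) r.2 t h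
  have h2 : ∀ i, (r : Module.End K S) (t i) = if i = i0 then 1 else 0 := by
    intro i
    rw [← hft]
    exact (hr (t i) (Finset.mem_image_of_mem _ (Finset.mem_univ i))).symm
  simp only [h2] at h1
  rw [Finset.sum_eq_single i0] at h1
  · rw [if_pos rfl, map_one] at h1
    obtain ⟨v, hv⟩ := exists_ne (0 : V)
    have h3 := LinearMap.congr_fun h1 v
    simp only [LinearMap.smul_apply, Module.End.one_apply, LinearMap.zero_apply] at h3
    exact (smul_eq_zero.1 h3).resolve_right hv
  · intro i _ hi
    rw [if_neg hi, map_zero, smul_zero]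
  · simp

section dim

variable (K : Type*) {S : Type*} [Field K] [Ring S] [Algebra K S] [IsSimpleRing S]
  [FiniteDimensional K S]

/-- The dimension of a simple algebra in terms of an irreducible representation. -/
theorem simple_dim {F V : Type*} [Field F] [IsAlgClosed F]
    [AddCommGroup V] [Module F V] [FiniteDimensional F V] (ρ : S →+* Module.End F V)
    (hρ : Irr ρ) : finrank K S =
      finrank K (Subalgebra.center K S) * (finrank F V * finrank F V) := by
  classical
  let Z := Subalgebra.center K S
  let _ : Field Z := (center_isField K S).toField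
  have hfin : Module.Finite K Z := inferInstance
  have hZS : Module.Finite Z S := Module.Finite.of_restrictScalars_finite K Z S
  have hnt := hρ.1
  rw [← Module.finrank_mul_finrank K Z S]
  congr 1
  let b := Module.finBasis Z S
  -- the operators of the basis
  let v : Fin (finrank Z S) → Module.End F V := fun i => ρ (b i)
  have hli : LinearIndependent F v := by
    rw [Fintype.linearIndependent_iff]
    intro c hc i0
    refine rho_indep K ρ b (fun s => ((b.repr s i0 : Z) : S)) i0 ?_ ?_ ?_ c hc
    · intro z hz s
      let z' : Z := ⟨z, Subalgebra.mem_center_iff.2 (Subring.mem_center_iff.1 hz)⟩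
      have h1 : z * s = z' • s := rfl
      rw [h1, map_smul]
      rfl
    · intro s s'
      rw [map_add]
      rfl
    · intro i
      rw [Basis.repr_self, Finsupp.single_apply]
      by_cases hi : i = i0
      · rw [if_pos hi, if_pos hi]; rfl
      · rw [if_neg hi, if_neg hi]; rfl
  have hZ : ∀ z : Z, ∃ c : F, ρ (z : S) = c • (1 : Module.End F V) := by
    intro z
    have h1 : ∀ g : Module.End F V, ρ (z : S) * g = g * ρ (z : S) := by
      intro g
      have h2 := irr_span hρ g
      induction h2 using Submodule.span_induction with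
      | mem a ha =>
        obtain ⟨a, rfl⟩ := ha
        rw [← map_mul, ← map_mul, (Subalgebra.mem_center_iff.1 z.2) a]
      | zero => rw [mul_zero, zero_mul]
      | add a b _ _ ha hb => rw [mul_add, add_mul, ha, hb]
      | smul c a _ ha => rw [mul_smul_comm, smul_mul_assoc, ha]
    obtain ⟨c, hc⟩ := Module.End.exists_eigenvalue (ρ (z : S))
    refine ⟨c, ?_⟩
    rcases hρ.2 ((ρ (z : S)).eigenspace c) (by
      intro a w hw
      rw [Module.End.mem_eigenspace_iff] at hw ⊢
      rw [← Module.End.mul_apply, h1, Module.End.mul_apply, hw, map_smul]) with h | h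
    · exact absurd h (Module.End.hasEigenvalue_iff.1 hc)
    · apply LinearMap.ext
      intro v
      have : v ∈ (ρ (z : S)).eigenspace c := by rw [h]; trivial
      exact (Module.End.mem_eigenspace_iff).1 this
  have hsp : ⊤ ≤ Submodule.span F (Set.range v) := by
    intro g _
    have h2 := irr_span hρ g
    refine (Submodule.span_le.2 ?_) h2
    rintro _ ⟨s, rfl⟩
    rw [← b.sum_repr s, map_sum]
    refine Submodule.sum_mem _ fun i _ => ?_
    obtain ⟨c, hc⟩ := hZ (b.repr s i)
    have h3 : ρ (b.repr s i • b i) = c • v i := by
      have h4 : b.repr s i • b i = ((b.repr s i : Z) : S) * b i := rfl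
      rw [h4, map_mul, hc, smul_mul_assoc, one_mul]
    rw [h3]
    exact Submodule.smul_mem _ _ (Submodule.subset_span ⟨i, rfl⟩)
  have h5 := finrank_eq_card_basis (Basis.mk hli hsp)
  rw [Fintype.card_fin] at h5
  rw [← h5, Module.finrank_linearMap]

end dim

section dvd

/-- The dimension of an irreducible representation divides all dimensions. -/
theorem simple_dvd (K : Type*) {S : Type*} [Field K] [Ring S] [Algebra K S] [IsSimpleRing S]
    [FiniteDimensional K S] {F : Type v} [Field F] [IsAlgClosed F] {V₀ : Type*} [AddCommGroup V₀]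
    [Module F V₀] [FiniteDimensional F V₀] (ρ₀ : S →+* Module.End F V₀) (h₀ : Irr ρ₀)
    {V : Type w} [AddCommGroup V] [Module F V] [FiniteDimensional F V] (ρ : S →+* Module.End F V) :
    finrank F V₀ ∣ finrank F V := by
  refine dvd_of_irr (finrank F V₀) ?_ _ V ρ le_rfl
  intro W _ _ _ τ hτ
  have hz : 0 < finrank K (Subalgebra.center K S) := finrank_pos
  have h1 := simple_dim K ρ₀ h₀
  have h2 := simple_dim K τ hτ
  rw [h1] at h2
  have h3 := Nat.eq_of_mul_eq_mul_left hz h2
  have h4 : finrank F V₀ = finrank F W := Nat.mul_self_inj.1 h3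
  rw [h4]

end dvd

section prim

/-- A finite dimensional algebra with a faithful irreducible representation is simple. -/
theorem simple_of_irr (K S : Type*) [Field K] [Ring S] [Algebra K S] [FiniteDimensional K S]
    {F V : Type*} [Field F] [IsAlgClosed F] [AddCommGroup V] [Module F V] [FiniteDimensional F V]
    (ρ : S →+* Module.End F V) (hρ : Irr ρ) (hinj : Function.Injective ρ) : IsSimpleRing S := by
  classical
  have hnt := hρ.1
  have hntE : Nontrivial (Module.End F V) := inferInstance
  have hntS : Nontrivial S := by
    refine ⟨⟨0, 1, fun h => ?_⟩⟩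
    have := congrArg ρ h
    rw [map_zero, map_one] at this
    exact zero_ne_one this
  have hart : IsArtinianRing S := IsArtinianRing.of_finite K S
  -- the span of a non-zero two sided ideal is everything
  have key : ∀ I : Set S, (∀ a, ∀ x ∈ I, a * x ∈ I) → (∀ a, ∀ x ∈ I, x * a ∈ I) →
      (∃ x ∈ I, x ≠ 0) → ∀ g : Module.End F V, g ∈ Submodule.span F (ρ '' I) := by
    intro I hl hr hI g
    obtain ⟨x, hx, hx0⟩ := hI
    have h1 : ∀ a b : Module.End F V, a * ρ x * b ∈ Submodule.span F (ρ '' I) := by
      intro a b
      have ha := irr_span hρ a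
      have hb := irr_span hρ b
      induction ha using Submodule.span_induction with
      | mem a ha =>
        obtain ⟨a, rfl⟩ := ha
        induction hb using Submodule.span_induction with
        | mem b hb =>
          obtain ⟨b, rfl⟩ := hb
          rw [← map_mul, ← map_mul]
          exact Submodule.subset_span ⟨_, hr _ _ (hl _ _ hx), rfl⟩
        | zero => rw [mul_zero]; exact Submodule.zero_mem _
        | add a b _ _ ha hb => rw [mul_add]; exact Submodule.add_mem _ ha hb
        | smul c a _ ha => rw [mul_smul_comm]; exact Submodule.smul_mem _ _ ha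
      | zero => rw [zero_mul, zero_mul]; exact Submodule.zero_mem _
      | add a b _ _ ha hb => rw [add_mul, add_mul]; exact Submodule.add_mem _ ha hb
      | smul c a _ ha => rw [smul_mul_assoc, smul_mul_assoc]; exact Submodule.smul_mem _ _ ha
    have hρx : ρ x ≠ 0 := fun h => hx0 (hinj (h.trans (map_zero ρ).symm))
    let N : TwoSidedIdeal (Module.End F V) := TwoSidedIdeal.mk'
      (Submodule.span F {y | ∃ a b : Module.End F V, y = a * ρ x * b} : Set (Module.End F V))
      (Submodule.zero_mem _) (fun {_ _} => Submodule.add_mem _) (fun {_} => Submodule.neg_mem _)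
      (by
        intro a y hy
        induction hy using Submodule.span_induction with
        | mem y hy =>
          obtain ⟨c, d, rfl⟩ := hy
          exact Submodule.subset_span ⟨a * c, d, by simp only [mul_assoc]⟩
        | zero => rw [mul_zero]; exact Submodule.zero_mem _
        | add a b _ _ ha hb => rw [mul_add]; exact Submodule.add_mem _ ha hb
        | smul c a _ ha => rw [mul_smul_comm]; exact Submodule.smul_mem _ _ ha)
      (by
        intro y a hy
        induction hy using Submodule.span_induction with
        | mem y hy =>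
          obtain ⟨c, d, rfl⟩ := hy
          exact Submodule.subset_span ⟨c, d * a, by simp only [mul_assoc]⟩
        | zero => rw [zero_mul]; exact Submodule.zero_mem _
        | add a b _ _ ha hb => rw [add_mul]; exact Submodule.add_mem _ ha hb
        | smul c a _ ha => rw [smul_mul_assoc]; exact Submodule.smul_mem _ _ ha)
    have hne : Nonempty (Fin (finrank F V)) := Fin.pos_iff_nonempty.1 finrank_pos
    have hsimpE : IsSimpleRing (Module.End F V) :=
      IsSimpleRing.of_ringEquiv (algEquivMatrix (Module.finBasis F V)).symm.toRingEquiv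
        inferInstance
    have h2 : (1 : Module.End F V) ∈ N := by
      refine IsSimpleRing.one_mem_of_ne_zero_mem N hρx ((TwoSidedIdeal.mem_mk' _ _ _ _ _ _ _).2 ?_)
      exact Submodule.subset_span ⟨1, 1, by rw [one_mul, mul_one]⟩
    have h3 := (TwoSidedIdeal.mem_mk' _ _ _ _ _ _ _).1 (N.mul_mem_left g 1 h2)
    rw [mul_one] at h3
    refine (Submodule.span_le.2 ?_) h3
    rintro _ ⟨a, b, rfl⟩
    exact h1 a b
  -- the Jacobson radical vanishes
  have hjac : Ring.jacobson S = ⊥ := by
    by_contra hne
    obtain ⟨x, hx, hx0⟩ := (Submodule.ne_bot_iff _).1 hne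
    obtain ⟨n, hn⟩ := (inferInstance : IsSemiprimaryRing S).isNilpotent
    have h2 : ∀ m : ℕ, (1 : Module.End F V) ∈ Submodule.span F (ρ '' (Ring.jacobson S ^ m : Ideal S)) := by
      intro m
      induction m with
      | zero =>
        rw [Submodule.pow_zero, Ideal.one_eq_top]
        exact Submodule.subset_span ⟨1, trivial, map_one ρ⟩
      | succ m ih =>
        have h3 : (1 : Module.End F V) ∈ Submodule.span F (ρ '' (Ring.jacobson S : Ideal S)) :=
          key _ (fun a x hx => Ideal.mul_mem_left _ a hx)
            (fun a x hx => Ideal.mul_mem_right a _ hx) ⟨x, hx, hx0⟩ 1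
        rw [← one_mul (1 : Module.End F V)]
        have h4 : ∀ a ∈ Submodule.span F (ρ '' (Ring.jacobson S ^ m : Ideal S)),
            ∀ b ∈ Submodule.span F (ρ '' (Ring.jacobson S : Ideal S)),
            a * b ∈ Submodule.span F (ρ '' (Ring.jacobson S ^ (m + 1) : Ideal S)) := by
          intro a ha b hb
          induction ha using Submodule.span_induction with
          | mem a ha =>
            obtain ⟨a, ha, rfl⟩ := ha
            induction hb using Submodule.span_induction with
            | mem b hb =>
              obtain ⟨b, hb, rfl⟩ := hb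
              rw [← map_mul]
              refine Submodule.subset_span ⟨_, ?_, rfl⟩
              rw [SetLike.mem_coe, Submodule.pow_succ]
              exact Ideal.mul_mem_mul ha hb
            | zero => rw [mul_zero]; exact Submodule.zero_mem _
            | add a b _ _ ha hb => rw [mul_add]; exact Submodule.add_mem _ ha hb
            | smul c a _ ha => rw [mul_smul_comm]; exact Submodule.smul_mem _ _ ha
          | zero => rw [zero_mul]; exact Submodule.zero_mem _
          | add a b _ _ ha hb => rw [add_mul]; exact Submodule.add_mem _ ha hb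
          | smul c a _ ha => rw [smul_mul_assoc]; exact Submodule.smul_mem _ _ ha
        exact h4 _ ih _ h3
    have h5 := h2 n
    rw [hn] at h5
    have h6 : ρ '' ((0 : Ideal S) : Set S) = {0} := by
      ext y
      constructor
      · rintro ⟨a, ha, rfl⟩
        have : a = 0 := ha
        rw [this, map_zero]
        rfl
      · rintro rfl
        exact ⟨0, Submodule.zero_mem _, map_zero ρ⟩
    rw [h6, Submodule.span_zero_singleton, Submodule.mem_bot] at h5
    exact one_ne_zero h5
  have hss : IsSemisimpleRing S := IsArtinianRing.isSemisimpleRing_iff_jacobson.2 hjac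
  refine ⟨⟨fun I => ?_⟩⟩
  by_cases hI : I = ⊥
  · exact Or.inl hI
  · right
    obtain ⟨x, hx, hx0⟩ : ∃ x ∈ I, x ≠ 0 := by
      by_contra hcon
      push Not at hcon
      apply hI
      rw [eq_bot_iff]
      intro x hx
      rw [hcon x hx]
      exact TwoSidedIdeal.zero_mem _
    let J : Ideal S :=
      { carrier := {x | x ∈ I}
        add_mem' := fun ha hb => I.add_mem ha hb
        zero_mem' := I.zero_mem
        smul_mem' := fun a x hx => I.mul_mem_left a x hx }
    obtain ⟨e, he, hJ⟩ := IsSemisimpleRing.ideal_eq_span_idempotent J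
    have h1 : ∀ x ∈ I, x * (1 - e) = 0 := by
      intro x hx
      have h2 : x ∈ J := hx
      rw [hJ, Ideal.mem_span_singleton'] at h2
      obtain ⟨a, rfl⟩ := h2
      rw [mul_sub, mul_one, mul_assoc, he.eq, sub_self]
    have h3 : ∀ g : Module.End F V, g * ρ (1 - e) = 0 := by
      intro g
      have h4 := key {x | x ∈ I} (fun a x hx => I.mul_mem_left a x hx)
        (fun a x hx => I.mul_mem_right x a hx) ⟨x, hx, hx0⟩ g
      induction h4 using Submodule.span_induction with
      | mem a ha =>
        obtain ⟨a, ha, rfl⟩ := ha
        rw [← map_mul, h1 a ha, map_zero]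
      | zero => rw [zero_mul]
      | add a b _ _ ha hb => rw [add_mul, ha, hb, add_zero]
      | smul c a _ ha => rw [smul_mul_assoc, ha, smul_zero]
    have h5 := h3 1
    rw [one_mul] at h5
    have h6 : 1 - e = 0 := hinj (h5.trans (map_zero ρ).symm)
    have h7 : (1 : S) ∈ I := by
      have h8 : e ∈ J := by
        rw [hJ]
        exact Ideal.mem_span_singleton_self e
      rw [sub_eq_zero.1 h6]
      exact h8
    rw [eq_top_iff]
    intro y _
    have := I.mul_mem_left y 1 h7
    rwa [mul_one] at this

end prim

end Pool.Agent.Helper56.SKR
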