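import Mathlib
import Pool.Agent.Helper56.SKR.Rep

/-!
# Comparison of the degrees of irreducible representations
-/

namespace Pool.Agent.Helper56.SKR

open Module Pool.Agent.Helper56.SKU

universe u v w

section kill

variable {A : Type*} [Ring A] {F : Type u} [Field F]

/-- Prescribed scalar actions. -/
def Sat {V : Type*} [AddCommGroup V] [Module F V] (E : Set (A × F))
    (ρ : A →+* Module.End F V) : Prop := ∀ e ∈ E, ρ e.1 = e.2 • (1 : Module.End F V)

theorem Sat.sub {V : Type*} [AddCommGroup V] [Module F V] {E : Set (A × F)}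
    {ρ : A →+* Module.End F V} (h : Sat E ρ) (W : Submodule F V) (hW : Inv ρ W) :
    Sat E (subRep ρ W hW) := by
  intro e he
  apply LinearMap.ext
  intro v
  apply Subtype.ext
  exact LinearMap.congr_fun (h e he) (v : V)

theorem Sat.quot {V : Type*} [AddCommGroup V] [Module F V] {E : Set (A × F)}
    {ρ : A →+* Module.End F V} (h : Sat E ρ) (W : Submodule F V) (hW : Inv ρ W) :
    Sat E (quotRep ρ W hW) := by
  intro e he
  apply LinearMap.ext
  intro v
  obtain ⟨v, rfl⟩ := W.mkQ_surjective v
  rw [quotRep_mk, h e he]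
  rfl

/-- Products of many elements that kill all irreducible representations vanish. -/
theorem prod_kill (E : Set (A × F)) (C : Set A) (hC : ∀ (V : Type w) [AddCommGroup V] [Module F V]
    [FiniteDimensional F V] (ρ : A →+* Module.End F V), Irr ρ → Sat E ρ → ∀ c ∈ C, ρ c = 0) :
    ∀ (l : List A) (_ : ∀ c ∈ l, c ∈ C) (V : Type w) [AddCommGroup V] [Module F V]
      [FiniteDimensional F V] (ρ : A →+* Module.End F V), Sat E ρ → finrank F V ≤ l.length →
      ρ l.prod = 0 := by
  intro l
  induction l with
  | nil =>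
    intro _ V _ _ _ ρ _ h
    have h1 : finrank F V = 0 := Nat.le_zero.1 h
    have := finrank_zero_iff.1 h1
    exact LinearMap.ext fun v => Subsingleton.elim _ _
  | cons c l ih =>
    intro hl V _ _ _ ρ hsat h
    rcases subsingleton_or_nontrivial V with hV | hV
    · exact LinearMap.ext fun v => Subsingleton.elim _ _
    · obtain ⟨W, hW, hW0, hirr⟩ := exists_irr_sub ρ
      have h1 := Submodule.finrank_quotient_add_finrank W
      have h2 : 0 < finrank F W := by
        have := Submodule.nontrivial_iff_ne_bot.2 hW0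
        exact finrank_pos
      have h3 := ih (fun c hc => hl c (List.mem_cons_of_mem _ hc)) (V ⧸ W) (quotRep ρ W hW)
        (hsat.quot W hW) (by
        rw [List.length_cons] at h
        omega)
      have h4 := hC W (subRep ρ W hW) hirr (hsat.sub W hW) c (hl c (by simp))
      rw [List.prod_cons, map_mul]
      apply LinearMap.ext
      intro v
      have h5 : ρ l.prod v ∈ W := by
        have h6 := LinearMap.congr_fun h3 (W.mkQ v)
        rw [quotRep_mk] at h6
        simpa using h6
      have h7 := LinearMap.congr_fun h4 ⟨_, h5⟩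
      exact congrArg Subtype.val h7

end kill

section multi

variable {F E : Type*} [Field F] [Ring E] [Algebra F E]

/-- A multilinear map vanishing on a spanning set vanishes. -/
theorem multi_ext {n : ℕ} {S : Set E} (hS : ∀ x, x ∈ Submodule.span F S)
    (m : MultilinearMap F (fun _ : Fin n => E) E) (h : ∀ v : Fin n → E, (∀ i, v i ∈ S) → m v = 0)
    (v : Fin n → E) : m v = 0 := by
  classical
  obtain ⟨B, hBS, hBsp, hBli⟩ := exists_linearIndependent F S
  let b : Basis B F E := Basis.mk hBli (by
    rw [Subtype.range_coe, hBsp]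
    intro x _
    exact hS x)
  have hb : ∀ i, b i = (i : E) := fun i => Basis.mk_apply _ _ i
  have h1 : m = 0 := by
    refine Basis.ext_multilinear (fun _ => b) fun w => ?_
    simp only [zero_apply]
    refine h _ fun i => ?_
    rw [hb]
    exact hBS (w i).2
  rw [h1]
  rfl

theorem cap_alt {n : ℕ} (y z : Fin n → E) : ∃ m : MultilinearMap F (fun _ : Fin n => E) E,
    ∀ a, m a = cap a y z := by
  let m : MultilinearMap F (fun _ : Fin n => E) E :=
    (MultilinearMap.mkPiAlgebraFin F n E).compLinearMap fun i =>
      (LinearMap.mulLeft F (y i)).comp (LinearMap.mulRight F (z i))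
  refine ⟨(MultilinearMap.alternatization m : AlternatingMap F E E (Fin n)).toMultilinearMap, ?_⟩
  intro a
  show MultilinearMap.alternatization m a = cap a y z
  rw [MultilinearMap.alternatization_apply]
  unfold cap
  refine Finset.sum_congr rfl fun π _ => ?_
  rw [MultilinearMap.domDomCongr_apply]
  simp only [m, MultilinearMap.compLinearMap_apply, MultilinearMap.mkPiAlgebraFin_apply,
    LinearMap.comp_apply, LinearMap.mulLeft_apply, LinearMap.mulRight_apply, mul_assoc]
  rfl

theorem cap_left {n : ℕ} (a z : Fin n → E) : ∃ m : MultilinearMap F (fun _ : Fin n => E) E,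
    ∀ y, m y = cap a y z := by
  refine ⟨∑ π : Equiv.Perm (Fin n), ((Equiv.Perm.sign π : ℤˣ) : ℤ) •
    (MultilinearMap.mkPiAlgebraFin F n E).compLinearMap fun i =>
      LinearMap.mulRight F (a (π i) * z i), ?_⟩
  intro y
  rw [sum_apply]
  unfold cap
  refine Finset.sum_congr rfl fun π _ => ?_
  rw [smul_apply]
  simp only [MultilinearMap.compLinearMap_apply, MultilinearMap.mkPiAlgebraFin_apply,
    LinearMap.mulRight_apply, mul_assoc]

theorem cap_right {n : ℕ} (a y : Fin n → E) : ∃ m : MultilinearMap F (fun _ : Fin n => E) E,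
    ∀ z, m z = cap a y z := by
  refine ⟨∑ π : Equiv.Perm (Fin n), ((Equiv.Perm.sign π : ℤˣ) : ℤ) •
    (MultilinearMap.mkPiAlgebraFin F n E).compLinearMap fun i =>
      LinearMap.mulLeft F (y i * a (π i)), ?_⟩
  intro z
  rw [sum_apply]
  unfold cap
  refine Finset.sum_congr rfl fun π _ => ?_
  rw [smul_apply]
  simp only [MultilinearMap.compLinearMap_apply, MultilinearMap.mkPiAlgebraFin_apply,
    LinearMap.mulLeft_apply]

/-- The Capelli identity can be tested on a spanning set. -/
theorem cap_ext {n : ℕ} {S : Set E} (hS : ∀ x, x ∈ Submodule.span F S)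
    (h : ∀ a y z : Fin n → E, (∀ i, a i ∈ S) → (∀ i, y i ∈ S) → (∀ i, z i ∈ S) →
      cap a y z = 0) (a y z : Fin n → E) : cap a y z = 0 := by
  have h1 : ∀ a y z : Fin n → E, (∀ i, a i ∈ S) → (∀ i, y i ∈ S) → cap a y z = 0 := by
    intro a y z ha hy
    obtain ⟨m, hm⟩ := cap_right (F := F) a y
    rw [← hm]
    refine multi_ext hS m ?_ z
    intro z hz
    rw [hm]
    exact h a y z ha hy hz
  have h2 : ∀ a y z : Fin n → E, (∀ i, a i ∈ S) → cap a y z = 0 := by
    intro a y z ha
    obtain ⟨m, hm⟩ := cap_left (F := F) a z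
    rw [← hm]
    refine multi_ext hS m ?_ y
    intro y hy
    rw [hm]
    exact h1 a y z ha hy
  obtain ⟨m, hm⟩ := cap_alt (F := F) y z
  rw [← hm]
  refine multi_ext hS m ?_ a
  intro a ha
  rw [hm]
  exact h2 a y z ha

end multi

section transfer

/-- **Transfer of degrees.** -/
theorem transfer {A : Type*} [Ring A] {F : Type u} [Field F] (E : Set (A × F)) (D N : ℕ)
    (hD : ∀ (V : Type w) [AddCommGroup V] [Module F V]
      [FiniteDimensional F V] (ρ : A →+* Module.End F V), Irr ρ → Sat E ρ → finrank F V ≤ D)
    {J : Type*} (M : J → Type w) [∀ j, AddCommGroup (M j)] [∀ j, Module F (M j)]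
    [∀ j, FiniteDimensional F (M j)] (τ : ∀ j, A →+* Module.End F (M j))
    (hτ : ∀ j, Sat E (τ j))
    (hN : ∀ j, finrank F (M j) ≤ N)
    {G : Type*} [Field G] {V : Type*} [AddCommGroup V] [Module G V] [FiniteDimensional G V]
    (ρ : A →+* Module.End G V) (hρ : ∀ g, g ∈ Submodule.span G (Set.range ρ))
    (hker : ∀ a, (∀ j, τ j a = 0) → ρ a = 0) : finrank G V ≤ D := by
  classical
  by_contra hcon
  push Not at hcon
  have hcard : D * D + 1 ≤ finrank G V * finrank G V := by nlinarith
  have hnt : Nontrivial V := nontrivial_of_finrank_pos (R := G) (by omega)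
  -- a non-vanishing Capelli value
  obtain ⟨a, y, z, hne⟩ : ∃ a y z : Fin (D * D + 1) → A, ρ (cap a y z) ≠ 0 := by
    by_contra hzero
    push Not at hzero
    obtain ⟨a, y, z, hne⟩ := cap_ne_zero G (N := finrank G V) hcard (Nat.succ_pos _)
    apply hne
    let e := LinearMap.toMatrixAlgEquiv (Module.finBasis G V)
    have h1 : ∀ a y z : Fin (D * D + 1) → Module.End G V, cap a y z = 0 := by
      refine cap_ext (F := G) (S := Set.range ρ) hρ ?_
      intro a y z ha hy hz
      choose a' ha' using ha
      choose y' hy' using hy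
      choose z' hz' using hz
      have h2 := hzero a' y' z'
      rw [cap_map] at h2
      simp only [ha', hy', hz'] at h2
      exact h2
    have h2 := congrArg e (h1 (fun i => e.symm (a i)) (fun i => e.symm (y i))
      (fun i => e.symm (z i)))
    rw [map_zero] at h2
    let e' : Module.End G V →+* Matrix (Fin (finrank G V)) (Fin (finrank G V)) G :=
      e.toRingEquiv.toRingHom
    have h3 := cap_map e' (fun i => e.symm (a i)) (fun i => e.symm (y i))
      (fun i => e.symm (z i))
    have h4 : ∀ x, e' (e.symm x) = x := fun x => e.apply_symm_apply x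
    simp only [h4] at h3
    rw [← h3]
    exact h2
  set c := cap a y z with hc
  -- the elements `c * u` kill all irreducible representations
  have hC : ∀ (V : Type w) [AddCommGroup V] [Module F V]
    [FiniteDimensional F V] (ρ : A →+* Module.End F V), Irr ρ → Sat E ρ →
      ∀ x ∈ Set.range (fun u => c * u), ρ x = 0 := by
    rintro V _ _ _ ρ hρ hsat _ ⟨u, rfl⟩
    show ρ (c * u) = 0
    have h1 : ρ c = 0 := by
      rw [hc, cap_map]
      refine cap_eq_zero (K := F) ?_ _ _ _
      rw [Module.finrank_linearMap]
      have := hD V ρ hρ hsat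
      nlinarith
    rw [map_mul, h1, zero_mul]
  -- a non-zero product
  have hprime : ∀ x y : Module.End G V, x ≠ 0 → y ≠ 0 → ∃ u, x * ρ u * y ≠ 0 := by
    intro x y hx hy
    by_contra hall
    push Not at hall
    have h1 : ∀ g : Module.End G V, x * g * y = 0 := by
      intro g
      have h2 := hρ g
      induction h2 using Submodule.span_induction with
      | mem a ha =>
        obtain ⟨a, rfl⟩ := ha
        exact hall a
      | zero => rw [mul_zero, zero_mul]
      | add a b _ _ ha hb => rw [mul_add, add_mul, ha, hb, add_zero]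
      | smul c a _ ha => rw [mul_smul_comm, smul_mul_assoc, ha, smul_zero]
    obtain ⟨v, hv⟩ : ∃ v, x v ≠ 0 := by
      by_contra h3
      push Not at h3
      exact hx (LinearMap.ext h3)
    obtain ⟨w, hw⟩ : ∃ w, y w ≠ 0 := by
      by_contra h3
      push Not at h3
      exact hy (LinearMap.ext h3)
    obtain ⟨f, hf⟩ := LinearMap.exists_leftInverse_of_injective
      (LinearMap.toSpanSingleton G V (y w)) (LinearMap.ker_toSpanSingleton G hw)
    have h4 := LinearMap.congr_fun hf 1
    simp only [LinearMap.comp_apply, LinearMap.toSpanSingleton_apply, one_smul,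
      LinearMap.id_apply] at h4
    have h5 := LinearMap.congr_fun (h1 ((LinearMap.toSpanSingleton G V v).comp f)) w
    simp only [Module.End.mul_apply, LinearMap.comp_apply, h4, LinearMap.toSpanSingleton_apply,
      one_smul, LinearMap.zero_apply] at h5
    exact hv h5
  have hlist : ∀ n : ℕ, ∃ l : List A, l.length = n ∧ (∀ x ∈ l, x ∈ Set.range (fun u => c * u)) ∧
      ρ (l.prod * c) ≠ 0 := by
    intro n
    induction n with
    | zero => exact ⟨[], rfl, by simp, by rw [List.prod_nil, one_mul]; exact hne⟩
    | succ n ih =>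
      obtain ⟨l, hl, hlC, hl0⟩ := ih
      obtain ⟨u, hu⟩ := hprime (ρ c) (ρ (l.prod * c)) hne hl0
      refine ⟨(c * u) :: l, by simp [hl], ?_, ?_⟩
      · intro x hx
        rcases List.mem_cons.1 hx with rfl | hx
        · exact ⟨u, rfl⟩
        · exact hlC x hx
      · rw [List.prod_cons, mul_assoc, map_mul, map_mul]
        exact hu
  obtain ⟨l, hl, hlC, hl0⟩ := hlist N
  apply hl0
  rw [map_mul, hker l.prod (fun j => prod_kill E _ hC l hlC (M j) (τ j) (hτ j)
    (by rw [hl]; exact hN j)),
    zero_mul]

end transfer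

end Pool.Agent.Helper56.SKR
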