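import Mathlib
import Pool.Agent.Helper56.SKU.Tri

/-!
# Enveloping algebras of Lie algebras are domains
-/

namespace Pool.Agent.Helper56.SKR

open Module Pool.Agent.Helper56.SKW.PBW Pool.Agent.Helper56.SKU

section perm

variable {X : Type*} {S : Type*} [CommRing S] {A : Type*} [Ring A] [Algebra S A] {f : X → A}

theorem perm_one (hc : ∀ x y, f x * f y - f y * f x ∈ FF S f 2)
    {l l' : List X} (h : l.Perm l') : pwf f l - pwf f l' ∈ FF S f l.length := by
  induction h with
  | nil => simp
  | cons x h ih =>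
    rw [pwf_cons, pwf_cons, ← mul_sub, List.length_cons, add_comm]
    refine FF_mul S f (a := 1) ?_ ih
    have := FF_mem S f (l := [x]) (d := 2) (by simp)
    simpa [pwf] using this
  | swap x y l =>
    have e1 : pwf f (y :: x :: l) - pwf f (x :: y :: l) =
        (f y * f x - f x * f y) * pwf f l := by
      rw [pwf_cons, pwf_cons, pwf_cons, pwf_cons, sub_mul, mul_assoc, mul_assoc]
    rw [e1]
    refine FF_mono S f ?_ (FF_mul' S f (hc y x) (FF_mem S f (l := l) (d := l.length + 1) (by omega)))
    simp only [List.length_cons]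
    omega
  | trans h1 _ ih1 ih2 =>
    rw [← h1.length_eq] at ih2
    have := Submodule.add_mem _ ih1 ih2
    convert this using 1
    abel

end perm

section dom

variable {k : Type*} [Field k] {X : Type*} [Fintype X] [LinearOrder X] {L : Type*}
  [AddCommGroup L] [Module k L] (g : Alg k X L)

/-- The ordered monomials. -/
noncomputable def mon (ν : X → ℕ) : Env g := pwf (gen g) (sw ν)

variable {g} in
omit [Fintype X] in
theorem gen_comm1 (hev : ∀ x, g.par x = false) (x y : X) :
    gen g x * gen g y - gen g y * gen g x ∈ FF k (gen g) 2 := by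
  have h := tau_comm g x y
  have h1 : eps k g.par x y = 1 := by simp [eps, hev]
  unfold gen
  rw [h, h1, one_smul, add_sub_cancel_left]
  exact tau_mem2 g _

theorem mon_mul (hev : ∀ x, g.par x = false) (ν μ : X → ℕ) :
    mon g ν * mon g μ - mon g (ν + μ) ∈ FF k (gen g) ((∑ x, ν x) + ∑ x, μ x) := by
  unfold mon
  have hp : (sw ν ++ sw μ).Perm (sw (ν + μ)) := perm_sw fun x => by
    rw [List.count_append, count_sw, count_sw]
    rfl
  have h := perm_one (gen_comm1 hev) hp
  rw [pwf_append, List.length_append, length_sw, length_sw] at h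
  exact h

/-- The symbol map. -/
noncomputable def symb : MvPolynomial X k →ₗ[k] Env g :=
  (MvPolynomial.basisMonomials X k).constr k fun ν => mon g ν

theorem symb_monomial (ν : X →₀ ℕ) (c : k) :
    symb g (MvPolynomial.monomial ν c) = c • mon g ν := by
  have h1 : MvPolynomial.monomial ν c = c • MvPolynomial.basisMonomials X k ν := by
    rw [MvPolynomial.coe_basisMonomials, MvPolynomial.smul_monomial, smul_eq_mul, mul_one]
  rw [h1, map_smul]
  unfold symb
  rw [Basis.constr_basis]

theorem symb_eq (q : MvPolynomial X k) : symb g q = ∑ ν ∈ q.support, q.coeff ν • mon g ν := by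
  conv_lhs => rw [q.as_sum]
  rw [map_sum]
  exact Finset.sum_congr rfl fun ν _ => symb_monomial g ν _

theorem symb_mul (hev : ∀ x, g.par x = false) {d e : ℕ} {q r : MvPolynomial X k}
    (hq : q.IsHomogeneous d) (hr : r.IsHomogeneous e) :
    symb g q * symb g r - symb g (q * r) ∈ FF k (gen g) (d + e) := by
  have h1 : symb g (q * r) = ∑ ν ∈ q.support, ∑ μ ∈ r.support,
      (q.coeff ν * r.coeff μ) • mon g (ν + μ : X →₀ ℕ) := by
    conv_lhs => rw [q.as_sum, r.as_sum, Finset.sum_mul_sum]
    rw [map_sum]
    refine Finset.sum_congr rfl fun ν _ => ?_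
    rw [map_sum]
    refine Finset.sum_congr rfl fun μ _ => ?_
    rw [MvPolynomial.monomial_mul, symb_monomial]
  have h2 : symb g q * symb g r = ∑ ν ∈ q.support, ∑ μ ∈ r.support,
      (q.coeff ν * r.coeff μ) • (mon g ν * mon g μ) := by
    rw [symb_eq, symb_eq, Finset.sum_mul_sum]
    refine Finset.sum_congr rfl fun ν _ => Finset.sum_congr rfl fun μ _ => ?_
    rw [smul_mul_smul_comm]
  rw [h1, h2, ← Finset.sum_sub_distrib]
  refine Submodule.sum_mem _ fun ν hν => ?_
  rw [← Finset.sum_sub_distrib]
  refine Submodule.sum_mem _ fun μ hμ => ?_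
  rw [← smul_sub]
  refine Submodule.smul_mem _ _ ?_
  have h3 := mon_mul g hev ν μ
  have h4 : ∑ x, ν x = d := by
    have := hq (MvPolynomial.mem_support_iff.1 hν)
    rw [Finsupp.weight_apply, Finsupp.sum_fintype _ _ (by simp)] at this
    simpa using this
  have h5 : ∑ x, μ x = e := by
    have := hr (MvPolynomial.mem_support_iff.1 hμ)
    rw [Finsupp.weight_apply, Finsupp.sum_fintype _ _ (by simp)] at this
    simpa using this
  rw [h4, h5] at h3
  exact h3

theorem symb_hom {d : ℕ} {q : MvPolynomial X k} (hq : q.IsHomogeneous d) :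
    symb g q ∈ FF k (gen g) (d + 1) := by
  rw [symb_eq]
  refine Submodule.sum_mem _ fun ν hν => Submodule.smul_mem _ _ ?_
  refine FF_mem k _ ?_
  rw [length_sw]
  have := hq (MvPolynomial.mem_support_iff.1 hν)
  rw [Finsupp.weight_apply, Finsupp.sum_fintype _ _ (by simp)] at this
  simp at this
  omega

variable {g} in
theorem mon_indep (h2 : (2 : k) ≠ 0) (hev : ∀ x, g.par x = false) :
    LinearIndependent k (fun ν : X → ℕ => mon g ν) := by
  have h := pbw_indep g h2
  let em : (X → ℕ) → {ν : X → ℕ // Allowed g ν} := fun ν => ⟨ν, fun x hx => by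
    rw [hev x] at hx
    exact absurd hx (by simp)⟩
  have hem : Function.Injective em := fun a b hab => congrArg Subtype.val hab
  exact h.comp em hem

theorem symb_surj (h2 : (2 : k) ≠ 0) (a : Env g) : ∃ q, symb g q = a := by
  have h1 : (⊤ : Submodule k (Env g)) ≤ LinearMap.range (symb g) := by
    rw [← env_gen g, Submodule.span_le]
    rintro _ ⟨l, rfl⟩
    have h3 : pwf (gen g) l ∈ FF k (gen g) (l.length + 1) := FF_mem k _ (by omega)
    have h4 := FF_low g h2 _ h3
    refine (Submodule.span_le.2 ?_) h4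
    rintro _ ⟨ν, -, rfl⟩
    refine ⟨MvPolynomial.monomial (Finsupp.equivFunOnFinite.symm ν.1) 1, ?_⟩
    rw [symb_monomial, one_smul]
    rfl
  exact h1 trivial

variable {g} in
theorem symb_lead (h2 : (2 : k) ≠ 0) (hev : ∀ x, g.par x = false) {d : ℕ}
    {q : MvPolynomial X k} (hq : q.IsHomogeneous d) (h : symb g q ∈ FF k (gen g) d) : q = 0 := by
  classical
  have hind := mon_indep h2 hev
  have h1 : symb g q ∈ Submodule.span k ((fun ν : X → ℕ => mon g ν) '' {ν | ∑ x, ν x < d}) := by
    refine (Submodule.span_mono ?_) (FF_low g h2 d h)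
    rintro _ ⟨ν, hν, rfl⟩
    exact ⟨ν.1, hν, rfl⟩
  have h3 : symb g q ∈ Submodule.span k ((fun ν : X → ℕ => mon g ν) '' {ν | ∑ x, ν x = d}) := by
    rw [symb_eq]
    refine Submodule.sum_mem _ fun ν hν => Submodule.smul_mem _ _ (Submodule.subset_span ⟨ν, ?_, rfl⟩)
    have := hq (MvPolynomial.mem_support_iff.1 hν)
    rw [Finsupp.weight_apply, Finsupp.sum_fintype _ _ (by simp)] at this
    simpa using this
  have hdis := hind.disjoint_span_image (s := {ν | ∑ x, ν x < d}) (t := {ν | ∑ x, ν x = d}) (by
    rw [Set.disjoint_left]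
    intro ν h4 h5
    have h4' : ∑ x, ν x < d := h4
    have h5' : ∑ x, ν x = d := h5
    omega)
  have h4 : symb g q = 0 := (Submodule.disjoint_def.1 hdis) _ h1 h3
  rw [symb_eq] at h4
  have h5 : ∀ ν ∈ q.support, q.coeff ν = 0 := by
    have h6 : LinearIndependent k (fun ν : X →₀ ℕ => mon g ν) :=
      hind.comp (fun ν : X →₀ ℕ => (ν : X → ℕ)) DFunLike.coe_injective
    exact linearIndependent_iff'.1 h6 q.support q.coeff h4
  ext ν
  rw [MvPolynomial.coeff_zero]
  by_cases hν : ν ∈ q.support
  · exact h5 ν hν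
  · exact MvPolynomial.notMem_support_iff.1 hν

variable {g} in
theorem exists_lead (h2 : (2 : k) ≠ 0) {a : Env g} (ha : a ≠ 0) :
    ∃ (d : ℕ) (q : MvPolynomial X k), q.IsHomogeneous d ∧ q ≠ 0 ∧
      a - symb g q ∈ FF k (gen g) d := by
  obtain ⟨Q, rfl⟩ := symb_surj g h2 a
  have hQ : Q ≠ 0 := by
    rintro rfl
    exact ha (map_zero _)
  refine ⟨Q.totalDegree, MvPolynomial.homogeneousComponent Q.totalDegree Q,
    MvPolynomial.homogeneousComponent_isHomogeneous _ _, ?_, ?_⟩
  · intro h0
    obtain ⟨ν, hν, hd⟩ := Finset.exists_mem_eq_sup Q.support (MvPolynomial.support_nonempty.2 hQ)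
      (fun s : X →₀ ℕ => s.sum fun _ e => e)
    have h1 := congrArg (MvPolynomial.coeff ν) h0
    rw [MvPolynomial.coeff_homogeneousComponent, if_pos, MvPolynomial.coeff_zero] at h1
    · exact MvPolynomial.mem_support_iff.1 hν h1
    · rw [Finsupp.degree_eq_sum]
      have : Q.totalDegree = ν.sum fun _ e => e := hd
      rw [this, Finsupp.sum_fintype _ _ (by simp)]
  · have h1 := MvPolynomial.sum_homogeneousComponent Q
    rw [Finset.sum_range_succ] at h1
    have h3 : symb g Q - symb g (MvPolynomial.homogeneousComponent Q.totalDegree Q) =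
        ∑ i ∈ Finset.range Q.totalDegree, symb g (MvPolynomial.homogeneousComponent i Q) := by
      conv_lhs =>
        congr
        · rw [← h1]
      rw [map_add, map_sum, add_sub_cancel_right]
    rw [h3]
    refine Submodule.sum_mem _ fun i hi => ?_
    exact FF_mono k _ (by rw [Finset.mem_range] at hi; omega)
      (symb_hom g (MvPolynomial.homogeneousComponent_isHomogeneous i Q))

/-- The enveloping algebra of a Lie algebra has no zero divisors. -/
theorem env_domain (h2 : (2 : k) ≠ 0) (hev : ∀ x, g.par x = false) : NoZeroDivisors (Env g) where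
  eq_zero_or_eq_zero_of_mul_eq_zero := by
    intro a b hab
    by_contra hcon
    push Not at hcon
    obtain ⟨d, q, hq, hq0, ha⟩ := exists_lead h2 hcon.1
    obtain ⟨e, r, hr, hr0, hb⟩ := exists_lead h2 hcon.2
    have h1 := symb_mul g hev hq hr
    have h3 : symb g (q * r) = a * b - (a - symb g q) * b - symb g q * (b - symb g r) -
        (symb g q * symb g r - symb g (q * r)) := by
      noncomm_ring
    have h4 : symb g (q * r) ∈ FF k (gen g) (d + e) := by
      rw [h3, hab, zero_sub]
      refine Submodule.sub_mem _ (Submodule.sub_mem _ (Submodule.neg_mem _ ?_) ?_) h1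
      · have hb' : b ∈ FF k (gen g) (e + 1) := by
          have h5 : b = (b - symb g r) + symb g r := by abel
          rw [h5]
          exact Submodule.add_mem _ (FF_mono k _ (by omega) hb) (symb_hom g hr)
        exact FF_mul' k _ ha hb'
      · exact FF_mul k _ (symb_hom g hq) hb
    have h5 := symb_lead h2 hev (hq.mul hr) h4
    rcases mul_eq_zero.1 h5 with h6 | h6
    · exact hq0 h6
    · exact hr0 h6

end dom

end Pool.Agent.Helper56.SKR
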