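import Mathlib

/-!
# A valued field with a generic point
-/

namespace Pool.Agent.Helper56.SKR

open Module Polynomial

universe u

/-- An algebraically closed valued field over `k` with a generic point `ζ` and a small element
`η` such that `ζ` is close to `(c / η ^ 2) ^ p`. -/
theorem exists_valued {k : Type u} [Field k] {m : Type} (p : ℕ) (hp : 0 < p) (c : m → k) :
    ∃ (F : Type u) (_ : Field F) (_ : IsAlgClosed F) (_ : Algebra k F) (ζ : m → F)
      (O : ValuationSubring F) (η : O), (η : F) ≠ 0 ∧ IsLocalRing.residue O η = 0 ∧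
      (∀ a : k, algebraMap k F a ∈ O) ∧
      Function.Injective (MvPolynomial.aeval ζ : MvPolynomial m k →ₐ[k] F) ∧
      ∀ i, ζ i - (algebraMap k F (c i) / (η : F) ^ 2) ^ p ∈ O := by
  classical
  let R := MvPolynomial m k
  let K := FractionRing R
  let F := AlgebraicClosure (RatFunc K)
  let ι : RatFunc K →+* F := algebraMap (RatFunc K) F
  let T : m → K := fun i => algebraMap R K (MvPolynomial.X i)
  let ω : RatFunc K := RatFunc.X
  have hω : ω ≠ 0 := RatFunc.X_ne_zero
  let η : F := ι ω⁻¹
  have hη : η ≠ 0 := by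
    show ι ω⁻¹ ≠ 0
    rw [map_inv₀]
    exact inv_ne_zero ((map_ne_zero ι).2 hω)
  let kK : k →+* K := (algebraMap R K).comp MvPolynomial.C
  let cK : K →+* F := ι.comp RatFunc.C
  let alg : Algebra k F := (cK.comp kK).toAlgebra
  have halg : ∀ a, algebraMap k F a = cK (kK a) := fun a => rfl
  -- the generic point
  let ζ' : m → K[X] := fun i => C (T i) + C (kK (c i) ^ p) * X ^ (2 * p)
  let ζ : m → F := fun i => ι (algebraMap K[X] (RatFunc K) (ζ' i))
  -- the ring
  let ev : K[X] →+* F := Polynomial.eval₂RingHom cK η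
  have hev : ∀ q : K[X], ev q = ι (q.eval₂ (RatFunc.C : K →+* RatFunc K) ω⁻¹) := by
    intro q
    show q.eval₂ cK η = _
    rw [Polynomial.hom_eval₂]
  have hinj : Function.Injective ev := by
    rw [injective_iff_map_eq_zero]
    intro q hq
    rw [hev, map_eq_zero] at hq
    let _ : Invertible ω := invertibleOfNonzero hω
    let _ : Invertible ω⁻¹ := invertibleOfNonzero (inv_ne_zero hω)
    have h1 := (Polynomial.eval₂_reverse_eq_zero_iff (RatFunc.C : K →+* RatFunc K) ω⁻¹ q).2 hq
    have h2 : ⅟(ω⁻¹) = ω := by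
      rw [invOf_eq_inv, inv_inv]
    rw [h2] at h1
    have h3 : q.reverse.eval₂ (RatFunc.C : K →+* RatFunc K) ω =
        algebraMap K[X] (RatFunc K) q.reverse := by
      have h4 : (Polynomial.eval₂RingHom (RatFunc.C : K →+* RatFunc K) ω) =
          algebraMap K[X] (RatFunc K) := by
        apply Polynomial.ringHom_ext
        · intro a
          rw [Polynomial.coe_eval₂RingHom, Polynomial.eval₂_C, RatFunc.algebraMap_C]
        · rw [Polynomial.coe_eval₂RingHom, Polynomial.eval₂_X, RatFunc.algebraMap_X]
      exact congrArg (fun f : K[X] →+* RatFunc K => f q.reverse) h4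
    rw [h3] at h1
    have h5 : q.reverse = 0 := RatFunc.algebraMap_injective K (h1.trans (map_zero _).symm)
    rwa [Polynomial.reverse_eq_zero] at h5
  let R0 : Subring F := ev.range
  let X0 : R0 := ⟨η, X, by simp [ev]⟩
  have hI : Ideal.span {X0} ≠ ⊤ := by
    intro htop
    have h2 : (1 : R0) ∈ Ideal.span {X0} := by rw [htop]; trivial
    obtain ⟨⟨_, q, rfl⟩, hq⟩ := Ideal.mem_span_singleton'.1 h2
    have h3 : ev (q * X) = ev 1 := by
      have h4 := congrArg Subtype.val hq
      simp only [Subring.coe_mul, Subring.coe_one, X0] at h4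
      rw [map_mul, map_one, ← h4]
      simp [ev]
    have h5 := hinj h3
    have h6 := congrArg (Polynomial.eval 0) h5
    simp at h6
  obtain ⟨O, hO, hnon⟩ := Ideal.image_subset_nonunits_valuationSubring _ hI
  have hc : ∀ a : K, cK a ∈ O := fun a => hO ⟨C a, by simp [ev]⟩
  have hmO : η ∈ O.nonunits := hnon ⟨X0, Ideal.subset_span rfl, rfl⟩
  have hm : η ∈ O := O.nonunits_subset hmO
  refine ⟨F, inferInstance, inferInstance, alg, ζ, O, ⟨η, hm⟩, hη, ?_, fun a => hc _, ?_, ?_⟩
  · rw [IsLocalRing.residue_eq_zero_iff]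
    exact (ValuationSubring.coe_mem_nonunits_iff (a := ⟨η, hm⟩)).1 hmO
  · let ψ : R →+* K[X] := MvPolynomial.eval₂Hom (C.comp kK) ζ'
    have h1 : ((Polynomial.evalRingHom (0 : K)).comp ψ) = algebraMap R K := by
      apply MvPolynomial.ringHom_ext
      · intro a
        simp [ψ, kK]
      · intro i
        simp only [ψ, ζ', RingHom.comp_apply, MvPolynomial.coe_eval₂Hom, MvPolynomial.eval₂_X,
          Polynomial.coe_evalRingHom, Polynomial.eval_add, Polynomial.eval_C, Polynomial.eval_mul,
          Polynomial.eval_pow, Polynomial.eval_X]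
        rw [zero_pow (by omega), mul_zero, add_zero]
    have h2 : Function.Injective ψ := by
      intro a b hab
      have h3 := congrArg (Polynomial.evalRingHom (0 : K)) hab
      have h4 : algebraMap R K a = algebraMap R K b := by
        rw [← h1]
        exact h3
      exact IsFractionRing.injective R K h4
    have h3 : ∀ r : R, MvPolynomial.aeval ζ r = ι (algebraMap K[X] (RatFunc K) (ψ r)) := by
      intro r
      have h4 : ((MvPolynomial.aeval ζ : R →ₐ[k] F) : R →+* F) =
          (ι.comp (algebraMap K[X] (RatFunc K))).comp ψ := by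
        apply MvPolynomial.ringHom_ext
        · intro a
          show MvPolynomial.aeval ζ (MvPolynomial.C a) = _
          rw [MvPolynomial.aeval_C, halg]
          simp only [ψ, RingHom.comp_apply, MvPolynomial.coe_eval₂Hom, MvPolynomial.eval₂_C,
            RatFunc.algebraMap_C, cK]
        · intro i
          show MvPolynomial.aeval ζ (MvPolynomial.X i) = _
          rw [MvPolynomial.aeval_X]
          simp only [ψ, RingHom.comp_apply, MvPolynomial.coe_eval₂Hom, MvPolynomial.eval₂_X, ζ]
      exact congrArg (fun f : R →+* F => f r) h4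
    intro a b hab
    rw [h3, h3] at hab
    exact h2 (RatFunc.algebraMap_injective K (ι.injective hab))
  · intro i
    have h1 : ζ i - (algebraMap k F (c i) / η ^ 2) ^ p = cK (T i) := by
      have h2 : ζ i = cK (T i) + cK (kK (c i)) ^ p * ι ω ^ (2 * p) := by
        simp only [ζ, ζ', map_add, map_mul, map_pow, RatFunc.algebraMap_C, RatFunc.algebraMap_X,
          cK, RingHom.comp_apply]
        rfl
      have h3 : η = (ι ω)⁻¹ := map_inv₀ ι ω
      have h4 : ι ω ≠ 0 := (map_ne_zero ι).2 hω
      rw [h2, halg, h3, inv_pow, div_inv_eq_mul, mul_pow, ← pow_mul, add_sub_cancel_right]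
    rw [h1]
    exact hc _

end Pool.Agent.Helper56.SKR
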