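import Mathlib

/-!
# Reduction of lattices over valuation rings
-/

namespace Pool.Agent.Helper56.SKR

open Module

universe u v

section latt

variable {F : Type u} [Field F] {O : ValuationSubring F} {V : Type v} [AddCommGroup V]
  [Module F V] [Module O V] [IsScalarTower O F V]

/-- The stabiliser of a lattice. -/
def stab (Λ : Submodule O V) : Subring (Module.End F V) where
  carrier := {T | ∀ v ∈ Λ, T v ∈ Λ}
  mul_mem' := by
    intro a b ha hb v hv
    exact ha _ (hb _ hv)
  one_mem' := fun v hv => hv
  add_mem' := by
    intro a b ha hb v hv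
    exact Λ.add_mem (ha _ hv) (hb _ hv)
  zero_mem' := fun v _ => Λ.zero_mem
  neg_mem' := by
    intro a ha v hv
    exact Λ.neg_mem (ha _ hv)

theorem smul_eq (c : O) (v : V) : c • v = (c : F) • v := by
  have h : (c : F) = c • (1 : F) := by
    rw [Algebra.smul_def, mul_one]
    rfl
  rw [h, smul_assoc, one_smul]

/-- The action on the lattice. -/
def resL (Λ : Submodule O V) : stab Λ →+* Module.End O Λ where
  toFun T :=
    { toFun := fun v => ⟨(T : Module.End F V) v, T.2 v v.2⟩
      map_add' := fun v w => Subtype.ext (map_add (T : Module.End F V) _ _)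
      map_smul' := fun c v => Subtype.ext (by
        show (T : Module.End F V) (c • (v : V)) = c • (T : Module.End F V) v
        rw [smul_eq, smul_eq, map_smul]) }
  map_one' := rfl
  map_mul' a b := rfl
  map_zero' := rfl
  map_add' a b := rfl

/-- **Reduction of a lattice.** -/
theorem exists_red [FiniteDimensional F V] (Λ : Submodule O V) (hfg : Λ.FG)
    (hsp : ∀ v, v ∈ Submodule.span F (Λ : Set V)) :
    ∃ (V' : Type (max u v)) (_ : AddCommGroup V') (_ : Module (IsLocalRing.ResidueField O) V'),
      Module.Finite (IsLocalRing.ResidueField O) V' ∧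
      finrank (IsLocalRing.ResidueField O) V' = finrank F V ∧
      ∃ Φ : stab Λ →+* Module.End (IsLocalRing.ResidueField O) V', ∀ (c : O) (T T' : stab Λ),
        (T' : Module.End F V) = (c : F) • (T : Module.End F V) →
          Φ T' = IsLocalRing.residue O c • Φ T := by
  classical
  have hfin : Module.Finite O Λ := Module.Finite.iff_fg.2 hfg
  have htf : Module.IsTorsionFree O Λ := by
    have h1 : Module.IsTorsionFree O V := by
      refine ⟨fun c hc v w h => ?_⟩
      have hc0 : (c : F) ≠ 0 := by
        intro h0
        exact hc.ne_zero (Subtype.ext h0)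
      have h' : c • v = c • w := h
      rw [smul_eq, smul_eq] at h'
      exact smul_right_injective V hc0 h'
    exact Function.Injective.moduleIsTorsionFree (Subtype.val : Λ → V) Subtype.val_injective
      (fun _ _ => rfl)
  have hflat : Module.Flat O Λ :=
    Module.Flat.flat_iff_torsion_eq_bot_of_isBezout.2
      (Submodule.isTorsionFree_iff_torsion_eq_bot.1 htf)
  have hfree : Module.Free O Λ := Module.free_of_flat_of_isLocalRing
  let b := Module.finBasis O Λ
  have hli : LinearIndependent F fun i => (b i : V) := by
    rw [← LinearIndependent.iff_fractionRing O F]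
    exact b.linearIndependent.map' Λ.subtype (Submodule.ker_subtype Λ)
  have hspan : ⊤ ≤ Submodule.span F (Set.range fun i => (b i : V)) := by
    intro v _
    refine (Submodule.span_le.2 ?_) (hsp v)
    intro x hx
    have h1 : (⟨x, hx⟩ : Λ) = ∑ i, b.repr ⟨x, hx⟩ i • b i := (b.sum_repr _).symm
    have h2 : x = ∑ i, b.repr ⟨x, hx⟩ i • (b i : V) := by
      have h3 := congrArg Λ.subtype h1
      rw [map_sum] at h3
      simpa only [map_smul, Submodule.subtype_apply] using h3
    rw [h2]
    refine Submodule.sum_mem _ fun i _ => ?_
    rw [smul_eq]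
    exact Submodule.smul_mem _ _ (Submodule.subset_span ⟨i, rfl⟩)
  have hrank : finrank O Λ = finrank F V := by
    have h1 := finrank_eq_card_basis (Basis.mk hli hspan)
    rw [h1, Fintype.card_fin]
  refine ⟨TensorProduct O (IsLocalRing.ResidueField O) Λ, inferInstance, inferInstance,
    inferInstance, ?_, ?_⟩
  · rw [Module.finrank_baseChange, hrank]
  · refine ⟨(Module.End.baseChangeHom O (IsLocalRing.ResidueField O) Λ).toRingHom.comp (resL Λ),
      ?_⟩
    intro c T T' h
    have h1 : resL Λ T' = c • resL Λ T := by
      apply LinearMap.ext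
      intro v
      apply Subtype.ext
      show (T' : Module.End F V) v = c • (T : Module.End F V) v
      rw [h, smul_eq]
      rfl
    show Module.End.baseChangeHom O (IsLocalRing.ResidueField O) Λ (resL Λ T') =
      IsLocalRing.residue O c • Module.End.baseChangeHom O (IsLocalRing.ResidueField O) Λ (resL Λ T)
    rw [h1, map_smul]
    apply LinearMap.ext
    intro v
    rw [LinearMap.smul_apply, LinearMap.smul_apply, ← IsLocalRing.ResidueField.algebraMap_eq,
      algebraMap_smul]

end latt

end Pool.Agent.Helper56.SKR
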