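import Mathlib
import Pool.Agent.Helper56.SKR.Dom
import Pool.Agent.Helper56.SKU.RepV
import Pool.Agent.Helper56.SKU.Gen

/-!
# The universal presentations
-/

namespace Pool.Agent.Helper56.SKR

open Module Pool.Agent.Helper56.SKW Pool.Agent.Helper56.SKW.PBW Pool.Agent.Helper56.SKU

universe u

section defs

variable {k L₀ L₁ : Type*} [Field k] [AddCommGroup L₀] [Module k L₀] [AddCommGroup L₁]
  [Module k L₁] {m n : Type}

/-- Odd letters. -/
def odl (m n : Type) : Unit ⊕ (m ⊕ n) → Bool := Sum.elim (fun _ => true) (parZ m n)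

/-- The universal presentation for the graded modules. -/
noncomputable def PG (g : LieSuper k L₀ L₁) (b₀ : Basis m k L₀) (b₁ : Basis n k L₁) (p : ℕ)
    (P : m → L₀) : Pres (MvPolynomial m k) (Unit ⊕ (m ⊕ n)) where
  E x y := if odl m n x && odl m n y then -1 else 1
  C := fun x y z => match x, y, z with
    | Sum.inr x, Sum.inr y, Sum.inr z =>
      MvPolynomial.C ((b₀.prod b₁).repr (sbr g ((b₀.prod b₁) x) ((b₀.prod b₁) y)) z)
    | _, _, _ => 0
  C0 := fun x y => match x, y with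
    | Sum.inl _, Sum.inl _ => 2
    | _, _ => 0
  Dc := fun x z => match x, z with
    | Sum.inr (Sum.inl i), Sum.inr (Sum.inl z) => MvPolynomial.C (b₀.repr (P i) z)
    | Sum.inr (Sum.inr y), Sum.inr z => MvPolynomial.C ((2 : k)⁻¹ *
      (b₀.prod b₁).repr (sbr g ((b₀.prod b₁) (Sum.inr y)) ((b₀.prod b₁) (Sum.inr y))) z)
    | _, _ => 0
  D0 := fun x => match x with
    | Sum.inl _ => 1
    | Sum.inr (Sum.inl i) => MvPolynomial.X i
    | Sum.inr (Sum.inr _) => 0
  n := Sum.elim (fun _ => 2) (Sum.elim (fun _ => p) (fun _ => 2))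

/-- The universal presentation for the modules over the even part. -/
noncomputable def P0 (g : LieSuper k L₀ L₁) (b₀ : Basis m k L₀) (p : ℕ)
    (P : m → L₀) : Pres (MvPolynomial m k) m where
  E _ _ := 1
  C x y z := MvPolynomial.C (b₀.repr (g.b00 (b₀ x) (b₀ y)) z)
  C0 _ _ := 0
  Dc x z := MvPolynomial.C (b₀.repr (P x) z)
  D0 := MvPolynomial.X
  n _ := p

variable (g : LieSuper k L₀ L₁) (b₀ : Basis m k L₀) (b₁ : Basis n k L₁) (p : ℕ) (P : m → L₀)

theorem PG_hE (x y) : IsUnit ((PG g b₀ b₁ p P).E x y) := by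
  show IsUnit (if odl m n x && odl m n y then (-1 : MvPolynomial m k) else 1)
  split_ifs
  · exact isUnit_one.neg
  · exact isUnit_one

theorem PG_hn (hp : 2 ≤ p) (x) : 2 ≤ (PG g b₀ b₁ p P).n x := by
  rcases x with x | (x | x)
  · exact le_rfl
  · exact hp
  · exact le_rfl

theorem P0_hE (x y) : IsUnit ((P0 g b₀ p P).E x y) := isUnit_one

theorem P0_hn (hp : 2 ≤ p) (x) : 2 ≤ (P0 g b₀ p P).n x := hp

theorem PG_prod [Fintype m] [Fintype n] : ∏ x, (PG g b₀ b₁ p P).n x =
    p ^ Fintype.card m * 2 ^ (Fintype.card n + 1) := by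
  show ∏ x : Unit ⊕ (m ⊕ n), (Sum.elim (fun _ => 2) (Sum.elim (fun _ => p) (fun _ => 2)) :
    Unit ⊕ (m ⊕ n) → ℕ) x = _
  rw [Fintype.prod_sum_type, Fintype.prod_sum_type]
  simp only [Sum.elim_inl, Sum.elim_inr, Finset.prod_const, Finset.card_univ, Fintype.card_unit]
  ring

theorem P0_prod [Fintype m] : ∏ x, (P0 g b₀ p P).n x = p ^ Fintype.card m := by
  show ∏ x : m, p = _
  rw [Finset.prod_const, Finset.card_univ]

end defs

section rel

variable {k L₀ L₁ : Type*} [Field k] [AddCommGroup L₀] [Module k L₀] [AddCommGroup L₁]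
  [Module k L₁] {m n : Type} [Fintype m] [Fintype n] [DecidableEq m] [DecidableEq n]
  {g : LieSuper k L₀ L₁} {b₀ : Basis m k L₀} {b₁ : Basis n k L₁} {p : ℕ} {P : m → L₀}

/-- A representation with parity satisfies the universal relations. -/
theorem isRel_of_repRel (h2 : (2 : k) ≠ 0) {K A : Type*} [Field K] [Algebra k K] [Ring A]
    [Algebra K A] {ζ : m → K} {G : Unit ⊕ (m ⊕ n) → A} (hG : RepRel g b₀ b₁ p P ζ G) :
    IsRel (PG g b₀ b₁ p P) ((MvPolynomial.aeval ζ : MvPolynomial m k →ₐ[k] K) :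
      MvPolynomial m k →+* K) G := by
  have hK2 : (2 : K) ≠ 0 := by
    intro h0
    apply h2
    apply (algebraMap k K).injective
    rw [map_zero, map_ofNat, h0]
  constructor
  · rintro (⟨⟩ | x) (⟨⟩ | y)
    · have e1 : (PG g b₀ b₁ p P).E (Sum.inl ()) (Sum.inl ()) = -1 := by simp [PG, odl]
      have e2 : ∀ z, (PG g b₀ b₁ p P).C (Sum.inl ()) (Sum.inl ()) z = 0 := by
        rintro (z | z) <;> rfl
      have e3 : (PG g b₀ b₁ p P).C0 (Sum.inl ()) (Sum.inl ()) = 2 := rfl
      simp only [e1, e2, e3, map_zero, zero_smul, Finset.sum_const_zero, add_zero, map_neg,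
        map_one, map_ofNat, hG.ss]
      module
    · have e2 : ∀ z, (PG g b₀ b₁ p P).C (Sum.inl ()) (Sum.inr y) z = 0 := by
        rintro (z | z) <;> rfl
      have e3 : (PG g b₀ b₁ p P).C0 (Sum.inl ()) (Sum.inr y) = 0 := rfl
      simp only [e2, e3, map_zero, zero_smul, Finset.sum_const_zero, add_zero]
      rcases y with y | y
      · have e1 : (PG g b₀ b₁ p P).E (Sum.inl ()) (Sum.inr (Sum.inl y)) = 1 := by
          simp [PG, odl, parZ]
        rw [e1, map_one, one_smul]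
        exact hG.se y
      · have e1 : (PG g b₀ b₁ p P).E (Sum.inl ()) (Sum.inr (Sum.inr y)) = -1 := by
          simp [PG, odl, parZ]
        rw [e1, map_neg, map_one, neg_smul, one_smul]
        exact hG.so y
    · have e2 : ∀ z, (PG g b₀ b₁ p P).C (Sum.inr x) (Sum.inl ()) z = 0 := by
        rintro (z | z) <;> rfl
      have e3 : (PG g b₀ b₁ p P).C0 (Sum.inr x) (Sum.inl ()) = 0 := rfl
      simp only [e2, e3, map_zero, zero_smul, Finset.sum_const_zero, add_zero]
      rcases x with x | x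
      · have e1 : (PG g b₀ b₁ p P).E (Sum.inr (Sum.inl x)) (Sum.inl ()) = 1 := by
          simp [PG, odl, parZ]
        rw [e1, map_one, one_smul]
        exact (hG.se x).symm
      · have e1 : (PG g b₀ b₁ p P).E (Sum.inr (Sum.inr x)) (Sum.inl ()) = -1 := by
          simp [PG, odl, parZ]
        rw [e1, map_neg, map_one, neg_smul, one_smul, hG.so x, neg_neg]
    · have e1 : (PG g b₀ b₁ p P).E (Sum.inr x) (Sum.inr y) =
          MvPolynomial.C (eps k (parZ m n) x y) := by
        rcases x with x | x <;> rcases y with y | y <;> simp [PG, odl, parZ, eps]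
      have e2 : (PG g b₀ b₁ p P).C0 (Sum.inr x) (Sum.inr y) = 0 := by
        rcases x with x | x <;> rcases y with y | y <;> rfl
      have e3 : ∀ z, (PG g b₀ b₁ p P).C (Sum.inr x) (Sum.inr y) (Sum.inl z) = 0 := fun z => rfl
      have e4 : ∀ z, (PG g b₀ b₁ p P).C (Sum.inr x) (Sum.inr y) (Sum.inr z) = MvPolynomial.C
          ((b₀.prod b₁).repr (sbr g ((b₀.prod b₁) x) ((b₀.prod b₁) y)) z) := fun z => rfl
      have e5 : algebraMap k K (eps k (parZ m n) x y) = eps K (parZ m n) x y := by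
        unfold eps
        split_ifs <;> simp
      rw [e1, e2, Fintype.sum_sum_type]
      simp only [e3, e4, map_zero, zero_smul, Finset.sum_const_zero, zero_add, add_zero]
      simp only [RingHom.coe_coe, MvPolynomial.aeval_C, e5]
      exact hG.br x y
  · rintro (⟨⟩ | (x | x))
    · have e2 : ∀ z, (PG g b₀ b₁ p P).Dc (Sum.inl ()) z = 0 := by
        rintro (z | z) <;> rfl
      have e3 : (PG g b₀ b₁ p P).D0 (Sum.inl ()) = 1 := rfl
      have e4 : (PG g b₀ b₁ p P).n (Sum.inl ()) = 2 := rfl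
      simp only [e2, e3, e4, map_zero, zero_smul, Finset.sum_const_zero, zero_add, map_one,
        one_smul]
      rw [pow_two, hG.ss]
    · have e4 : (PG g b₀ b₁ p P).n (Sum.inr (Sum.inl x)) = p := rfl
      have e3 : (PG g b₀ b₁ p P).D0 (Sum.inr (Sum.inl x)) = MvPolynomial.X x := rfl
      rw [e3, e4, Fintype.sum_sum_type, Fintype.sum_sum_type]
      have e5 : ∀ z, (PG g b₀ b₁ p P).Dc (Sum.inr (Sum.inl x)) (Sum.inl z) = 0 := fun z => rfl
      have e6 : ∀ z, (PG g b₀ b₁ p P).Dc (Sum.inr (Sum.inl x)) (Sum.inr (Sum.inr z)) = 0 :=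
        fun z => rfl
      have e7 : ∀ z, (PG g b₀ b₁ p P).Dc (Sum.inr (Sum.inl x)) (Sum.inr (Sum.inl z)) =
        MvPolynomial.C (b₀.repr (P x) z) := fun z => rfl
      simp only [e5, e6, e7, map_zero, zero_smul, Finset.sum_const_zero, zero_add, add_zero]
      simp only [RingHom.coe_coe, MvPolynomial.aeval_C, MvPolynomial.aeval_X]
      exact hG.pw x
    · have e4 : (PG g b₀ b₁ p P).n (Sum.inr (Sum.inr x)) = 2 := rfl
      have e3 : (PG g b₀ b₁ p P).D0 (Sum.inr (Sum.inr x)) = 0 := rfl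
      rw [e3, e4, Fintype.sum_sum_type]
      have e5 : ∀ z, (PG g b₀ b₁ p P).Dc (Sum.inr (Sum.inr x)) (Sum.inl z) = 0 := fun z => rfl
      have e7 : ∀ z, (PG g b₀ b₁ p P).Dc (Sum.inr (Sum.inr x)) (Sum.inr z) =
        MvPolynomial.C ((2 : k)⁻¹ * (b₀.prod b₁).repr
          (sbr g ((b₀.prod b₁) (Sum.inr x)) ((b₀.prod b₁) (Sum.inr x))) z) := fun z => rfl
      simp only [e5, e7, map_zero, zero_smul, Finset.sum_const_zero, zero_add, add_zero]
      simp only [RingHom.coe_coe, MvPolynomial.aeval_C, map_mul, map_inv₀, map_ofNat, mul_smul]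
      rw [← Finset.smul_sum, pow_two]
      have h1 := hG.br (Sum.inr x) (Sum.inr x)
      have h3 : eps K (parZ m n) (Sum.inr x) (Sum.inr x) = -1 := by simp [eps, parZ]
      rw [h3] at h1
      rw [eq_inv_smul_iff₀ hK2, two_smul]
      nth_rewrite 1 [h1]
      module

/-- The even letters satisfy the relations of the even part. -/
theorem isRel_even {S A : Type*} [CommRing S] [Ring A] [Algebra S A]
    {φ : MvPolynomial m k →+* S} {f : Unit ⊕ (m ⊕ n) → A} (hf : IsRel (PG g b₀ b₁ p P) φ f) :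
    IsRel (P0 g b₀ p P) φ (fun i => f (Sum.inr (Sum.inl i))) := by
  constructor
  · intro x y
    have h1 := hf.comm (Sum.inr (Sum.inl x)) (Sum.inr (Sum.inl y))
    have e1 : (PG g b₀ b₁ p P).E (Sum.inr (Sum.inl x)) (Sum.inr (Sum.inl y)) = 1 := by
      simp [PG, odl, parZ]
    have e2 : (PG g b₀ b₁ p P).C0 (Sum.inr (Sum.inl x)) (Sum.inr (Sum.inl y)) = 0 := rfl
    have e3 : ∀ z, (PG g b₀ b₁ p P).C (Sum.inr (Sum.inl x)) (Sum.inr (Sum.inl y)) (Sum.inl z) = 0 :=
      fun z => rfl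
    have e4 : ∀ z, (PG g b₀ b₁ p P).C (Sum.inr (Sum.inl x)) (Sum.inr (Sum.inl y)) (Sum.inr z) =
        MvPolynomial.C ((b₀.prod b₁).repr (sbr g ((b₀.prod b₁) (Sum.inl x))
          ((b₀.prod b₁) (Sum.inl y))) z) := fun z => rfl
    have e5 : sbr g ((b₀.prod b₁) (Sum.inl x)) ((b₀.prod b₁) (Sum.inl y)) =
        (g.b00 (b₀ x) (b₀ y), 0) := by
      rw [sbr_apply]
      simp
    rw [e1, e2, Fintype.sum_sum_type, Fintype.sum_sum_type] at h1
    simp only [e3, e4, e5, map_zero, zero_smul, Finset.sum_const_zero, zero_add, add_zero,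
      Basis.prod_repr_inl, Basis.prod_repr_inr, Finsupp.coe_zero, Pi.zero_apply] at h1
    have e6 : (P0 g b₀ p P).E x y = 1 := rfl
    have e7 : (P0 g b₀ p P).C0 x y = 0 := rfl
    have e8 : ∀ z, (P0 g b₀ p P).C x y z = MvPolynomial.C (b₀.repr (g.b00 (b₀ x) (b₀ y)) z) :=
      fun z => rfl
    simp only [e6, e7, e8, map_zero, zero_smul, add_zero]
    exact h1
  · intro x
    have h1 := hf.pow (Sum.inr (Sum.inl x))
    rw [Fintype.sum_sum_type, Fintype.sum_sum_type] at h1
    have e5 : ∀ z, (PG g b₀ b₁ p P).Dc (Sum.inr (Sum.inl x)) (Sum.inl z) = 0 := fun z => rfl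
    have e6 : ∀ z, (PG g b₀ b₁ p P).Dc (Sum.inr (Sum.inl x)) (Sum.inr (Sum.inr z)) = 0 :=
      fun z => rfl
    simp only [e5, e6, map_zero, zero_smul, Finset.sum_const_zero, zero_add, add_zero] at h1
    exact h1

end rel

end Pool.Agent.Helper56.SKR
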