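import Mathlib
import Pool.Agent.Helper56.SKR.Latt
import Pool.Agent.Helper56.SKR.Pres
import Pool.Agent.Helper56.SKW.Div
import Pool.Agent.Helper56.SKW.LA

/-!
# Divisibility by limits
-/

namespace Pool.Agent.Helper56.SKR

open Module Pool.Agent.Helper56.SKW Pool.Agent.Helper56.SKW.PBW Pool.Agent.Helper56.SKU

universe u v

section core

variable {F : Type u} [Field F] {O : ValuationSubring F} {V : Type v} [AddCommGroup V]
  [Module F V] [Module O V] [IsScalarTower O F V]

/-- The limit argument. -/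
theorem lim_core [FiniteDimensional F V] (Λ : Submodule O V) (hfg : Λ.FG)
    (hsp : ∀ v, v ∈ Submodule.span F (Λ : Set V)) (η : O) (hη : IsLocalRing.residue O η = 0)
    (N : ℕ) (a b : ℕ → stab Λ)
    (h1 : ∀ i < N, ∃ X : stab Λ, ((a i * b i + b i * a i : stab Λ) : Module.End F V) =
      1 + (η : F) • (X : Module.End F V))
    (h2 : ∀ i < N, ∃ X : stab Λ, ((a i * a i : stab Λ) : Module.End F V) =
      (η : F) • (X : Module.End F V))
    (h3 : ∀ i < N, ∀ j < N, i ≠ j → ∃ e : ℤ, ∃ X : stab Λ,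
      ((a i * a j : stab Λ) : Module.End F V) =
        ((e • (a j * a i) : stab Λ) : Module.End F V) + (η : F) • (X : Module.End F V))
    (h4 : ∀ i < N, ∀ j < N, i ≠ j → ∃ e : ℤ, ∃ X : stab Λ,
      ((a i * b j : stab Λ) : Module.End F V) =
        ((e • (b j * a i) : stab Λ) : Module.End F V) + (η : F) • (X : Module.End F V)) :
    2 ^ N ∣ finrank F V := by
  classical
  obtain ⟨V', _, _, hfin, hrank, Φ, hΦ⟩ := exists_red Λ hfg hsp
  have hmem : ∀ X : stab Λ, (η : F) • (X : Module.End F V) ∈ stab Λ := by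
    intro X v hv
    show (η : F) • ((X : Module.End F V) v) ∈ Λ
    rw [← smul_eq]
    exact Λ.smul_mem _ (X.2 v hv)
  have hzero : ∀ X : stab Λ, Φ ⟨_, hmem X⟩ = 0 := by
    intro X
    rw [hΦ η X ⟨_, hmem X⟩ rfl, hη, zero_smul]
  have key : ∀ (Y Z X : stab Λ), (Y : Module.End F V) = (Z : Module.End F V) +
      (η : F) • (X : Module.End F V) → Φ Y = Φ Z := by
    intro Y Z X h
    have h5 : Y = Z + ⟨_, hmem X⟩ := Subtype.ext h
    rw [h5, map_add, hzero, add_zero]
  have e1 : ∀ i < N, Φ (a i) * Φ (b i) + Φ (b i) * Φ (a i) = 1 := by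
    intro i hi
    obtain ⟨X, hX⟩ := h1 i hi
    have h5 := key (a i * b i + b i * a i) 1 X hX
    rw [map_add, map_mul, map_mul, map_one] at h5
    exact h5
  have e2 : ∀ i < N, Φ (a i) * Φ (a i) = 0 := by
    intro i hi
    obtain ⟨X, hX⟩ := h2 i hi
    have h5 := key (a i * a i) 0 X (by rw [hX]; simp)
    rw [map_mul, map_zero] at h5
    exact h5
  obtain ⟨W', -, hW'⟩ := chain 2 (∅ : Set (Module.End (IsLocalRing.ResidueField O) V')) N
    (fun i => Φ (a i)) (fun i => Φ (b i)) ⊤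
    (by intro t ht; exact absurd ht (Set.notMem_empty t))
    (fun _ _ _ _ => trivial) (fun _ _ _ _ => trivial)
    (by intro t ht; exact absurd ht (Set.notMem_empty t))
    (by
      intro i hi j hj hij
      obtain ⟨e, X, hX⟩ := h3 i hi j hj hij
      have h5 := key (a i * a j) (e • (a j * a i)) X hX
      refine ⟨(e : IsLocalRing.ResidueField O), ?_⟩
      rw [map_mul, map_zsmul, map_mul] at h5
      rw [h5, Int.cast_smul_eq_zsmul])
    (by
      intro i hi j hj hij
      obtain ⟨e, X, hX⟩ := h4 i hi j hj hij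
      have h5 := key (a i * b j) (e • (b j * a i)) X hX
      refine ⟨(e : IsLocalRing.ResidueField O), ?_⟩
      rw [map_mul, map_zsmul, map_mul] at h5
      rw [h5, Int.cast_smul_eq_zsmul])
    (fun i hi W' ha hb => fermion_step _ _ (e1 i hi) (e2 i hi) W' ha hb)
  rw [finrank_top, hrank] at hW'
  exact ⟨_, hW'⟩

end core

section letters

variable {k L₀ L₁ : Type*} [Field k] [AddCommGroup L₀] [Module k L₀] [AddCommGroup L₁]
  [Module k L₁] {m n : Type} [Fintype m] [Fintype n] [DecidableEq m] [DecidableEq n]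
  {g : LieSuper k L₀ L₁} {b₀ : Basis m k L₀} {b₁ : Basis n k L₁} {p : ℕ} {P : m → L₀}

/-- The universal relations for representations over a field. -/
theorem repRel_of_isRel {K A : Type*} [Field K] [Algebra k K] [Ring A]
    [Algebra K A] {ζ : m → K} {G : Unit ⊕ (m ⊕ n) → A}
    (hG : IsRel (PG g b₀ b₁ p P) ((MvPolynomial.aeval ζ : MvPolynomial m k →ₐ[k] K) :
      MvPolynomial m k →+* K) G) : RepRel g b₀ b₁ p P ζ G := by
  constructor
  · have h1 := hG.pow (Sum.inl ())
    have e2 : ∀ z, (PG g b₀ b₁ p P).Dc (Sum.inl ()) z = 0 := by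
      rintro (z | z) <;> rfl
    have e3 : (PG g b₀ b₁ p P).D0 (Sum.inl ()) = 1 := rfl
    have e4 : (PG g b₀ b₁ p P).n (Sum.inl ()) = 2 := rfl
    simp only [e2, e3, e4, map_zero, zero_smul, Finset.sum_const_zero, zero_add, map_one,
      one_smul] at h1
    rw [← pow_two, h1]
  · intro y
    have h1 := hG.comm (Sum.inl ()) (Sum.inr (Sum.inl y))
    have e2 : ∀ z, (PG g b₀ b₁ p P).C (Sum.inl ()) (Sum.inr (Sum.inl y)) z = 0 := by
      rintro (z | z) <;> rfl
    have e3 : (PG g b₀ b₁ p P).C0 (Sum.inl ()) (Sum.inr (Sum.inl y)) = 0 := rfl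
    have e1 : (PG g b₀ b₁ p P).E (Sum.inl ()) (Sum.inr (Sum.inl y)) = 1 := by
      simp [PG, odl, parZ]
    simp only [e1, e2, e3, map_zero, zero_smul, Finset.sum_const_zero, add_zero, map_one,
      one_smul] at h1
    exact h1
  · intro y
    have h1 := hG.comm (Sum.inl ()) (Sum.inr (Sum.inr y))
    have e2 : ∀ z, (PG g b₀ b₁ p P).C (Sum.inl ()) (Sum.inr (Sum.inr y)) z = 0 := by
      rintro (z | z) <;> rfl
    have e3 : (PG g b₀ b₁ p P).C0 (Sum.inl ()) (Sum.inr (Sum.inr y)) = 0 := rfl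
    have e1 : (PG g b₀ b₁ p P).E (Sum.inl ()) (Sum.inr (Sum.inr y)) = -1 := by
      simp [PG, odl, parZ]
    simp only [e1, e2, e3, map_zero, zero_smul, Finset.sum_const_zero, add_zero, map_one,
      one_smul, map_neg, neg_smul] at h1
    exact h1
  · intro x y
    have h1 := hG.comm (Sum.inr x) (Sum.inr y)
    have e1 : (PG g b₀ b₁ p P).E (Sum.inr x) (Sum.inr y) =
        MvPolynomial.C (eps k (parZ m n) x y) := by
      rcases x with x | x <;> rcases y with y | y <;> simp [PG, odl, parZ, eps]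
    have e2 : (PG g b₀ b₁ p P).C0 (Sum.inr x) (Sum.inr y) = 0 := by
      rcases x with x | x <;> rcases y with y | y <;> rfl
    have e3 : ∀ z, (PG g b₀ b₁ p P).C (Sum.inr x) (Sum.inr y) (Sum.inl z) = 0 := fun z => rfl
    have e4 : ∀ z, (PG g b₀ b₁ p P).C (Sum.inr x) (Sum.inr y) (Sum.inr z) = MvPolynomial.C
        ((b₀.prod b₁).repr (sbr g ((b₀.prod b₁) x) ((b₀.prod b₁) y)) z) := fun z => rfl
    have e5 : algebraMap k K (eps k (parZ m n) x y) = eps K (parZ m n) x y := by
      unfold eps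
      split_ifs <;> simp
    rw [e1, e2, Fintype.sum_sum_type] at h1
    simp only [e3, e4, map_zero, zero_smul, Finset.sum_const_zero, zero_add, add_zero] at h1
    simp only [RingHom.coe_coe, MvPolynomial.aeval_C, e5] at h1
    exact h1
  · intro x
    have h1 := hG.pow (Sum.inr (Sum.inl x))
    have e4 : (PG g b₀ b₁ p P).n (Sum.inr (Sum.inl x)) = p := rfl
    have e3 : (PG g b₀ b₁ p P).D0 (Sum.inr (Sum.inl x)) = MvPolynomial.X x := rfl
    rw [e3, e4, Fintype.sum_sum_type, Fintype.sum_sum_type] at h1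
    have e5 : ∀ z, (PG g b₀ b₁ p P).Dc (Sum.inr (Sum.inl x)) (Sum.inl z) = 0 := fun z => rfl
    have e6 : ∀ z, (PG g b₀ b₁ p P).Dc (Sum.inr (Sum.inl x)) (Sum.inr (Sum.inr z)) = 0 :=
      fun z => rfl
    have e7 : ∀ z, (PG g b₀ b₁ p P).Dc (Sum.inr (Sum.inl x)) (Sum.inr (Sum.inl z)) =
      MvPolynomial.C (b₀.repr (P x) z) := fun z => rfl
    simp only [e5, e6, e7, map_zero, zero_smul, Finset.sum_const_zero, zero_add, add_zero] at h1
    simp only [RingHom.coe_coe, MvPolynomial.aeval_C, MvPolynomial.aeval_X] at h1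
    exact h1

end letters

end Pool.Agent.Helper56.SKR
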