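import Mathlib
import Pool.Agent.Helper56.SKR.Lim
import Pool.Agent.Helper56.SKU.Def

/-!
# The rescaled letters
-/

namespace Pool.Agent.Helper56.SKR

open Module Pool.Agent.Helper56.SKW Pool.Agent.Helper56.SKW.PBW Pool.Agent.Helper56.SKU

universe u v

section shift

variable {k L₀ L₁ : Type*} [Field k] [AddCommGroup L₀] [Module k L₀] [AddCommGroup L₁]
  [Module k L₁] {m n : Type} [Fintype m] [Fintype n] [DecidableEq m] [DecidableEq n]
  {g : LieSuper k L₀ L₁} {b₀ : Basis m k L₀} {b₁ : Basis n k L₁} {p : ℕ} {P : m → L₀}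
  {K A : Type*} [Field K] [Algebra k K] [Ring A] [Algebra K A] {ζ : m → K}
  {G : Unit ⊕ (m ⊕ n) → A}

/-- The shifts. -/
noncomputable def ll (b₀ : Basis m k L₀) (b₁ : Basis n k L₁) (θ : L₀ →ₗ[k] k) (η : K)
    (z : m ⊕ n) : K := algebraMap k K (θ ((b₀.prod b₁) z).1) / η ^ 2

/-- The rescaled and shifted letters. -/
noncomputable def ft (b₀ : Basis m k L₀) (b₁ : Basis n k L₁) (θ : L₀ →ₗ[k] k) (η : K)
    (G : Unit ⊕ (m ⊕ n) → A) : Unit ⊕ (m ⊕ n) → A
  | Sum.inl _ => G (Sum.inl ())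
  | Sum.inr z => η • (G (Sum.inr z) - ll b₀ b₁ θ η z • (1 : A))

theorem ft_comm (hG : RepRel g b₀ b₁ p P ζ G) (θ : L₀ →ₗ[k] k) {η : K} (hη : η ≠ 0)
    (x y : m ⊕ n) : ft b₀ b₁ θ η G (Sum.inr x) * ft b₀ b₁ θ η G (Sum.inr y) =
      eps K (parZ m n) x y • (ft b₀ b₁ θ η G (Sum.inr y) * ft b₀ b₁ θ η G (Sum.inr x)) +
      ∑ z, (algebraMap k K ((b₀.prod b₁).repr (sbr g ((b₀.prod b₁) x) ((b₀.prod b₁) y)) z) * η) •
        ft b₀ b₁ θ η G (Sum.inr z) +
      algebraMap k K (θ (sbr g ((b₀.prod b₁) x) ((b₀.prod b₁) y)).1) • (1 : A) := by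
  classical
  let e := b₀.prod b₁
  let c : m ⊕ n → k := fun z => e.repr (sbr g (e x) (e y)) z
  have hL : ∑ z, algebraMap k K (c z) * ll b₀ b₁ θ η z =
      algebraMap k K (θ (sbr g (e x) (e y)).1) / η ^ 2 := by
    have h1 : sbr g (e x) (e y) = ∑ z, c z • e z := (e.sum_repr _).symm
    conv_rhs => rw [h1]
    rw [Prod.fst_sum, map_sum, map_sum, Finset.sum_div]
    refine Finset.sum_congr rfl fun z _ => ?_
    unfold ll
    rw [Prod.smul_fst, map_smul, smul_eq_mul, map_mul, mul_div_assoc]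
  have hε : eps K (parZ m n) x y = 1 ∨ ll b₀ b₁ θ η x = 0 ∧ ll b₀ b₁ θ η y = 0 := by
    rcases x with x | x
    · left; simp [eps, parZ]
    · rcases y with y | y
      · left; simp [eps, parZ]
      · right; simp [ll]
  have hm := comm_main (G (Sum.inr x)) (G (Sum.inr y)) (fun z => G (Sum.inr z)) _
    (ll b₀ b₁ θ η x) (ll b₀ b₁ θ η y) _ (fun z => ll b₀ b₁ θ η z)
    (fun z => algebraMap k K (c z)) (hG.br x y) hε hL
  have h3 : η * η * (algebraMap k K (θ (sbr g (e x) (e y)).1) / η ^ 2) =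
      algebraMap k K (θ (sbr g (e x) (e y)).1) := by
    field_simp
  simp only [ft]
  rw [smul_mul_smul_comm, hm, smul_add, smul_add, smul_smul, smul_smul, h3, Finset.smul_sum,
    smul_mul_smul_comm, smul_smul, mul_comm (η * η)]
  congr 2
  refine Finset.sum_congr rfl fun z _ => ?_
  rw [smul_smul, smul_smul]
  congr 1
  ring

theorem ft_pow (hG : RepRel g b₀ b₁ p P ζ G) [hp : Fact p.Prime] [CharP K p] (θ : L₀ →ₗ[k] k)
    {η : K} (hη : η ≠ 0) (i : m) : ft b₀ b₁ θ η G (Sum.inr (Sum.inl i)) ^ p =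
      ∑ z, (algebraMap k K (b₀.repr (P i) z) * η ^ (p - 1)) •
        ft b₀ b₁ θ η G (Sum.inr (Sum.inl z)) +
      (algebraMap k K (θ (P i)) * η ^ (p - 2) +
        η ^ p * (ζ i - (algebraMap k K (θ (b₀ i)) / η ^ 2) ^ p)) • (1 : A) := by
  have h1 : ∀ z, G (Sum.inr (Sum.inl z)) = η⁻¹ • ft b₀ b₁ θ η G (Sum.inr (Sum.inl z)) +
      (algebraMap k K (θ (b₀ z)) / η ^ 2) • (1 : A) := by
    intro z
    simp only [ft, ll, Basis.prod_apply_inl_fst]
    rw [inv_smul_smul₀ hη]
    abel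
  have h0 : ft b₀ b₁ θ η G (Sum.inr (Sum.inl i)) =
      η • (G (Sum.inr (Sum.inl i)) - (algebraMap k K (θ (b₀ i)) / η ^ 2) • (1 : A)) := by
    simp only [ft, ll, Basis.prod_apply_inl_fst]
  have h5 : ∑ z, algebraMap k K (b₀.repr (P i) z) * (algebraMap k K (θ (b₀ z)) / η ^ 2) =
      algebraMap k K (θ (P i)) / η ^ 2 := by
    conv_rhs => rw [← b₀.sum_repr (P i)]
    rw [map_sum, map_sum, Finset.sum_div]
    refine Finset.sum_congr rfl fun z _ => ?_
    rw [map_smul, smul_eq_mul, map_mul, mul_div_assoc]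
  have h2 : ∑ z, algebraMap k K (b₀.repr (P i) z) • G (Sum.inr (Sum.inl z)) =
      ∑ z, (algebraMap k K (b₀.repr (P i) z) * η⁻¹) • ft b₀ b₁ θ η G (Sum.inr (Sum.inl z)) +
        (algebraMap k K (θ (P i)) / η ^ 2) • (1 : A) := by
    rw [← h5, Finset.sum_smul, ← Finset.sum_add_distrib]
    refine Finset.sum_congr rfl fun z _ => ?_
    rw [h1 z, smul_add, smul_smul, smul_smul]
  have h6 : η ^ p * (algebraMap k K (θ (P i)) / η ^ 2) = algebraMap k K (θ (P i)) * η ^ (p - 2) := by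
    have h8 : η ^ p = η ^ (p - 2) * η ^ 2 := by
      rw [← pow_add, Nat.sub_add_cancel hp.out.two_le]
    rw [h8]
    field_simp
  have h7 : ∀ c : K, η ^ p * (c * η⁻¹) = c * η ^ (p - 1) := by
    intro c
    have h8 : η ^ p = η ^ (p - 1) * η := by
      rw [← pow_succ, Nat.sub_add_cancel hp.out.one_le]
    rw [h8]
    field_simp
  rw [h0, _root_.smul_pow, sub_pow_one, hG.pw, h2, smul_sub, smul_add, smul_add, smul_smul,
    smul_smul, h6, Finset.smul_sum]
  simp only [smul_smul, h7]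
  module

/-- The rescaled action in terms of linear maps. -/
theorem exists_shift [Algebra k A] [IsScalarTower k K A] (hG : RepRel g b₀ b₁ p P ζ G)
    (θ : L₀ →ₗ[k] k) {η : K} (hη : η ≠ 0) :
    ∃ (X : L₀ →ₗ[k] A) (Y : L₁ →ₗ[k] A),
      (∀ i, X (b₀ i) = ft b₀ b₁ θ η G (Sum.inr (Sum.inl i))) ∧
      (∀ j, Y (b₁ j) = ft b₀ b₁ θ η G (Sum.inr (Sum.inr j))) ∧
      (∀ y y', Y y * Y y' + Y y' * Y y = η • X (g.b11 y y') +
        algebraMap k K (θ (g.b11 y y')) • (1 : A)) ∧
      (∀ y, ft b₀ b₁ θ η G (Sum.inl ()) * Y y = -(Y y * ft b₀ b₁ θ η G (Sum.inl ()))) := by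
  classical
  let X : L₀ →ₗ[k] A := b₀.constr k fun i => ft b₀ b₁ θ η G (Sum.inr (Sum.inl i))
  let Y : L₁ →ₗ[k] A := b₁.constr k fun i => ft b₀ b₁ θ η G (Sum.inr (Sum.inr i))
  have h0 : ∀ i, X (b₀ i) = ft b₀ b₁ θ η G (Sum.inr (Sum.inl i)) := fun i => b₀.constr_basis _ _ i
  have h1 : ∀ i, Y (b₁ i) = ft b₀ b₁ θ η G (Sum.inr (Sum.inr i)) := fun i => b₁.constr_basis _ _ i
  have hsum0 : ∀ a : L₀, ∑ z, (algebraMap k K ((b₀.prod b₁).repr (a, 0) z) * η) •
      ft b₀ b₁ θ η G (Sum.inr z) = η • X a := by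
    intro a
    rw [Fintype.sum_sum_type]
    simp only [Basis.prod_repr_inl, Basis.prod_repr_inr, map_zero, Finsupp.coe_zero,
      Pi.zero_apply, zero_mul, zero_smul, Finset.sum_const_zero, add_zero]
    conv_rhs => rw [← b₀.sum_repr a]
    rw [map_sum, Finset.smul_sum]
    refine Finset.sum_congr rfl fun z _ => ?_
    rw [map_smul, h0, ← algebraMap_smul K (b₀.repr a z), smul_smul, mul_comm]
  refine ⟨X, Y, h0, h1, ?_, ?_⟩
  · have h3 : (LinearMap.mul k A).compl₁₂ Y Y + ((LinearMap.mul k A).compl₁₂ Y Y).flip =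
        g.b11.compr₂ ((Module.toModuleEnd k (S := K) A η).comp X) +
        g.b11.compr₂ ((Algebra.linearMap k A).comp θ) := by
      refine b₁.ext fun i => b₁.ext fun j => ?_
      show Y (b₁ i) * Y (b₁ j) + Y (b₁ j) * Y (b₁ i) = η • X (g.b11 (b₁ i) (b₁ j)) +
        algebraMap k A (θ (g.b11 (b₁ i) (b₁ j)))
      have h4 := ft_comm hG θ hη (Sum.inr i) (Sum.inr j)
      have h5 : sbr g ((b₀.prod b₁) (Sum.inr i)) ((b₀.prod b₁) (Sum.inr j)) =
          (g.b11 (b₁ i) (b₁ j), 0) := by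
        rw [sbr_apply]
        simp
      have h6 : eps K (parZ m n) (Sum.inr i) (Sum.inr j) = -1 := by simp [eps, parZ]
      rw [h5, hsum0, h6] at h4
      have h7 : algebraMap k K (θ (g.b11 (b₁ i) (b₁ j))) • (1 : A) =
          algebraMap k A (θ (g.b11 (b₁ i) (b₁ j))) := by
        rw [algebraMap_smul, ← Algebra.algebraMap_eq_smul_one]
      rw [h1, h1, h4, neg_smul, one_smul, h7]
      abel
    intro y y'
    have h4 := LinearMap.congr_fun (LinearMap.congr_fun h3 y) y'
    have h5 : Y y * Y y' + Y y' * Y y = η • X (g.b11 y y') +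
        algebraMap k A (θ (g.b11 y y')) := h4
    rw [h5, algebraMap_smul, ← Algebra.algebraMap_eq_smul_one]
  · have h3 : LinearMap.mulLeft k (G (Sum.inl ())) ∘ₗ Y =
        -(LinearMap.mulRight k (G (Sum.inl ())) ∘ₗ Y) := by
      refine b₁.ext fun i => ?_
      show G (Sum.inl ()) * Y (b₁ i) = -(Y (b₁ i) * G (Sum.inl ()))
      rw [h1]
      simp only [ft, ll, Basis.prod_apply_inr_fst, map_zero, zero_div, zero_smul, sub_zero,
        mul_smul_comm, smul_mul_assoc]
      rw [hG.so i, smul_neg]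
    exact fun x => LinearMap.congr_fun h3 x

end shift

section lattice

variable {k L₀ L₁ : Type*} [Field k] [AddCommGroup L₀] [Module k L₀] [AddCommGroup L₁]
  [Module k L₁] {m n : Type} [Fintype m] [Fintype n] [DecidableEq m] [DecidableEq n]
  {g : LieSuper k L₀ L₁} {b₀ : Basis m k L₀} {b₁ : Basis n k L₁} {p : ℕ} {P : m → L₀}
  {F : Type u} {A : Type v} [Field F] [Algebra k F] [Ring A] [Algebra F A] {ζ : m → F}
  {G : Unit ⊕ (m ⊕ n) → A} {O : ValuationSubring F} [Algebra O A] [IsScalarTower O F A]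

omit [Fintype m] [Fintype n] [DecidableEq m] [DecidableEq n] in
theorem osmul_mem (N : Submodule O A) {a : F} (ha : a ∈ O) {x : A} (hx : x ∈ N) : a • x ∈ N := by
  have h1 := N.smul_mem (⟨a, ha⟩ : O) hx
  rwa [smul_eq] at h1

/-- The lattice spanned by the words. -/
def latt (O : ValuationSubring F) [Algebra O A] (f : Unit ⊕ (m ⊕ n) → A) : Submodule O A :=
  Submodule.span O (Set.range (pwf f))

/-- The lattice is finitely generated. -/
theorem latt_fg (hG : RepRel g b₀ b₁ p P ζ G) [hp : Fact p.Prime] [CharP F p]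
    (h2 : (2 : k) ≠ 0) (θ : L₀ →ₗ[k] k)
    (hk : ∀ a : k, algebraMap k F a ∈ O) (η : O) (hη : (η : F) ≠ 0)
    (hζ : ∀ i, ζ i - (algebraMap k F (θ (b₀ i)) / (η : F) ^ 2) ^ p ∈ O) :
    (latt O (ft b₀ b₁ θ (η : F) G)).FG := by
  classical
  let X := Unit ⊕ (m ⊕ n)
  let _ : LinearOrder X := LinearOrder.lift' (Fintype.equivFin X) (Fintype.equivFin X).injective
  set f := ft b₀ b₁ θ (η : F) G with hf
  let N : X → ℕ := Sum.elim (fun _ => 2) (Sum.elim (fun _ => p) (fun _ => 2))
  have h1m : ∀ d, 1 ≤ d → (1 : A) ∈ FF O f d := fun d hd =>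
    FF_mem O f (l := []) (by simp; omega)
  have hxm : ∀ x d, 2 ≤ d → f x ∈ FF O f d := fun x d hd => by
    have := FF_mem O f (l := [x]) (d := d) (by simp; omega)
    simpa [pwf] using this
  have hηp : ∀ q : ℕ, (η : F) ^ q ∈ O := fun q => pow_mem η.2 q
  -- commutators
  have hc0 : ∀ x y : m ⊕ n, f (Sum.inr x) * f (Sum.inr y) -
      eps F (parZ m n) x y • (f (Sum.inr y) * f (Sum.inr x)) ∈ FF O f 2 := by
    intro x y
    have h3 := ft_comm hG θ hη x y
    rw [h3, add_assoc, add_sub_cancel_left]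
    refine Submodule.add_mem _ (Submodule.sum_mem _ fun z _ => ?_) ?_
    · exact osmul_mem _ (mul_mem (hk _) η.2) (hxm _ _ le_rfl)
    · exact osmul_mem _ (hk _) (h1m _ one_le_two)
  have hc : ∀ x y, ∃ s : O, IsUnit s ∧ f x * f y - s • (f y * f x) ∈ FF O f 2 := by
    rintro (⟨⟩ | x) (⟨⟩ | y)
    · exact ⟨1, isUnit_one, by rw [one_smul, sub_self]; exact Submodule.zero_mem _⟩
    · rcases y with y | y
      · refine ⟨1, isUnit_one, ?_⟩
        rw [one_smul]
        have h3 : f (Sum.inl ()) * f (Sum.inr (Sum.inl y)) -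
            f (Sum.inr (Sum.inl y)) * f (Sum.inl ()) = 0 := by
          rw [hf]
          simp only [ft, mul_smul_comm, smul_mul_assoc, mul_sub, sub_mul, hG.se y, mul_one,
            one_mul, sub_self]
        rw [h3]
        exact Submodule.zero_mem _
      · refine ⟨-1, isUnit_one.neg, ?_⟩
        rw [neg_smul, one_smul]
        have h3 : f (Sum.inl ()) * f (Sum.inr (Sum.inr y)) -
            -(f (Sum.inr (Sum.inr y)) * f (Sum.inl ())) = 0 := by
          rw [hf]
          simp only [ft, ll, Basis.prod_apply_inr_fst, map_zero, zero_div, zero_smul, sub_zero,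
            mul_smul_comm, smul_mul_assoc, hG.so y, smul_neg, sub_self]
        rw [h3]
        exact Submodule.zero_mem _
    · rcases x with x | x
      · refine ⟨1, isUnit_one, ?_⟩
        rw [one_smul]
        have h3 : f (Sum.inr (Sum.inl x)) * f (Sum.inl ()) -
            f (Sum.inl ()) * f (Sum.inr (Sum.inl x)) = 0 := by
          rw [hf]
          simp only [ft, mul_smul_comm, smul_mul_assoc, mul_sub, sub_mul, hG.se x, mul_one,
            one_mul, sub_self]
        rw [h3]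
        exact Submodule.zero_mem _
      · refine ⟨-1, isUnit_one.neg, ?_⟩
        rw [neg_smul, one_smul]
        have h3 : f (Sum.inr (Sum.inr x)) * f (Sum.inl ()) -
            -(f (Sum.inl ()) * f (Sum.inr (Sum.inr x))) = 0 := by
          rw [hf]
          simp only [ft, ll, Basis.prod_apply_inr_fst, map_zero, zero_div, zero_smul, sub_zero,
            mul_smul_comm, smul_mul_assoc, hG.so x, smul_neg, neg_neg, sub_self]
        rw [h3]
        exact Submodule.zero_mem _
    · have h3 := hc0 x y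
      by_cases he : parZ m n x && parZ m n y
      · refine ⟨-1, isUnit_one.neg, ?_⟩
        have h4 : eps F (parZ m n) x y = -1 := by simp [eps, he]
        rw [h4] at h3
        simpa only [neg_smul, one_smul] using h3
      · refine ⟨1, isUnit_one, ?_⟩
        have h4 : eps F (parZ m n) x y = 1 := by
          unfold eps
          rw [if_neg he]
        rw [h4] at h3
        simpa only [neg_smul, one_smul] using h3
  -- powers
  have hn : ∀ x, f x ^ N x ∈ FF O f (N x) := by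
    rintro (⟨⟩ | (x | x))
    · show f (Sum.inl ()) ^ 2 ∈ FF O f 2
      have h3 : f (Sum.inl ()) ^ 2 = 1 := by
        rw [hf, pow_two]
        exact hG.ss
      rw [h3]
      exact h1m _ one_le_two
    · show f (Sum.inr (Sum.inl x)) ^ p ∈ FF O f p
      rw [hf, ft_pow hG θ hη x, ← hf]
      refine Submodule.add_mem _ (Submodule.sum_mem _ fun z _ => ?_) ?_
      · exact osmul_mem _ (mul_mem (hk _) (hηp _)) (hxm _ _ hp.out.two_le)
      · exact osmul_mem _ (add_mem (mul_mem (hk _) (hηp _)) (mul_mem (hηp _) (hζ x)))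
          (h1m _ hp.out.one_le)
    · show f (Sum.inr (Sum.inr x)) ^ 2 ∈ FF O f 2
      have h3 := hc0 (Sum.inr x) (Sum.inr x)
      have h4 : eps F (parZ m n) (Sum.inr x) (Sum.inr x) = -1 := by simp [eps, parZ]
      rw [h4, neg_smul, one_smul, sub_neg_eq_add, ← two_smul F] at h3
      have h5 := osmul_mem _ (hk (2 : k)⁻¹) h3
      have h2F : (2 : F) ≠ 0 := by
        intro h0
        apply h2
        apply (algebraMap k F).injective
        rw [map_zero, map_ofNat, h0]
      rw [map_inv₀, map_ofNat, smul_smul, inv_mul_cancel₀ h2F, one_smul, ← pow_two] at h5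
      exact h5
  refine ⟨(Finset.univ.image fun r : (x : X) → Fin (N x) => pwf f (sw fun x => (r x : ℕ))), ?_⟩
  apply le_antisymm
  · rw [Submodule.span_le]
    intro x hx
    simp only [Finset.coe_image, Finset.coe_univ, Set.image_univ, Set.mem_range] at hx
    obtain ⟨r, rfl⟩ := hx
    exact Submodule.subset_span ⟨_, rfl⟩
  · show Submodule.span O (Set.range (pwf f)) ≤ _
    rw [Submodule.span_le]
    rintro _ ⟨l, rfl⟩
    have h3 := pwf_span hc N hn l
    simp only [Finset.coe_image, Finset.coe_univ, Set.image_univ]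
    exact h3

end lattice

end Pool.Agent.Helper56.SKR
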