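import Mathlib
import Pool.Agent.Helper56.SKR.Lim2
import Pool.Agent.Helper56.SKU.Fin

/-!
# Divisibility of the dimensions of generic representations by powers of two
-/

namespace Pool.Agent.Helper56.SKR

open Module Pool.Agent.Helper56.SKW Pool.Agent.Helper56.SKW.PBW Pool.Agent.Helper56.SKU

universe u v

section form

variable {k L₀ L₁ : Type*} [Field k] [AddCommGroup L₀] [Module k L₀] [AddCommGroup L₁]
  [Module k L₁]

/-- The form on the odd part together with the parity. -/
def bform (g : LieSuper k L₀ L₁) (θ : L₀ →ₗ[k] k) : (L₁ × k) →ₗ[k] (L₁ × k) →ₗ[k] k :=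
  LinearMap.mk₂ k (fun v w => θ (g.b11 v.1 w.1) + 2 * v.2 * w.2)
    (by intro a a' b; simp; ring) (by intro c a b; simp; ring) (by intro a b b'; simp; ring)
    (by intro c a b; simp; ring)

theorem bform_apply (g : LieSuper k L₀ L₁) (θ : L₀ →ₗ[k] k) (v w : L₁ × k) :
    bform g θ v w = θ (g.b11 v.1 w.1) + 2 * v.2 * w.2 := rfl

theorem bform_rk (h2 : (2 : k) ≠ 0) [FiniteDimensional k L₁] (g : LieSuper k L₀ L₁)
    (θ : L₀ →ₗ[k] k) : rk (bform g θ) ⊤ = bOdd g θ + 1 := by
  have h1 : radOn (bform g θ) ⊤ = (LinearMap.ker (form₁ g θ)).map (LinearMap.inl k L₁ k) := by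
    ext ⟨y, a⟩
    constructor
    · rintro ⟨-, h⟩
      have ha := h (0, 1) trivial
      rw [bform_apply] at ha
      simp only [map_zero, zero_add, mul_one, mul_eq_zero, h2, false_or] at ha
      have ha' : a = 0 := ha
      subst ha'
      refine ⟨y, ?_, rfl⟩
      rw [SetLike.mem_coe, LinearMap.mem_ker]
      ext w
      have hw := h (w, 0) trivial
      rw [bform_apply] at hw
      show θ (g.b11 y w) = 0
      simpa using hw
    · rintro ⟨w, hw, hwy⟩
      rw [LinearMap.inl_apply, Prod.mk.injEq] at hwy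
      obtain ⟨rfl, rfl⟩ := hwy
      refine ⟨trivial, fun v _ => ?_⟩
      rw [bform_apply]
      have h3 : form₁ g θ w v.1 = 0 := by
        rw [SetLike.mem_coe, LinearMap.mem_ker] at hw
        rw [hw]; rfl
      have h4 : θ (g.b11 w v.1) = 0 := h3
      simp [h4]
  have h3 : finrank k (radOn (bform g θ) ⊤) = finrank k (LinearMap.ker (form₁ g θ)) := by
    rw [h1]
    exact (Submodule.equivMapOfInjective (LinearMap.inl k L₁ k) LinearMap.inl_injective
      (LinearMap.ker (form₁ g θ))).finrank_eq.symm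
  have h4 : finrank k (LinearMap.ker (form₁ g θ)) ≤ finrank k L₁ := Submodule.finrank_le _
  unfold rk bOdd
  rw [h3, finrank_top, finrank_prod, finrank_self]
  omega

end form

section pairs

variable {k L₀ L₁ : Type*} [Field k] [AddCommGroup L₀] [Module k L₀] [AddCommGroup L₁]
  [Module k L₁] {m n : Type} [Fintype m] [Fintype n] [DecidableEq m] [DecidableEq n]
  {g : LieSuper k L₀ L₁} {b₀ : Basis m k L₀} {b₁ : Basis n k L₁} {p : ℕ} {P : m → L₀}
  {F : Type u} {A : Type v} [Field F] [Algebra k F] [Ring A] [Algebra F A] {ζ : m → F}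
  {G : Unit ⊕ (m ⊕ n) → A} {O : ValuationSubring F} [Algebra O A] [IsScalarTower O F A]

omit [DecidableEq m] [DecidableEq n] in
theorem latt_mul {f : Unit ⊕ (m ⊕ n) → A} {a b : A} (ha : a ∈ latt O f) (hb : b ∈ latt O f) :
    a * b ∈ latt O f := words_mul f ha hb

omit [Fintype m] [Fintype n] [DecidableEq m] [DecidableEq n] in
theorem latt_letter {f : Unit ⊕ (m ⊕ n) → A} (x) : f x ∈ latt O f :=
  Submodule.subset_span ⟨[x], by simp [pwf]⟩

omit [Fintype m] [Fintype n] [DecidableEq m] [DecidableEq n] in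
theorem latt_one {f : Unit ⊕ (m ⊕ n) → A} : (1 : A) ∈ latt O f :=
  Submodule.subset_span ⟨[], rfl⟩

/-- Approximate hyperbolic pairs. -/
theorem exists_pairsQ [IsAlgClosed k] [FiniteDimensional k L₁] (hG : RepRel g b₀ b₁ p P ζ G)
    (h2 : (2 : k) ≠ 0) (θ : L₀ →ₗ[k] k) (hk : ∀ a : k, algebraMap k F a ∈ O) (η : O)
    (hη : (η : F) ≠ 0) : ∃ a b : ℕ → A, (∀ i, a i ∈ latt O (ft b₀ b₁ θ (η : F) G)) ∧
      (∀ i, b i ∈ latt O (ft b₀ b₁ θ (η : F) G)) ∧
      (∀ i < (bOdd g θ + 1) / 2, ∃ X ∈ latt O (ft b₀ b₁ θ (η : F) G),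
        a i * b i + b i * a i = 1 + (η : F) • X) ∧
      (∀ i < (bOdd g θ + 1) / 2, ∃ X ∈ latt O (ft b₀ b₁ θ (η : F) G),
        a i * a i = (η : F) • X) ∧
      (∀ i < (bOdd g θ + 1) / 2, ∀ j < (bOdd g θ + 1) / 2, i ≠ j →
        ∃ X ∈ latt O (ft b₀ b₁ θ (η : F) G), a i * a j + a j * a i = (η : F) • X) ∧
      (∀ i < (bOdd g θ + 1) / 2, ∀ j < (bOdd g θ + 1) / 2, i ≠ j →
        ∃ X ∈ latt O (ft b₀ b₁ θ (η : F) G), a i * b j + b j * a i = (η : F) • X) := by
  classical
  let _ : Algebra k A := Algebra.compHom A (algebraMap k F)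
  have hst : IsScalarTower k F A := ⟨fun a b c => by
    show (a • b) • c = algebraMap k F a • (b • c)
    rw [smul_smul, Algebra.smul_def a b]⟩
  obtain ⟨X, Y, hX, hY, hXY, hσ⟩ := exists_shift hG θ hη
  set f := ft b₀ b₁ θ (η : F) G with hf
  have hksm : ∀ (c : k) {x : A}, x ∈ latt O f → c • x ∈ latt O f := by
    intro c x hx
    rw [← algebraMap_smul F c x]
    exact osmul_mem _ (hk c) hx
  have hXm : ∀ x, X x ∈ latt O f := by
    intro x
    rw [← b₀.sum_repr x, map_sum]
    refine Submodule.sum_mem _ fun i _ => ?_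
    rw [map_smul, hX]
    exact hksm _ (latt_letter _)
  have hYm : ∀ x, Y x ∈ latt O f := by
    intro x
    rw [← b₁.sum_repr x, map_sum]
    refine Submodule.sum_mem _ fun i _ => ?_
    rw [map_smul, hY]
    exact hksm _ (latt_letter _)
  let Q : L₁ × k → A := fun v => Y v.1 + v.2 • f (Sum.inl ())
  have hQm : ∀ v, Q v ∈ latt O f := fun v => Submodule.add_mem _ (hYm _) (hksm _ (latt_letter _))
  have hss : f (Sum.inl ()) * f (Sum.inl ()) = 1 := hG.ss
  have hQ : ∀ v w, Q v * Q w + Q w * Q v = (η : F) • X (g.b11 v.1 w.1) +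
      algebraMap k F (bform g θ v w) • (1 : A) := by
    intro v w
    have h3 := hXY v.1 w.1
    have h4 := hσ v.1
    have h5 := hσ w.1
    rw [bform_apply, map_add, add_smul, ← add_assoc, ← h3, algebraMap_smul F (2 * v.2 * w.2)]
    show (Y v.1 + v.2 • f (Sum.inl ())) * (Y w.1 + w.2 • f (Sum.inl ())) +
      (Y w.1 + w.2 • f (Sum.inl ())) * (Y v.1 + v.2 • f (Sum.inl ())) = _
    simp only [add_mul, mul_add, smul_mul_assoc, mul_smul_comm, hss, h4, h5]
    module
  obtain ⟨r, a, b, hab, hr⟩ := exists_hyperbolic h2 (bform g θ) (fun x y => by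
    rw [bform_apply, bform_apply, g.symm11]
    ring)
  rw [bform_rk h2] at hr
  have h2F : (2 : F) ≠ 0 := by
    intro h0
    apply h2
    apply (algebraMap k F).injective
    rw [map_zero, map_ofNat, h0]
  refine ⟨fun i => Q (a i), fun i => Q (b i), fun i => hQm _, fun i => hQm _, ?_, ?_, ?_, ?_⟩
  · intro i hi
    rw [← hr] at hi
    refine ⟨_, hXm (g.b11 (a i).1 (b i).1), ?_⟩
    rw [hQ, (hab i hi i hi).2, if_pos rfl, map_one, one_smul, add_comm]
  · intro i hi
    rw [← hr] at hi
    refine ⟨_, osmul_mem _ (hk (2 : k)⁻¹) (hXm (g.b11 (a i).1 (a i).1)), ?_⟩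
    have h3 := hQ (a i) (a i)
    rw [(hab i hi i hi).1, map_zero, zero_smul, add_zero, ← two_smul F] at h3
    have h4 := congrArg (fun t => (2 : F)⁻¹ • t) h3
    simp only [smul_smul, inv_mul_cancel₀ h2F, one_smul] at h4
    rw [h4, smul_smul, map_inv₀, map_ofNat, mul_comm]
  · intro i hi j hj hij
    rw [← hr] at hi hj
    refine ⟨_, hXm (g.b11 (a i).1 (a j).1), ?_⟩
    rw [hQ, (hab i hi j hj).1, map_zero, zero_smul, add_zero]
  · intro i hi j hj hij
    rw [← hr] at hi hj
    refine ⟨_, hXm (g.b11 (a i).1 (b j).1), ?_⟩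
    rw [hQ, (hab i hi j hj).2, if_neg hij, map_zero, zero_smul, add_zero]

/-- The words in the rescaled letters span. -/
theorem ft_words (θ : L₀ →ₗ[k] k) {η : F} (hη : η ≠ 0) (l : List (Unit ⊕ (m ⊕ n))) :
    pwf G l ∈ Submodule.span F (Set.range (pwf (ft b₀ b₁ θ η G))) := by
  refine pwf_words ?_ l
  rintro (⟨⟩ | z)
  · exact Submodule.subset_span ⟨[Sum.inl ()], by simp [pwf, ft]⟩
  · have h4 : G (Sum.inr z) = η⁻¹ • ft b₀ b₁ θ η G (Sum.inr z) + ll b₀ b₁ θ η z • (1 : A) := by
      simp only [ft]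
      rw [inv_smul_smul₀ hη]
      abel
    rw [h4]
    refine Submodule.add_mem _ (Submodule.smul_mem _ _ (Submodule.subset_span
      ⟨[Sum.inr z], by simp [pwf]⟩)) (Submodule.smul_mem _ _ (Submodule.subset_span ⟨[], rfl⟩))

end pairs

section main

variable {k L₀ L₁ : Type*} [Field k] [AddCommGroup L₀] [Module k L₀] [AddCommGroup L₁]
  [Module k L₁] {m n : Type} [Fintype m] [Fintype n] [DecidableEq m] [DecidableEq n]
  {g : LieSuper k L₀ L₁} {b₀ : Basis m k L₀} {b₁ : Basis n k L₁} {p : ℕ} {P : m → L₀}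
  {F : Type u} [Field F] [Algebra k F] {ζ : m → F} {O : ValuationSubring F}

/-- Divisibility of the dimensions of the modules. -/
theorem lim_mod [IsAlgClosed k] [FiniteDimensional k L₁] [hp : Fact p.Prime] [CharP F p]
    (h2 : (2 : k) ≠ 0) (θ : L₀ →ₗ[k] k) (hk : ∀ a : k, algebraMap k F a ∈ O) (η : O)
    (hη : (η : F) ≠ 0) (hη0 : IsLocalRing.residue O η = 0)
    (hζ : ∀ i, ζ i - (algebraMap k F (θ (b₀ i)) / (η : F) ^ 2) ^ p ∈ O)
    {V : Type v} [AddCommGroup V] [Module F V] [FiniteDimensional F V]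
    {G : Unit ⊕ (m ⊕ n) → Module.End F V} (hG : RepRel g b₀ b₁ p P ζ G) :
    2 ^ ((bOdd g θ + 1) / 2) ∣ finrank F V := by
  classical
  let _ : Module O V := Module.compHom V (algebraMap O F)
  have hstV : IsScalarTower O F V := ⟨fun a b c => by
    show (a • b) • c = algebraMap O F a • (b • c)
    rw [smul_smul, Algebra.smul_def a b]⟩
  let _ : Algebra O (Module.End F V) := Algebra.compHom _ (algebraMap O F)
  have hstE : IsScalarTower O F (Module.End F V) := ⟨fun a b c => by
    show (a • b) • c = algebraMap O F a • (b • c)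
    rw [smul_smul, Algebra.smul_def a b]⟩
  have hfg := latt_fg (O := O) hG h2 θ hk η hη hζ
  obtain ⟨a, b, ha, hb, h1, h3, h4, h5⟩ := exists_pairsQ (O := O) hG h2 θ hk η hη
  set f := ft b₀ b₁ θ (η : F) G with hf
  let e := Module.finBasis F V
  let ev : Fin (finrank F V) → (Module.End F V →ₗ[O] V) := fun i =>
    { toFun := fun T => T (e i)
      map_add' := fun T T' => rfl
      map_smul' := fun c T => rfl }
  let Λ : Submodule O V := ⨆ i, (latt O f).map (ev i)
  have hΛfg : Λ.FG := Submodule.fg_iSup _ fun i => hfg.map (ev i)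
  have hsp : ∀ v, v ∈ Submodule.span F (Λ : Set V) := by
    intro v
    rw [← e.sum_repr v]
    refine Submodule.sum_mem _ fun i _ => Submodule.smul_mem _ _ (Submodule.subset_span ?_)
    exact Submodule.mem_iSup_of_mem i ⟨1, latt_one, rfl⟩
  have hst : ∀ T ∈ latt O f, T ∈ stab Λ := by
    intro T hT v hv
    have h6 : Λ ≤ Λ.comap ({ toFun := fun v => T v, map_add' := map_add T, map_smul' :=
        (fun c v => by
          rw [smul_eq, map_smul, ← smul_eq]
          rfl) } : V →ₗ[O] V) := by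
      refine iSup_le fun i => ?_
      rintro _ ⟨S, hS, rfl⟩
      exact Submodule.mem_iSup_of_mem i ⟨T * S, latt_mul hT hS, rfl⟩
    exact h6 hv
  refine lim_core Λ hΛfg hsp η hη0 ((bOdd g θ + 1) / 2) (fun i => ⟨a i, hst _ (ha i)⟩)
    (fun i => ⟨b i, hst _ (hb i)⟩) ?_ ?_ ?_ ?_
  · intro i hi
    obtain ⟨X, hX, h⟩ := h1 i hi
    exact ⟨⟨X, hst _ hX⟩, h⟩
  · intro i hi
    obtain ⟨X, hX, h⟩ := h3 i hi
    exact ⟨⟨X, hst _ hX⟩, h⟩
  · intro i hi j hj hij
    obtain ⟨X, hX, h⟩ := h4 i hi j hj hij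
    refine ⟨-1, ⟨X, hst _ hX⟩, ?_⟩
    rw [neg_smul, one_smul, ← h]
    show a i * a j = -(a j * a i) + (a i * a j + a j * a i)
    abel
  · intro i hi j hj hij
    obtain ⟨X, hX, h⟩ := h5 i hi j hj hij
    refine ⟨-1, ⟨X, hst _ hX⟩, ?_⟩
    rw [neg_smul, one_smul, ← h]
    show a i * b j = -(b j * a i) + (a i * b j + b j * a i)
    abel

/-- Divisibility of the dimensions of the algebras. -/
theorem lim_alg [IsAlgClosed k] [FiniteDimensional k L₁] [hp : Fact p.Prime] [CharP F p]
    (h2 : (2 : k) ≠ 0) (θ : L₀ →ₗ[k] k) (hk : ∀ a : k, algebraMap k F a ∈ O) (η : O)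
    (hη : (η : F) ≠ 0) (hη0 : IsLocalRing.residue O η = 0)
    (hζ : ∀ i, ζ i - (algebraMap k F (θ (b₀ i)) / (η : F) ^ 2) ^ p ∈ O)
    {A : Type v} [Ring A] [Algebra F A] [FiniteDimensional F A]
    {G : Unit ⊕ (m ⊕ n) → A} (hG : RepRel g b₀ b₁ p P ζ G)
    (hsp : ∀ x, x ∈ Submodule.span F (Set.range (pwf G))) :
    2 ^ (2 * ((bOdd g θ + 1) / 2)) ∣ finrank F A := by
  classical
  let _ : Algebra O A := Algebra.compHom _ (algebraMap O F)
  have hstA : IsScalarTower O F A := ⟨fun a b c => by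
    show (a • b) • c = algebraMap O F a • (b • c)
    rw [smul_smul, Algebra.smul_def a b]⟩
  have hfg := latt_fg (O := O) hG h2 θ hk η hη hζ
  obtain ⟨a, b, ha, hb, h1, h3, h4, h5⟩ := exists_pairsQ (O := O) hG h2 θ hk η hη
  set f := ft b₀ b₁ θ (η : F) G with hf
  set r := (bOdd g θ + 1) / 2 with hr
  let Λ : Submodule O A := latt O f
  have hspan : ∀ v, v ∈ Submodule.span F (Λ : Set A) := by
    intro v
    refine (Submodule.span_le.2 ?_) (hsp v)
    rintro _ ⟨l, rfl⟩
    have h6 := ft_words (b₀ := b₀) (b₁ := b₁) (G := G) θ hη l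
    refine (Submodule.span_mono ?_) h6
    rintro _ ⟨l, rfl⟩
    exact Submodule.subset_span ⟨l, rfl⟩
  have hL : ∀ T ∈ latt O f, (LinearMap.mulLeft F T : Module.End F A) ∈ stab Λ :=
    fun T hT v hv => latt_mul hT hv
  have hR : ∀ T ∈ latt O f, (LinearMap.mulRight F T : Module.End F A) ∈ stab Λ :=
    fun T hT v hv => latt_mul hv hT
  have eL : ∀ x y : A, LinearMap.mulLeft F x * LinearMap.mulLeft F y =
      LinearMap.mulLeft F (x * y) := fun x y => (LinearMap.mulLeft_mul F A x y).symm
  have eR : ∀ x y : A, LinearMap.mulRight F x * LinearMap.mulRight F y =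
      LinearMap.mulRight F (y * x) := fun x y => (LinearMap.mulRight_mul F A y x).symm
  have eLR : ∀ x y : A, LinearMap.mulLeft F x * LinearMap.mulRight F y =
      LinearMap.mulRight F y * LinearMap.mulLeft F x := by
    intro x y
    apply LinearMap.ext
    intro v
    show x * (v * y) = (x * v) * y
    rw [mul_assoc]
  have aL : ∀ x y : A, LinearMap.mulLeft F (x + y) = LinearMap.mulLeft F x +
      LinearMap.mulLeft F y := by
    intro x y
    apply LinearMap.ext
    intro v
    exact add_mul x y v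
  have aR : ∀ x y : A, LinearMap.mulRight F (x + y) = LinearMap.mulRight F x +
      LinearMap.mulRight F y := by
    intro x y
    apply LinearMap.ext
    intro v
    exact mul_add v x y
  have sL : ∀ (c : F) (x : A), LinearMap.mulLeft F (c • x) = c • LinearMap.mulLeft F x := by
    intro c x
    apply LinearMap.ext
    intro v
    exact smul_mul_assoc c x v
  have sR : ∀ (c : F) (x : A), LinearMap.mulRight F (c • x) = c • LinearMap.mulRight F x := by
    intro c x
    apply LinearMap.ext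
    intro v
    exact mul_smul_comm c v x
  have oL : LinearMap.mulLeft F (1 : A) = (1 : Module.End F A) := by
    apply LinearMap.ext
    intro v
    exact one_mul v
  have oR : LinearMap.mulRight F (1 : A) = (1 : Module.End F A) := by
    apply LinearMap.ext
    intro v
    exact mul_one v
  let a' : ℕ → stab Λ := fun i => if i < r then ⟨_, hL _ (ha i)⟩ else ⟨_, hR _ (ha (i - r))⟩
  let b' : ℕ → stab Λ := fun i => if i < r then ⟨_, hL _ (hb i)⟩ else ⟨_, hR _ (hb (i - r))⟩
  have ha1 : ∀ i, i < r → ((a' i : stab Λ) : Module.End F A) = LinearMap.mulLeft F (a i) := by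
    intro i hi
    simp only [a', if_pos hi]
  have ha2 : ∀ i, ¬ i < r → ((a' i : stab Λ) : Module.End F A) =
      LinearMap.mulRight F (a (i - r)) := by
    intro i hi
    simp only [a', if_neg hi]
  have hb1 : ∀ i, i < r → ((b' i : stab Λ) : Module.End F A) = LinearMap.mulLeft F (b i) := by
    intro i hi
    simp only [b', if_pos hi]
  have hb2 : ∀ i, ¬ i < r → ((b' i : stab Λ) : Module.End F A) =
      LinearMap.mulRight F (b (i - r)) := by
    intro i hi
    simp only [b', if_neg hi]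
  refine lim_core Λ hfg hspan η hη0 (2 * r) a' b' ?_ ?_ ?_ ?_
  · intro i hi
    by_cases hir : i < r
    · obtain ⟨X, hX, h⟩ := h1 i hir
      refine ⟨⟨_, hL _ hX⟩, ?_⟩
      show (a' i : Module.End F A) * (b' i : Module.End F A) +
        (b' i : Module.End F A) * (a' i : Module.End F A) = 1 + (η : F) • LinearMap.mulLeft F X
      rw [ha1 i hir, hb1 i hir, eL, eL, ← aL, h, aL, sL, oL]
    · obtain ⟨X, hX, h⟩ := h1 (i - r) (by omega)
      refine ⟨⟨_, hR _ hX⟩, ?_⟩
      show (a' i : Module.End F A) * (b' i : Module.End F A) +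
        (b' i : Module.End F A) * (a' i : Module.End F A) = 1 + (η : F) • LinearMap.mulRight F X
      rw [ha2 i hir, hb2 i hir, eR, eR, ← aR, add_comm (b (i - r) * a (i - r)), h, aR, sR, oR]
  · intro i hi
    by_cases hir : i < r
    · obtain ⟨X, hX, h⟩ := h3 i hir
      refine ⟨⟨_, hL _ hX⟩, ?_⟩
      show (a' i : Module.End F A) * (a' i : Module.End F A) = (η : F) • LinearMap.mulLeft F X
      rw [ha1 i hir, eL, h, sL]
    · obtain ⟨X, hX, h⟩ := h3 (i - r) (by omega)
      refine ⟨⟨_, hR _ hX⟩, ?_⟩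
      show (a' i : Module.End F A) * (a' i : Module.End F A) = (η : F) • LinearMap.mulRight F X
      rw [ha2 i hir, eR, h, sR]
  · intro i hi j hj hij
    by_cases hir : i < r
    · by_cases hjr : j < r
      · obtain ⟨X, hX, h⟩ := h4 i hir j hjr hij
        refine ⟨-1, ⟨_, hL _ hX⟩, ?_⟩
        rw [neg_smul, one_smul]
        show (a' i : Module.End F A) * (a' j : Module.End F A) =
          -((a' j : Module.End F A) * (a' i : Module.End F A)) + (η : F) • LinearMap.mulLeft F X
        rw [ha1 i hir, ha1 j hjr, eL, eL, ← sL, ← h, aL]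
        abel
      · refine ⟨1, 0, ?_⟩
        rw [one_smul]
        show (a' i : Module.End F A) * (a' j : Module.End F A) =
          (a' j : Module.End F A) * (a' i : Module.End F A) + (η : F) • (0 : Module.End F A)
        rw [ha1 i hir, ha2 j hjr, eLR, smul_zero, add_zero]
    · by_cases hjr : j < r
      · refine ⟨1, 0, ?_⟩
        rw [one_smul]
        show (a' i : Module.End F A) * (a' j : Module.End F A) =
          (a' j : Module.End F A) * (a' i : Module.End F A) + (η : F) • (0 : Module.End F A)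
        rw [ha2 i hir, ha1 j hjr, eLR, smul_zero, add_zero]
      · obtain ⟨X, hX, h⟩ := h4 (i - r) (by omega) (j - r) (by omega) (by omega)
        refine ⟨-1, ⟨_, hR _ hX⟩, ?_⟩
        rw [neg_smul, one_smul]
        show (a' i : Module.End F A) * (a' j : Module.End F A) =
          -((a' j : Module.End F A) * (a' i : Module.End F A)) + (η : F) • LinearMap.mulRight F X
        rw [ha2 i hir, ha2 j hjr, eR, eR, ← sR, ← h, aR]
        abel
  · intro i hi j hj hij
    by_cases hir : i < r
    · by_cases hjr : j < r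
      · obtain ⟨X, hX, h⟩ := h5 i hir j hjr hij
        refine ⟨-1, ⟨_, hL _ hX⟩, ?_⟩
        rw [neg_smul, one_smul]
        show (a' i : Module.End F A) * (b' j : Module.End F A) =
          -((b' j : Module.End F A) * (a' i : Module.End F A)) + (η : F) • LinearMap.mulLeft F X
        rw [ha1 i hir, hb1 j hjr, eL, eL, ← sL, ← h, aL]
        abel
      · refine ⟨1, 0, ?_⟩
        rw [one_smul]
        show (a' i : Module.End F A) * (b' j : Module.End F A) =
          (b' j : Module.End F A) * (a' i : Module.End F A) + (η : F) • (0 : Module.End F A)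
        rw [ha1 i hir, hb2 j hjr, eLR, smul_zero, add_zero]
    · by_cases hjr : j < r
      · refine ⟨1, 0, ?_⟩
        rw [one_smul]
        show (a' i : Module.End F A) * (b' j : Module.End F A) =
          (b' j : Module.End F A) * (a' i : Module.End F A) + (η : F) • (0 : Module.End F A)
        rw [ha2 i hir, hb1 j hjr, eLR, smul_zero, add_zero]
      · obtain ⟨X, hX, h⟩ := h5 (i - r) (by omega) (j - r) (by omega) (by omega)
        refine ⟨-1, ⟨_, hR _ hX⟩, ?_⟩
        rw [neg_smul, one_smul]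
        show (a' i : Module.End F A) * (b' j : Module.End F A) =
          -((b' j : Module.End F A) * (a' i : Module.End F A)) + (η : F) • LinearMap.mulRight F X
        rw [ha2 i hir, hb2 j hjr, eR, eR, ← sR, ← h, aR]
        abel

end main

end Pool.Agent.Helper56.SKR
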