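import Mathlib
import Pool.Agent.Helper56.SKR.Csa

/-!
# Coinduced representations
-/

namespace Pool.Agent.Helper56.SKR

open Module

section coind

variable {Δ S F L : Type*} [DivisionRing Δ] [Ring S] [Module Δ S] [IsScalarTower Δ S S]
  [Field F] [AddCommGroup L] [Module F L] [Module Δ L] [SMulCommClass Δ F L]

/-- Right multiplication as a `Δ`-linear map. -/
def rmul (Δ : Type*) {S : Type*} [DivisionRing Δ] [Ring S] [Module Δ S] [IsScalarTower Δ S S]
    (b : S) : S →ₗ[Δ] S where
  toFun s := s * b
  map_add' s t := add_mul s t b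
  map_smul' a s := smul_mul_assoc a s b

/-- The coinduced representation. -/
def coind : S →+* Module.End F (S →ₗ[Δ] L) where
  toFun b :=
    { toFun := fun f => f.comp (rmul Δ b)
      map_add' := fun f g => rfl
      map_smul' := fun c f => rfl }
  map_one' := by
    apply LinearMap.ext
    intro f
    apply LinearMap.ext
    intro s
    show f (s * 1) = f s
    rw [mul_one]
  map_mul' b b' := by
    apply LinearMap.ext
    intro f
    apply LinearMap.ext
    intro s
    show f (s * (b * b')) = f ((s * b) * b')
    rw [mul_assoc]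
  map_zero' := by
    apply LinearMap.ext
    intro f
    apply LinearMap.ext
    intro s
    show f (s * 0) = 0
    rw [mul_zero, map_zero]
  map_add' b b' := by
    apply LinearMap.ext
    intro f
    apply LinearMap.ext
    intro s
    show f (s * (b + b')) = f (s * b) + f (s * b')
    rw [mul_add, map_add]

omit [IsScalarTower Δ S S] in
theorem coind_dim [Module.Finite Δ S] [FiniteDimensional F L] :
    FiniteDimensional F (S →ₗ[Δ] L) ∧
      finrank F (S →ₗ[Δ] L) = finrank Δ S * finrank F L := by
  let b := Module.finBasis Δ S
  let e : (Fin (finrank Δ S) → L) ≃ₗ[F] (S →ₗ[Δ] L) := b.constr F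
  refine ⟨Module.Finite.equiv e, ?_⟩
  rw [← e.finrank_eq, Module.finrank_pi_fintype]
  simp

end coind

/-- The dimension of an irreducible representation of a simple algebra divides the dimensions
of the coinduced representations. -/
theorem coind_dvd {K Δ S : Type*} [Field K] [Ring S] [Algebra K S] [IsSimpleRing S]
    [FiniteDimensional K S] [DivisionRing Δ] (κ : Δ →+* S) (s : ℕ)
    (hs : @Module.Finite Δ S _ _ (Module.compHom S κ) ∧
      @Module.finrank Δ S _ _ (Module.compHom S κ) = s)
    {F : Type*} {W L : Type*} [Field F] [IsAlgClosed F]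
    [AddCommGroup W] [Module F W] [FiniteDimensional F W] (ρ : S →+* Module.End F W) (hρ : Irr ρ)
    [AddCommGroup L] [Module F L] [FiniteDimensional F L] (τ : Δ →+* Module.End F L) :
    finrank F W ∣ s * finrank F L := by
  let _ : Module Δ S := Module.compHom S κ
  let _ : Module Δ L := Module.compHom L τ
  have h1 : IsScalarTower Δ S S := ⟨fun a b c => by
    show (κ a * b) * c = κ a * (b * c)
    rw [mul_assoc]⟩
  have h2 : SMulCommClass Δ F L := ⟨fun a b c => by
    show τ a (b • c) = b • τ a c
    rw [map_smul]⟩
  have hfin : Module.Finite Δ S := hs.1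
  obtain ⟨hf, hd⟩ := coind_dim (Δ := Δ) (S := S) (F := F) (L := L)
  have h3 := simple_dvd K ρ hρ (coind (Δ := Δ) (F := F) (L := L))
  have h4 : finrank Δ S = s := hs.2
  rw [hd, h4] at h3
  exact h3

end Pool.Agent.Helper56.SKR
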