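import Mathlib

/-!
# Division rings of fractions
-/

namespace Pool.Agent.Helper56.SKR

open Module TensorProduct

universe u v w

/-- The central localisation of a domain which is finite and free over a central subring. -/
theorem exists_frac {R : Type u} [CommRing R] [IsDomain R] {A : Type v} [Ring A] [IsDomain A]
    [Algebra R A] {ι : Type*} [Fintype ι] (b : Basis ι R A) :
    ∃ (Δ : Type (max u v)) (_ : DivisionRing Δ) (_ : Algebra (FractionRing R) Δ),
      FiniteDimensional (FractionRing R) Δ ∧ finrank (FractionRing R) Δ = Fintype.card ι ∧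
      ∃ i0 : A →+* Δ, (∀ r a, i0 (r • a) = algebraMap R (FractionRing R) r • i0 a) ∧
        ∀ (B : Type w) [Ring B] [Algebra (FractionRing R) B] (T : A →+* B),
          (∀ r a, T (r • a) = algebraMap R (FractionRing R) r • T a) →
          ∃ T' : Δ →ₐ[FractionRing R] B, ∀ a, T' (i0 a) = T a := by
  classical
  let K := FractionRing R
  let Δ := K ⊗[R] A
  have hfree : Module.Free R A := Module.Free.of_basis b
  have hfin : Module.Finite R A := Module.Finite.of_basis b
  let i0 : A →ₐ[R] Δ := Algebra.TensorProduct.includeRight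
  have hi0 : Function.Injective i0 :=
    Algebra.TensorProduct.includeRight_injective (IsFractionRing.injective R K)
  have hsm : ∀ (r : R) (a : A), i0 (r • a) = algebraMap R K r • i0 a := by
    intro r a
    rw [map_smul, algebraMap_smul]
  have hclear : ∀ x : Δ, ∃ (r : R) (a : A), r ≠ 0 ∧ algebraMap R K r • x = i0 a := by
    intro x
    induction x using TensorProduct.induction_on with
    | zero => exact ⟨1, 0, one_ne_zero, by simp⟩
    | tmul c a =>
      obtain ⟨s, r, hr, rfl⟩ := IsFractionRing.div_surjective (A := R) c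
      have hr0 : r ≠ 0 := nonZeroDivisors.ne_zero hr
      have hr1 : algebraMap R K r ≠ 0 := by
        rw [Ne, map_eq_zero_iff _ (IsFractionRing.injective R K)]
        exact hr0
      refine ⟨r, s • a, hr0, ?_⟩
      rw [TensorProduct.smul_tmul', smul_eq_mul, mul_div_cancel₀ _ hr1, hsm]
      show _ = algebraMap R K s • ((1 : K) ⊗ₜ[R] a)
      rw [TensorProduct.smul_tmul', smul_eq_mul, mul_one]
    | add x y hx hy =>
      obtain ⟨r, a, hr, ha⟩ := hx
      obtain ⟨s, c, hs, hc⟩ := hy
      refine ⟨r * s, s • a + r • c, mul_ne_zero hr hs, ?_⟩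
      rw [map_mul, map_add, hsm, hsm, ← ha, ← hc, smul_add, smul_smul, smul_smul]
      congr 1
      rw [mul_comm]
  have hnz : NoZeroDivisors Δ := by
    refine ⟨?_⟩
    intro x y hxy
    obtain ⟨r, a, hr, ha⟩ := hclear x
    obtain ⟨s, c, hs, hc⟩ := hclear y
    have h1 : i0 (a * c) = 0 := by
      rw [map_mul, ← ha, ← hc, smul_mul_smul_comm, hxy, smul_zero]
    have h2 : a * c = 0 := hi0 (h1.trans (map_zero _).symm)
    have hr1 : algebraMap R K r ≠ 0 := by
      rw [Ne, map_eq_zero_iff _ (IsFractionRing.injective R K)]
      exact hr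
    have hs1 : algebraMap R K s ≠ 0 := by
      rw [Ne, map_eq_zero_iff _ (IsFractionRing.injective R K)]
      exact hs
    rcases mul_eq_zero.1 h2 with h3 | h3
    · left
      rw [h3, map_zero] at ha
      exact (smul_eq_zero.1 ha).resolve_left hr1
    · right
      rw [h3, map_zero] at hc
      exact (smul_eq_zero.1 hc).resolve_left hs1
  have hnt : Nontrivial Δ := i0.toRingHom.domain_nontrivial |> fun _ => by
    refine ⟨⟨0, 1, fun h => ?_⟩⟩
    have h1 : i0 0 = i0 1 := by rw [map_zero, map_one, h]
    exact zero_ne_one (hi0 h1)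
  have hdom : IsDomain Δ := NoZeroDivisors.to_isDomain _
  let D : DivisionRing Δ := divisionRingOfFiniteDimensional K Δ
  refine ⟨Δ, D, Algebra.TensorProduct.leftAlgebra, ?_, ?_, i0.toRingHom, hsm, ?_⟩
  · show FiniteDimensional K Δ
    infer_instance
  · show finrank K Δ = _
    rw [Module.finrank_baseChange, finrank_eq_card_basis b]
  · intro B _ _ T hT
    let _ : Algebra R B := Algebra.compHom B (algebraMap R K)
    have hs : IsScalarTower R K B := ⟨fun r c x => by
      show (r • c) • x = algebraMap R K r • (c • x)
      rw [smul_smul, Algebra.smul_def r c]⟩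
    let Tr : A →ₐ[R] B :=
      { T with
        commutes' := by
          intro r
          show T (algebraMap R A r) = algebraMap K B (algebraMap R K r)
          rw [Algebra.algebraMap_eq_smul_one, hT, map_one, Algebra.algebraMap_eq_smul_one
            (A := B)] }
    have hcom : ∀ (c : K) (a : A), Commute (Algebra.ofId K B c) (Tr a) := fun c a =>
      Algebra.commutes c (Tr a)
    refine ⟨Algebra.TensorProduct.lift (Algebra.ofId K B) Tr hcom, ?_⟩
    intro a
    refine (Algebra.TensorProduct.lift_tmul (Algebra.ofId K B) Tr hcom 1 a).trans ?_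
    rw [map_one, one_mul]
    rfl

end Pool.Agent.Helper56.SKR
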