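import Mathlib
import Pool.Agent.Helper56.SKR.Frac
import Pool.Agent.Helper56.SKR.Coind

/-!
# Degrees of generic irreducible representations
-/

namespace Pool.Agent.Helper56.SKR

open Module TensorProduct

universe u v v' w

section kspan

variable {A K E : Type*} [Ring A] [Field K] [Ring E] [Algebra K E]

/-- The span of the image of a ring homomorphism. -/
def kspan (K : Type*) [Field K] {E : Type*} [Ring E] [Algebra K E] (ρ : A →+* E) :
    Subalgebra K E :=
  Submodule.toSubalgebra (Submodule.span K (Set.range ρ)) (Submodule.subset_span ⟨1, map_one ρ⟩)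
    (by
      intro a b ha hb
      induction ha using Submodule.span_induction with
      | mem a ha =>
        obtain ⟨a, rfl⟩ := ha
        induction hb using Submodule.span_induction with
        | mem b hb =>
          obtain ⟨b, rfl⟩ := hb
          rw [← map_mul]
          exact Submodule.subset_span ⟨_, rfl⟩
        | zero => rw [mul_zero]; exact Submodule.zero_mem _
        | add a b _ _ ha hb => rw [mul_add]; exact Submodule.add_mem _ ha hb
        | smul c a _ ha => rw [mul_smul_comm]; exact Submodule.smul_mem _ _ ha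
      | zero => rw [zero_mul]; exact Submodule.zero_mem _
      | add a b _ _ ha hb => rw [add_mul]; exact Submodule.add_mem _ ha hb
      | smul c a _ ha => rw [smul_mul_assoc]; exact Submodule.smul_mem _ _ ha)

/-- The corestriction. -/
def kcor (K : Type*) [Field K] {E : Type*} [Ring E] [Algebra K E] (ρ : A →+* E) :
    A →+* kspan K ρ :=
  ρ.codRestrict (kspan K ρ).toSubring fun a => Submodule.subset_span ⟨a, rfl⟩

theorem kcor_coe (ρ : A →+* E) (a : A) : ((kcor K ρ a : kspan K ρ) : E) = ρ a := rfl

theorem kcor_span (ρ : A →+* E) (x : kspan K ρ) : x ∈ Submodule.span K (Set.range (kcor K ρ)) := by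
  obtain ⟨x, hx⟩ := x
  have hx' : x ∈ Submodule.span K (Set.range ρ) := hx
  have h1 : Submodule.span K (Set.range ρ) ≤ (Submodule.span K (Set.range (kcor K ρ))).map
      (kspan K ρ).val.toLinearMap := by
    rw [Submodule.span_le]
    rintro _ ⟨a, rfl⟩
    exact ⟨kcor K ρ a, Submodule.subset_span ⟨a, rfl⟩, rfl⟩
  obtain ⟨y, hy, hyx⟩ := h1 hx'
  have h2 : y = ⟨x, hx⟩ := Subtype.ext hyx
  rw [← h2]
  exact hy

end kspan

section num

theorem gen_num {R : Type u} [CommRing R] [IsDomain R] {A : Type v} [Ring A] [Algebra R A]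
    {A0 : Type v'} [Ring A0] [IsDomain A0] [Algebra R A0] {ι ι' : Type*} [Fintype ι] [Fintype ι']
    (b : Basis ι R A0) (κ : A0 →+* A) (hκ : ∀ (r : R) a, κ (r • a) = r • κ a) (wd : ι' → A)
    (hw : ∀ a, a ∈ Submodule.span R (Set.range wd)) {F : Type u} [Field F] [IsAlgClosed F]
    (φ : R →+* F) (hφ : Function.Injective φ) {V : Type w} [AddCommGroup V] [Module F V]
    [FiniteDimensional F V] (ρ : A →+* Module.End F V) (hρ : Irr ρ)
    (hρφ : ∀ (r : R) a, ρ (r • a) = φ r • ρ a) {L : Type w} [AddCommGroup L] [Module F L]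
    [FiniteDimensional F L] (τ : A0 →+* Module.End F L) (hτ : Irr τ)
    (hτφ : ∀ (r : R) a, τ (r • a) = φ r • τ a) :
    ∃ z z0 s : ℕ, z * (finrank F V * finrank F V) = Fintype.card ι * s ∧
      z0 * (finrank F L * finrank F L) = Fintype.card ι ∧
      finrank F V ∣ s * finrank F L ∧ finrank F L ∣ finrank F V ∧
      Fintype.card ι * s ≤ Fintype.card ι' ∧ 0 < Fintype.card ι * s ∧
      ∃ (B : Type (max u w)) (_ : Ring B) (_ : Algebra F B) (_ : FiniteDimensional F B)
        (T : A →+* B), (∀ (r : R) a, T (r • a) = φ r • T a) ∧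
        (∀ x : B, x ∈ Submodule.span F (Set.range T)) ∧ finrank F B = Fintype.card ι * s := by
  classical
  let K := FractionRing R
  let j : K →+* F := IsFractionRing.lift hφ
  have hj : ∀ r, j (algebraMap R K r) = φ r := fun r => IsFractionRing.lift_algebraMap hφ r
  let _ : Algebra K F := j.toAlgebra
  have hjsm : ∀ (c : K) (x : F), c • x = j c * x := fun c x => rfl
  let _ : Module K V := Module.compHom V j
  have hst1 : IsScalarTower K F V := ⟨fun a b c => by
    show (j a * b) • c = j a • (b • c)
    rw [mul_smul]⟩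
  let _ : Module K L := Module.compHom L j
  have hst2 : IsScalarTower K F L := ⟨fun a b c => by
    show (j a * b) • c = j a • (b • c)
    rw [mul_smul]⟩
  have hcV : ∀ (c : K) (x : Module.End F V), c • x = j c • x := fun c x => rfl
  have hcL : ∀ (c : K) (x : Module.End F L), c • x = j c • x := fun c x => rfl
  let S := kspan K ρ
  let ρS : S →+* Module.End F V := S.val.toRingHom
  let T0 : A →+* S := kcor K ρ
  have hT0 : ∀ (r : R) a, T0 (r • a) = algebraMap R K r • T0 a := by
    intro r a
    apply Subtype.ext
    show ρ (r • a) = algebraMap R K r • ρ a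
    rw [hρφ, hcV, hj]
  have hirr : Irr ρS := ⟨hρ.1, fun W hW => hρ.2 W fun a v hv => hW (T0 a) v hv⟩
  -- finite dimension
  have hspan : (⊤ : Submodule K S) ≤ Submodule.span K (Set.range fun i => T0 (wd i)) := by
    intro x _
    refine (Submodule.span_le.2 ?_) (kcor_span (K := K) ρ x)
    rintro _ ⟨a, rfl⟩
    have h1 := hw a
    show T0 a ∈ Submodule.span K (Set.range fun i => T0 (wd i))
    induction h1 using Submodule.span_induction with
    | mem a ha =>
      obtain ⟨i, rfl⟩ := ha
      exact Submodule.subset_span ⟨i, rfl⟩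
    | zero => rw [map_zero]; exact Submodule.zero_mem _
    | add a b _ _ ha hb => rw [map_add]; exact Submodule.add_mem _ ha hb
    | smul c a _ ha => rw [hT0]; exact Submodule.smul_mem _ _ ha
  have hfin : FiniteDimensional K S := by
    refine ⟨(Submodule.fg_def.2 ⟨Set.range fun i => T0 (wd i), Set.finite_range _, ?_⟩)⟩
    exact le_antisymm le_top hspan
  have hle : finrank K S ≤ Fintype.card ι' := by
    have h1 : finrank K (⊤ : Submodule K S) ≤
        finrank K (Submodule.span K (Set.range fun i => T0 (wd i))) :=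
      Submodule.finrank_mono hspan
    rw [finrank_top] at h1
    exact h1.trans (finrank_range_le_card _)
  have hsimple : IsSimpleRing S := simple_of_irr K S ρS hirr Subtype.val_injective
  -- the division ring
  obtain ⟨Δ, iD, aD, hDfin, hDrank, i0, hi0, hlift⟩ := exists_frac.{u, v', w} b
  obtain ⟨κ1, hκ1⟩ := hlift S (T0.comp κ) (fun r a => by
    rw [RingHom.comp_apply, hκ, hT0]
    rfl)
  obtain ⟨τ1, hτ1⟩ := hlift (Module.End F L) τ (fun r a => by
    rw [hτφ]
    show _ = algebraMap R K r • τ a
    rw [hcL, hj])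
  have hτirr : Irr (τ1 : Δ →+* Module.End F L) := ⟨hτ.1, fun W hW => hτ.2 W fun a v hv => by
    rw [← hτ1]
    exact hW (i0 a) v hv⟩
  let κr : Δ →+* S := (κ1 : Δ →+* S)
  let _ : Module Δ S := Module.compHom S κr
  have hst3 : IsScalarTower K Δ S := ⟨fun a b c => by
    show κ1 (a • b) * c = a • (κ1 b * c)
    rw [map_smul, smul_mul_assoc]⟩
  have hfin2 : Module.Finite Δ S := Module.Finite.of_restrictScalars_finite K Δ S
  set s := finrank Δ S with hs
  have hmul : Fintype.card ι * s = finrank K S := by
    rw [← hDrank, hs]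
    exact finrank_mul_finrank K Δ S
  have hpos : 0 < finrank K S := by
    have : Nontrivial S := inferInstance
    exact finrank_pos
  refine ⟨finrank K (Subalgebra.center K S), finrank K (Subalgebra.center K Δ), s, ?_, ?_, ?_, ?_,
    ?_, ?_, ?_⟩
  · rw [hmul]
    exact (simple_dim K ρS hirr).symm
  · rw [← hDrank]
    exact (simple_dim K (τ1 : Δ →+* Module.End F L) hτirr).symm
  · exact coind_dvd (K := K) κr s ⟨hfin2, hs.symm⟩ ρS hirr (τ1 : Δ →+* Module.End F L)
  · exact simple_dvd K (τ1 : Δ →+* Module.End F L) hτirr (ρS.comp κr)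
  · rw [hmul]
    exact hle
  · rw [hmul]
    exact hpos
  · let B := F ⊗[K] S
    let i1 : S →+* B := (Algebra.TensorProduct.includeRight : S →ₐ[K] B).toRingHom
    have hi1 : ∀ (c : K) (x : S), i1 (c • x) = j c • i1 x := by
      intro c x
      show (1 : F) ⊗ₜ[K] (c • x) = j c • ((1 : F) ⊗ₜ[K] x)
      rw [TensorProduct.tmul_smul, TensorProduct.smul_tmul', TensorProduct.smul_tmul', hjsm,
        smul_eq_mul]
    have hadd : ∀ x y : S, i1 (x + y) = i1 x + i1 y := fun x y => RingHom.map_add i1 x y
    have hzero : i1 0 = 0 := RingHom.map_zero i1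
    have hmem : ∀ y : S, i1 y ∈ Submodule.span F (Set.range (i1.comp T0)) := by
      intro y
      have h2 := kcor_span (K := K) ρ y
      induction h2 using Submodule.span_induction with
      | mem y hy =>
        obtain ⟨a, rfl⟩ := hy
        exact Submodule.subset_span ⟨a, rfl⟩
      | zero => rw [hzero]; exact Submodule.zero_mem _
      | add a b _ _ ha hb => rw [hadd]; exact Submodule.add_mem _ ha hb
      | smul d a _ ha => rw [hi1]; exact Submodule.smul_mem _ _ ha
    refine ⟨B, inferInstance, inferInstance, ?_, i1.comp T0, ?_, ?_, ?_⟩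
    · show FiniteDimensional F (F ⊗[K] S)
      infer_instance
    · intro r a
      rw [RingHom.comp_apply, hT0, hi1, hj]
      rfl
    · intro x
      induction x using TensorProduct.induction_on with
      | zero => exact Submodule.zero_mem _
      | tmul c y =>
        have h1 : c ⊗ₜ[K] y = c • i1 y := by
          show c ⊗ₜ[K] y = c • ((1 : F) ⊗ₜ[K] y)
          rw [TensorProduct.smul_tmul', smul_eq_mul, mul_one]
        rw [h1]
        exact Submodule.smul_mem _ _ (hmem y)
      | add x y hx hy => exact Submodule.add_mem _ hx hy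
    · show finrank F (F ⊗[K] S) = _
      rw [Module.finrank_baseChange, hmul]

end num

end Pool.Agent.Helper56.SKR
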