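import Mathlib

/-!
# The arithmetic of the degrees
-/

namespace Pool.Agent.Helper56.SKR

theorem num_core {p M n z z0 s d l r δ : ℕ} (hp : p.Prime) (hp2 : 2 < p)
    (h1 : z * (d * d) = p ^ M * s) (h0 : z0 * (l * l) = p ^ M) (h3 : d ∣ s * l) (h4 : l ∣ d)
    (h5 : p ^ M * s ≤ p ^ M * 2 ^ (n + 1)) (hpos : 0 < p ^ M * s) (h6 : 2 ^ (2 * r) ∣ p ^ M * s)
    (h7 : 2 ^ r ∣ d) (hδ : n + 1 ≤ 2 * r + δ) (h8 : 2 ^ δ < p) :
    2 ^ r * l ∣ d ∧ d * d ≤ 2 ^ δ * ((2 ^ r * l) * (2 ^ r * l)) := by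
  have hpM : 0 < p ^ M := pow_pos hp.pos M
  have hs0 : 0 < s := Nat.pos_of_mul_pos_left hpos |> fun h => by
    rcases Nat.eq_zero_or_pos s with h' | h'
    · rw [h', mul_zero] at hpos; exact absurd hpos (lt_irrefl 0)
    · exact h'
  have hl : l ∣ p ^ M := by
    rw [← h0]
    exact ⟨z0 * l, by ring⟩
  have hl0 : 0 < l := Nat.pos_of_dvd_of_pos hl hpM
  obtain ⟨a, -, rfl⟩ := (Nat.dvd_prime_pow hp).1 hl
  have hodd : Nat.Coprime 2 p := by
    rw [Nat.coprime_comm, Nat.Prime.coprime_iff_not_dvd hp]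
    intro h
    have := Nat.le_of_dvd (by norm_num) h
    omega
  obtain ⟨t, rfl⟩ := h4
  have h7' : 2 ^ r ∣ t := by
    have hc : Nat.Coprime (2 ^ r) (p ^ a) := Nat.Coprime.pow _ _ hodd
    exact hc.dvd_of_dvd_mul_left h7
  have h6' : 2 ^ (2 * r) ∣ s := by
    have hc : Nat.Coprime (2 ^ (2 * r)) (p ^ M) := Nat.Coprime.pow _ _ hodd
    exact hc.dvd_of_dvd_mul_left h6
  obtain ⟨s', rfl⟩ := h6'
  have hs5 : 2 ^ (2 * r) * s' ≤ 2 ^ (n + 1) := Nat.le_of_mul_le_mul_left h5 hpM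
  have hle : 2 ^ (2 * r) * s' ≤ 2 ^ (2 * r) * 2 ^ δ := by
    rw [← pow_add]
    exact hs5.trans (Nat.pow_le_pow_right (by norm_num) hδ)
  have hs' : s' ≤ 2 ^ δ := Nat.le_of_mul_le_mul_left hle (by positivity)
  have hs'0 : 0 < s' := Nat.pos_of_mul_pos_left hs0 |> fun _ => by
    rcases Nat.eq_zero_or_pos s' with h' | h'
    · rw [h', mul_zero] at hs0; exact absurd hs0 (lt_irrefl 0)
    · exact h'
  have hps : ¬ p ∣ 2 ^ (2 * r) * s' := by
    intro h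
    rcases (Nat.Prime.dvd_mul hp).1 h with h' | h'
    · have := hp.dvd_of_dvd_pow h'
      have := Nat.le_of_dvd (by norm_num) this
      omega
    · have := Nat.le_of_dvd hs'0 h'
      omega
  have ht : t ∣ 2 ^ (2 * r) * s' := by
    rw [mul_comm (p ^ a) t] at h3
    exact Nat.dvd_of_mul_dvd_mul_right hl0 h3
  have hpt : Nat.Coprime (p ^ M) (t * t) := by
    have h9 : Nat.Coprime p t := by
      rw [Nat.Prime.coprime_iff_not_dvd hp]
      exact fun h => hps (h.trans ht)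
    exact Nat.Coprime.pow_left M (h9.mul_right h9)
  -- cancel `l`
  have h9 : z * (t * t) = z0 * (2 ^ (2 * r) * s') := by
    have h10 : (p ^ a * p ^ a) * (z * (t * t)) = (p ^ a * p ^ a) * (z0 * (2 ^ (2 * r) * s')) := by
      calc (p ^ a * p ^ a) * (z * (t * t)) = z * (p ^ a * t * (p ^ a * t)) := by ring
        _ = p ^ M * (2 ^ (2 * r) * s') := h1
        _ = (z0 * (p ^ a * p ^ a)) * (2 ^ (2 * r) * s') := by rw [h0]
        _ = (p ^ a * p ^ a) * (z0 * (2 ^ (2 * r) * s')) := by ring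
    exact Nat.eq_of_mul_eq_mul_left (by positivity) h10
  have hz0 : z0 ∣ p ^ M := by
    rw [← h0]
    exact ⟨_, rfl⟩
  have hz : z0 ∣ z := by
    have hc : Nat.Coprime z0 (t * t) := Nat.Coprime.coprime_dvd_left hz0 hpt
    refine hc.dvd_of_dvd_mul_right ?_
    rw [h9]
    exact ⟨_, rfl⟩
  obtain ⟨z', rfl⟩ := hz
  have hz00 : 0 < z0 := Nat.pos_of_dvd_of_pos hz0 hpM
  have h10 : z' * (t * t) = 2 ^ (2 * r) * s' := by
    rw [mul_assoc] at h9
    exact Nat.eq_of_mul_eq_mul_left hz00 h9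
  have h11 : t * t ≤ 2 ^ (2 * r) * s' := Nat.le_of_dvd hs0 ⟨z', by rw [← h10]; ring⟩
  refine ⟨?_, ?_⟩
  · rw [mul_comm]
    exact Nat.mul_dvd_mul_left _ h7'
  · calc p ^ a * t * (p ^ a * t) = (p ^ a * p ^ a) * (t * t) := by ring
      _ ≤ (p ^ a * p ^ a) * (2 ^ (2 * r) * 2 ^ δ) := by
        exact Nat.mul_le_mul_left _ (h11.trans (Nat.mul_le_mul_left _ hs'))
      _ = 2 ^ δ * ((2 ^ r * p ^ a) * (2 ^ r * p ^ a)) := by
        rw [two_mul, pow_add]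
        ring

end Pool.Agent.Helper56.SKR
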