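import Mathlib
import Pool.Agent.Helper56.SKR.Pres

/-!
# The universal algebra of the even part
-/

namespace Pool.Agent.Helper56.SKR

open Module Pool.Agent.Helper56.SKW Pool.Agent.Helper56.SKW.PBW Pool.Agent.Helper56.SKU

section flat

variable {R X : Type*} [CommRing R] [Fintype X] [LinearOrder X] {P : Pres R X}

/-- Flatness from the independence of the basis words. -/
theorem isFlat_of_indep (hE : ∀ x y, IsUnit (P.E x y)) (hn : ∀ x, 2 ≤ P.n x)
    (hi : LinearIndependent R (fun r : TI P => pwf (gE P) (bw P r))) : IsFlat hE hn := by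
  classical
  have hsp : ⊤ ≤ Submodule.span R (Set.range fun r : TI P => pwf (gE P) (bw P r)) := by
    intro u _
    refine (Submodule.span_le.2 ?_) (gE_span P u)
    rintro _ ⟨l, rfl⟩
    exact (gE_rel P).span hE hn l
  let b : Basis (TI P) R (EU P) := Basis.mk hi hsp
  have hb : ∀ r, b r = pwf (gE P) (bw P r) := fun r => Basis.mk_apply _ _ r
  have hco : ∀ u r, co hE hn u r = b.repr u r := by
    intro u r
    conv_rhs => rw [co_spec hE hn u]
    have h1 : ∀ r, pwf (gE P) (bw P r) = b r := fun r => (hb r).symm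
    simp only [h1]
    rw [b.repr_sum_self]
  let T := Algebra.leftMulMatrix b
  have hT : ∀ x, Gm hE hn x = T (gE P x) := by
    intro x
    ext r' r
    show co hE hn (gE P x * pwf (gE P) (bw P r)) r' = _
    rw [hco, Algebra.leftMulMatrix_eq_repr_mul, hb]
  have hTw : ∀ l, pwf (Gm hE hn) l = T (pwf (gE P) l) := by
    intro l
    induction l with
    | nil => rw [pwf_nil, pwf_nil, map_one]
    | cons x l ih => rw [pwf_cons, pwf_cons, map_mul, ih, hT]
  constructor
  · have h1 := (gE_rel P).map T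
    have h2 : (fun x => T (gE P x)) = Gm hE hn := by
      funext x
      exact (hT x).symm
    rw [h2] at h1
    exact h1
  · intro r
    rw [hTw, Matrix.mulVec_single_one]
    funext r'
    rw [Matrix.col_apply, Algebra.leftMulMatrix_eq_repr_mul]
    have h1 : b (ti0 hn) = 1 := by rw [hb, bw_ti0, pwf_nil]
    rw [h1, mul_one, ← hb, Basis.repr_self, Finsupp.single_apply, Pi.single_apply]
    by_cases h : r = r'
    · subst h; simp
    · rw [if_neg h, if_neg (Ne.symm h)]

end flat

section cen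

/-- An algebra over its center. -/
@[reducible] def cenAlg (k A : Type*) [Field k] [Ring A] [Algebra k A] :
    Algebra (Subalgebra.center k A) A :=
  Algebra.ofModule (fun r x y => by
    show (r : A) * x * y = (r : A) * (x * y)
    rw [mul_assoc]) (fun r x y => by
    show x * ((r : A) * y) = (r : A) * (x * y)
    rw [← mul_assoc, (Subalgebra.mem_center_iff.1 r.2) x, mul_assoc])

end cen

section even

attribute [local instance] cenAlg

variable {k L₀ L₁ : Type*} [Field k] [AddCommGroup L₀] [Module k L₀] [AddCommGroup L₁]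
  [Module k L₁] {m : Type}

/-- The even part. -/
noncomputable def evAlg (g : LieSuper k L₀ L₁) (b₀ : Basis m k L₀) : Alg k m L₀ where
  e := b₀
  br := g.b00
  par _ := false
  tw _ := LinearMap.id
  tw_e x y := by simp [eps]
  tw_br x y z := by simp [eps]
  anti x y := by
    simp only [eps, Bool.and_self, Bool.false_eq_true, if_false, one_smul]
    exact anti00 g _ _
  self x _ := g.self00 _
  jac x y z := by
    have h1 := g.jac000 (b₀ x) (b₀ y) (b₀ z)
    simp only [eps, Bool.and_self, Bool.false_eq_true, if_false, one_smul]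
    rw [h1]
    abel
  anti2 x y z := by
    simp only [eps, Bool.and_self, Bool.false_eq_true, if_false, one_smul, mul_one]
    exact anti00 g _ _
  jac3 x hx := absurd hx (by simp)
  pr := LinearMap.id
  pr_e x := by simp
  pr_br x y := by simp

variable [Fintype m] [LinearOrder m] {g : LieSuper k L₀ L₁} {b₀ : Basis m k L₀} {p : ℕ}
  {P : m → L₀}

/-- The central elements. -/
noncomputable def DE (h2 : (2 : k) ≠ 0) [hp : Fact p.Prime] [CharP k p]
    (hP0 : ∀ i x, g.b00 (P i) x = ((g.b00 (b₀ i)) ^ p) x) (i : m) :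
    Subalgebra.center k (Env (evAlg g b₀)) :=
  ⟨gen (evAlg g b₀) i ^ p ^ 1 - tau (evAlg g b₀) (P i) - algebraMap k _ 0,
    central_D (evAlg g b₀) h2 p i rfl 1 (P i) (by
      have h1 : (evAlg g b₀).e '' {y | (evAlg g b₀).par y = false} = Set.range b₀ := by
        ext x
        constructor
        · rintro ⟨y, -, rfl⟩
          exact ⟨y, rfl⟩
        · rintro ⟨y, rfl⟩
          exact ⟨y, rfl, rfl⟩
      rw [h1, b₀.span_eq]
      trivial) (fun y => by
      rw [pow_one]
      exact (hP0 i _).symm) 0⟩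

theorem DE_coe (h2 : (2 : k) ≠ 0) [hp : Fact p.Prime] [CharP k p]
    (hP0 : ∀ i x, g.b00 (P i) x = ((g.b00 (b₀ i)) ^ p) x) (i : m) :
    ((DE h2 hP0 i : Subalgebra.center k (Env (evAlg g b₀))) : Env (evAlg g b₀)) =
      gen (evAlg g b₀) i ^ p - tau (evAlg g b₀) (P i) := by
  show gen (evAlg g b₀) i ^ p ^ 1 - tau (evAlg g b₀) (P i) - algebraMap k _ 0 = _
  rw [pow_one, map_zero, sub_zero]

theorem tau_sum (a : L₀) : tau (evAlg g b₀) a = ∑ z, b₀.repr a z • gen (evAlg g b₀) z := by
  conv_lhs => rw [← b₀.sum_repr a]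
  rw [map_sum]
  refine Finset.sum_congr rfl fun z _ => ?_
  rw [map_smul]
  rfl

theorem isRel_env (h2 : (2 : k) ≠ 0) [hp : Fact p.Prime] [CharP k p]
    (hP0 : ∀ i x, g.b00 (P i) x = ((g.b00 (b₀ i)) ^ p) x) :
    IsRel (P0 g b₀ p P) ((MvPolynomial.aeval (DE h2 hP0) :
      MvPolynomial m k →ₐ[k] Subalgebra.center k (Env (evAlg g b₀))) :
        MvPolynomial m k →+* Subalgebra.center k (Env (evAlg g b₀)))
      (gen (evAlg g b₀)) := by
  have hC : ∀ (c : k) (a : Env (evAlg g b₀)), ((MvPolynomial.aeval (DE h2 hP0) :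
      MvPolynomial m k →ₐ[k] Subalgebra.center k (Env (evAlg g b₀))) (MvPolynomial.C c)) • a =
      c • a := by
    intro c a
    rw [MvPolynomial.aeval_C, algebraMap_smul]
  constructor
  · intro x y
    have h1 := tau_comm (evAlg g b₀) x y
    have e0 : (evAlg g b₀).e = b₀ := rfl
    have e1 : eps k (evAlg g b₀).par x y = 1 := by simp [eps, evAlg]
    have e2 : (evAlg g b₀).br ((evAlg g b₀).e x) ((evAlg g b₀).e y) = g.b00 (b₀ x) (b₀ y) := rfl
    rw [e1, e2, one_smul, tau_sum (g.b00 (b₀ x) (b₀ y))] at h1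
    have e6 : (P0 g b₀ p P).E x y = 1 := rfl
    have e7 : (P0 g b₀ p P).C0 x y = 0 := rfl
    have e8 : ∀ z, (P0 g b₀ p P).C x y z = MvPolynomial.C (b₀.repr (g.b00 (b₀ x) (b₀ y)) z) :=
      fun z => rfl
    simp only [e6, e7, e8, map_zero, zero_smul, add_zero, map_one, one_smul, RingHom.coe_coe, hC]
    exact h1
  · intro x
    have e8 : ∀ z, (P0 g b₀ p P).Dc x z = MvPolynomial.C (b₀.repr (P x) z) := fun z => rfl
    have e9 : (P0 g b₀ p P).D0 x = MvPolynomial.X x := rfl
    have e10 : (P0 g b₀ p P).n x = p := rfl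
    simp only [e8, e9, e10, RingHom.coe_coe, hC]
    rw [← tau_sum, MvPolynomial.aeval_X]
    have e11 : (DE h2 hP0 x) • (1 : Env (evAlg g b₀)) =
        ((DE h2 hP0 x : Subalgebra.center k (Env (evAlg g b₀))) : Env (evAlg g b₀)) := by
      show ((DE h2 hP0 x : Subalgebra.center k (Env (evAlg g b₀))) : Env (evAlg g b₀)) * 1 = _
      rw [mul_one]
    rw [e11, DE_coe]
    abel

/-- The basis words are independent, even after mapping to the enveloping algebra. -/
theorem even_inj (h2 : (2 : k) ≠ 0) [hp : Fact p.Prime] [CharP k p]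
    (hP0 : ∀ i x, g.b00 (P i) x = ((g.b00 (b₀ i)) ^ p) x) (c : TI (P0 g b₀ p P) → MvPolynomial m k)
    (h : liftE (isRel_env h2 hP0) (∑ r, c r • pwf (gE (P0 g b₀ p P)) (bw (P0 g b₀ p P) r)) = 0) :
    c = 0 := by
  classical
  let B := evAlg g b₀
  let D := DE h2 hP0
  have hodd : ∀ x, B.par x = true → (fun _ : m => p) x = 2 := fun x hx => absurd hx (by
    simp [B, evAlg])
  have hD : ∀ x, B.par x = false → gen B x ^ (fun _ : m => p) x - (D x : Env B) ∈
      FF k (gen B) ((fun _ : m => p) x) := by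
    intro x _
    have h1 : (D x : Env B) = gen B x ^ p - tau B (P x) := DE_coe h2 hP0 x
    rw [h1, sub_sub_cancel]
    exact FF_mono k _ hp.out.two_le (tau_mem2 B _)
  have hind := uu_indep B (n := fun _ => p) (D := D) h2 hodd hD
  -- the index map
  let J : ((Σ _ : TI (P0 g b₀ p P), (m →₀ ℕ))) → Idx B (fun _ => p) := fun rq =>
    ⟨((rq.2 : m → ℕ), fun x => (rq.1 x : ℕ)), fun x => (rq.1 x).2, fun x hx => absurd hx (by
      simp [B, evAlg])⟩
  have hJ : Function.Injective J := by
    rintro ⟨r, q⟩ ⟨r', q'⟩ hrq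
    have h1 := congrArg (fun i : Idx B (fun _ => p) => i.1.1) hrq
    have h3 := congrArg (fun i : Idx B (fun _ => p) => i.1.2) hrq
    have h4 : q = q' := DFunLike.coe_injective h1
    have h5 : r = r' := by
      funext x
      exact Fin.ext (congrFun h3 x)
    rw [h4, h5]
  have hind2 := hind.comp J hJ
  have hsm : ∀ (q : MvPolynomial m k) (a : Env B), (MvPolynomial.aeval D q) • a =
      ∑ ν ∈ q.support, q.coeff ν • (((∏ x, D x ^ ν x : Subalgebra.center k (Env B)) : Env B) *
        a) := by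
    intro q a
    rw [MvPolynomial.aeval_def, MvPolynomial.eval₂_eq', Finset.sum_smul]
    refine Finset.sum_congr rfl fun ν _ => ?_
    rw [← smul_smul, algebraMap_smul]
    congr 1
  rw [map_sum] at h
  simp only [liftE_smul, liftE_pwf] at h
  have h1 : ∑ rq ∈ Finset.univ.sigma (fun r => (c r).support), (c rq.1).coeff rq.2 •
      uu B D (J rq).1.1 (J rq).1.2 = 0 := by
    rw [Finset.sum_sigma]
    refine Eq.trans ?_ h
    refine Finset.sum_congr rfl fun r _ => ?_
    have h3 := hsm (c r) (pwf (gen B) (bw (P0 g b₀ p P) r))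
    exact h3.symm
  have h3 := linearIndependent_iff'.1 hind2 _ _ h1
  funext r
  rw [Pi.zero_apply]
  ext ν
  rw [MvPolynomial.coeff_zero]
  by_cases hν : ν ∈ (c r).support
  · exact h3 ⟨r, ν⟩ (Finset.mem_sigma.2 ⟨Finset.mem_univ _, hν⟩)
  · exact MvPolynomial.notMem_support_iff.1 hν

theorem even_indep (h2 : (2 : k) ≠ 0) [hp : Fact p.Prime] [CharP k p]
    (hP0 : ∀ i x, g.b00 (P i) x = ((g.b00 (b₀ i)) ^ p) x) :
    LinearIndependent (MvPolynomial m k)
      (fun r : TI (P0 g b₀ p P) => pwf (gE (P0 g b₀ p P)) (bw (P0 g b₀ p P) r)) := by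
  rw [Fintype.linearIndependent_iff]
  intro c hc
  have h1 := even_inj h2 hP0 c (by rw [hc, map_zero])
  intro i
  rw [h1]
  rfl

theorem even_flat (h2 : (2 : k) ≠ 0) [hp : Fact p.Prime] [CharP k p]
    (hP0 : ∀ i x, g.b00 (P i) x = ((g.b00 (b₀ i)) ^ p) x) :
    IsFlat (P0_hE g b₀ p P) (P0_hn g b₀ p P hp.out.two_le) :=
  isFlat_of_indep _ _ (even_indep h2 hP0)

/-- The universal algebra of the even part has no zero divisors. -/
theorem even_domain (h2 : (2 : k) ≠ 0) [hp : Fact p.Prime] [CharP k p]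
    (hP0 : ∀ i x, g.b00 (P i) x = ((g.b00 (b₀ i)) ^ p) x) : IsDomain (EU (P0 g b₀ p P)) := by
  have hinj : Function.Injective (liftE (isRel_env h2 hP0)) := by
    rw [injective_iff_map_eq_zero]
    intro u hu
    have h1 := co_spec (P0_hE g b₀ p P) (P0_hn g b₀ p P hp.out.two_le) u
    rw [h1] at hu ⊢
    rw [even_inj h2 hP0 _ hu]
    simp
  have hnt : Nontrivial (Env (evAlg g b₀)) := env_nontrivial _ h2
  have hnz : NoZeroDivisors (Env (evAlg g b₀)) := env_domain _ h2 (fun _ => rfl)
  have h3 : NoZeroDivisors (EU (P0 g b₀ p P)) := hinj.noZeroDivisors _ (map_zero _) (map_mul _)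
  have h4 : Nontrivial (EU (P0 g b₀ p P)) := (liftE (isRel_env h2 hP0)).domain_nontrivial
  exact NoZeroDivisors.to_isDomain _

end even

end Pool.Agent.Helper56.SKR
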