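import Mathlib
import Pool.Agent.Helper56.SKR.Even
import Pool.Agent.Helper56.SKR.Rep
import Pool.Agent.Helper56.SKW.Irr

/-!
# Modules and representations of the universal algebras
-/

namespace Pool.Agent.Helper56.SKR

open Module Pool.Agent.Helper56.SKW Pool.Agent.Helper56.SKW.PBW Pool.Agent.Helper56.SKU

universe u

section evenmod

variable {k L₀ L₁ : Type*} [Field k] [AddCommGroup L₀] [Module k L₀] [AddCommGroup L₁]
  [Module k L₁]

/-- A module over the even part `L₀` of a Lie superalgebra. -/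
structure EvenModule (g : LieSuper k L₀ L₁) (V : Type*) [AddCommGroup V] [Module k V] where
  ρ : L₀ →ₗ[k] Module.End k V
  map : ∀ x x', ρ (g.b00 x x') = ρ x * ρ x' - ρ x' * ρ x

/-- Irreducibility: `V ≠ 0` and the only invariant subspaces are `0` and `V`. -/
def EvenModule.IsIrreducible {g : LieSuper k L₀ L₁} {V : Type*} [AddCommGroup V] [Module k V]
    (M : EvenModule g V) : Prop :=
  Nontrivial V ∧ ∀ W : Submodule k V, (∀ x, ∀ v ∈ W, M.ρ x v ∈ W) → W = ⊥ ∨ W = ⊤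

end evenmod

section flat

variable {k : Type u} {L₀ L₁ : Type*} [Field k] [AddCommGroup L₀] [Module k L₀] [AddCommGroup L₁]
  [Module k L₁] {m n : Type} [Fintype m] [Fintype n] [DecidableEq m] [DecidableEq n]
  {g : LieSuper k L₀ L₁} {b₀ : Basis m k L₀} {b₁ : Basis n k L₁} {p : ℕ} {P : m → L₀}

/-- The universal presentation is flat. -/
theorem full_flat (h2 : (2 : k) ≠ 0) [hp : Fact p.Prime] [CharP k p]
    [LinearOrder (Unit ⊕ (m ⊕ n))]
    (hP0 : ∀ i x, g.b00 (P i) x = ((g.b00 (b₀ i)) ^ p) x)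
    (hP1 : ∀ i y, g.b01 (P i) y = ((g.b01 (b₀ i)) ^ p) y) :
    IsFlat (PG_hE g b₀ b₁ p P) (PG_hn g b₀ b₁ p P hp.out.two_le) := by
  classical
  let R := MvPolynomial m k
  let K := FractionRing R
  have hch : CharP K p := charP_of_injective_algebraMap (algebraMap k K).injective p
  let ζ : m → K := fun i => algebraMap R K (MvPolynomial.X i)
  obtain ⟨M, _, _, G, m0, hfin, hrank, hG, hsp⟩ := exists_plus (K := K) h2 g b₀ b₁ p P hP0 hP1 ζ
  have hrel := isRel_of_repRel h2 hG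
  refine isFlat_of_real _ _ (K := K) (M := M) _ ?_ G hrel m0 hsp ?_
  · have h1 : ((MvPolynomial.aeval ζ : R →ₐ[k] K) : R →+* K) = algebraMap R K := by
      apply MvPolynomial.ringHom_ext
      · intro a
        show MvPolynomial.aeval ζ (MvPolynomial.C a) = _
        rw [MvPolynomial.aeval_C]
        rfl
      · intro i
        show MvPolynomial.aeval ζ (MvPolynomial.X i) = _
        rw [MvPolynomial.aeval_X]
    rw [h1]
    exact IsFractionRing.injective R K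
  · rw [hrank, PG_prod]

end flat

section act

variable {k L₀ L₁ : Type*} [Field k] [AddCommGroup L₀] [Module k L₀] [AddCommGroup L₁]
  [Module k L₁] {m n : Type} [Fintype m] [Fintype n] [DecidableEq m] [DecidableEq n]
  {g : LieSuper k L₀ L₁} {b₀ : Basis m k L₀} {b₁ : Basis n k L₁} {p : ℕ} {P : m → L₀}

theorem act_comm {A : Type*} [Ring A] [Algebra k A] (ρ : EU (PG g b₀ b₁ p P) →+* A)
    (hρ : ∀ (c : k) a, ρ ((MvPolynomial.C c : MvPolynomial m k) • a) = c • ρ a) (x y : m ⊕ n) :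
    ρ (gE _ (Sum.inr x)) * ρ (gE _ (Sum.inr y)) =
      eps k (parZ m n) x y • (ρ (gE _ (Sum.inr y)) * ρ (gE _ (Sum.inr x))) +
      ∑ z, (b₀.prod b₁).repr (sbr g ((b₀.prod b₁) x) ((b₀.prod b₁) y)) z •
        ρ (gE _ (Sum.inr z)) := by
  have h1 := congrArg ρ ((gE_rel (PG g b₀ b₁ p P)).comm (Sum.inr x) (Sum.inr y))
  have e1 : (PG g b₀ b₁ p P).E (Sum.inr x) (Sum.inr y) =
      MvPolynomial.C (eps k (parZ m n) x y) := by
    rcases x with x | x <;> rcases y with y | y <;> simp [PG, odl, parZ, eps]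
  have e2 : (PG g b₀ b₁ p P).C0 (Sum.inr x) (Sum.inr y) = 0 := by
    rcases x with x | x <;> rcases y with y | y <;> rfl
  have e3 : ∀ z, (PG g b₀ b₁ p P).C (Sum.inr x) (Sum.inr y) (Sum.inl z) = 0 := fun z => rfl
  have e4 : ∀ z, (PG g b₀ b₁ p P).C (Sum.inr x) (Sum.inr y) (Sum.inr z) = MvPolynomial.C
      ((b₀.prod b₁).repr (sbr g ((b₀.prod b₁) x) ((b₀.prod b₁) y)) z) := fun z => rfl
  rw [e1, e2, Fintype.sum_sum_type] at h1
  simp only [e3, e4, map_zero, zero_smul, Finset.sum_const_zero, zero_add, add_zero,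
    RingHom.id_apply, map_add, map_mul, map_sum, hρ] at h1
  exact h1

theorem exists_act {A : Type*} [Ring A] [Algebra k A]
    (ρ : EU (PG g b₀ b₁ p P) →+* A)
    (hρ : ∀ (c : k) a, ρ ((MvPolynomial.C c : MvPolynomial m k) • a) = c • ρ a) :
    ∃ (ρ₀ : L₀ →ₗ[k] A) (ρ₁ : L₁ →ₗ[k] A) (σ : A),
      (∀ i, ρ₀ (b₀ i) = ρ (gE _ (Sum.inr (Sum.inl i)))) ∧
      (∀ j, ρ₁ (b₁ j) = ρ (gE _ (Sum.inr (Sum.inr j)))) ∧ σ = ρ (gE _ (Sum.inl ())) ∧
      σ * σ = 1 ∧ (∀ x, σ * ρ₀ x = ρ₀ x * σ) ∧ (∀ y, σ * ρ₁ y = -(ρ₁ y * σ)) ∧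
      (∀ x x', ρ₀ (g.b00 x x') = ρ₀ x * ρ₀ x' - ρ₀ x' * ρ₀ x) ∧
      (∀ x y, ρ₁ (g.b01 x y) = ρ₀ x * ρ₁ y - ρ₁ y * ρ₀ x) ∧
      (∀ y y', ρ₀ (g.b11 y y') = ρ₁ y * ρ₁ y' + ρ₁ y' * ρ₁ y) := by
  let ρ₀ : L₀ →ₗ[k] A := b₀.constr k fun i => ρ (gE _ (Sum.inr (Sum.inl i)))
  let ρ₁ : L₁ →ₗ[k] A := b₁.constr k fun i => ρ (gE _ (Sum.inr (Sum.inr i)))
  have h0 : ∀ i, ρ₀ (b₀ i) = ρ (gE _ (Sum.inr (Sum.inl i))) := fun i => b₀.constr_basis _ _ i
  have h1 : ∀ i, ρ₁ (b₁ i) = ρ (gE _ (Sum.inr (Sum.inr i))) := fun i => b₁.constr_basis _ _ i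
  have hsum0 : ∀ a : L₀, ∑ z, (b₀.prod b₁).repr (a, 0) z • ρ (gE (PG g b₀ b₁ p P) (Sum.inr z)) =
      ρ₀ a := by
    intro a
    rw [Fintype.sum_sum_type]
    simp only [Basis.prod_repr_inl, Basis.prod_repr_inr, map_zero, Finsupp.coe_zero,
      Pi.zero_apply, zero_smul, Finset.sum_const_zero, add_zero]
    conv_rhs => rw [← b₀.sum_repr a]
    rw [map_sum]
    refine Finset.sum_congr rfl fun z _ => ?_
    rw [map_smul, h0]
  have hsum1 : ∀ a : L₁, ∑ z, (b₀.prod b₁).repr (0, a) z • ρ (gE (PG g b₀ b₁ p P) (Sum.inr z)) =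
      ρ₁ a := by
    intro a
    rw [Fintype.sum_sum_type]
    simp only [Basis.prod_repr_inl, Basis.prod_repr_inr, map_zero, Finsupp.coe_zero,
      Pi.zero_apply, zero_smul, Finset.sum_const_zero, zero_add]
    conv_rhs => rw [← b₁.sum_repr a]
    rw [map_sum]
    refine Finset.sum_congr rfl fun z _ => ?_
    rw [map_smul, h1]
  have hss := congrArg ρ ((gE_rel (PG g b₀ b₁ p P)).pow (Sum.inl ()))
  have hsx : ∀ x : m ⊕ n, ρ (gE (PG g b₀ b₁ p P) (Sum.inl ())) * ρ (gE _ (Sum.inr x)) =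
      (if parZ m n x then (-1 : k) else 1) •
        (ρ (gE _ (Sum.inr x)) * ρ (gE (PG g b₀ b₁ p P) (Sum.inl ()))) := by
    intro x
    have h3 := congrArg ρ ((gE_rel (PG g b₀ b₁ p P)).comm (Sum.inl ()) (Sum.inr x))
    have e2 : ∀ z, (PG g b₀ b₁ p P).C (Sum.inl ()) (Sum.inr x) z = 0 := by
      rintro (z | z) <;> rfl
    have e3 : (PG g b₀ b₁ p P).C0 (Sum.inl ()) (Sum.inr x) = 0 := rfl
    have e1 : (PG g b₀ b₁ p P).E (Sum.inl ()) (Sum.inr x) =
        MvPolynomial.C (if parZ m n x then (-1 : k) else 1) := by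
      rcases x with x | x <;> simp [PG, odl, parZ]
    rw [e1] at h3
    simp only [e2, e3, map_zero, zero_smul, Finset.sum_const_zero, add_zero, RingHom.id_apply,
      map_mul, hρ] at h3
    exact h3
  refine ⟨ρ₀, ρ₁, ρ (gE _ (Sum.inl ())), h0, h1, rfl, ?_, ?_, ?_, ?_, ?_, ?_⟩
  · have e2 : ∀ z, (PG g b₀ b₁ p P).Dc (Sum.inl ()) z = 0 := by
      rintro (z | z) <;> rfl
    have e3 : (PG g b₀ b₁ p P).D0 (Sum.inl ()) = 1 := rfl
    have e4 : (PG g b₀ b₁ p P).n (Sum.inl ()) = 2 := rfl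
    simp only [e2, e3, e4, map_zero, zero_smul, Finset.sum_const_zero, zero_add, map_one,
      one_smul, map_pow] at hss
    rw [← pow_two, hss]
  · have h3 : LinearMap.mulLeft k (ρ (gE (PG g b₀ b₁ p P) (Sum.inl ()))) ∘ₗ ρ₀ =
        LinearMap.mulRight k (ρ (gE (PG g b₀ b₁ p P) (Sum.inl ()))) ∘ₗ ρ₀ := by
      refine b₀.ext fun i => ?_
      show ρ (gE (PG g b₀ b₁ p P) (Sum.inl ())) * ρ₀ (b₀ i) =
        ρ₀ (b₀ i) * ρ (gE (PG g b₀ b₁ p P) (Sum.inl ()))
      rw [h0, hsx]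
      simp [parZ]
    exact fun x => LinearMap.congr_fun h3 x
  · have h3 : LinearMap.mulLeft k (ρ (gE (PG g b₀ b₁ p P) (Sum.inl ()))) ∘ₗ ρ₁ =
        -(LinearMap.mulRight k (ρ (gE (PG g b₀ b₁ p P) (Sum.inl ()))) ∘ₗ ρ₁) := by
      refine b₁.ext fun i => ?_
      show ρ (gE (PG g b₀ b₁ p P) (Sum.inl ())) * ρ₁ (b₁ i) =
        -(ρ₁ (b₁ i) * ρ (gE (PG g b₀ b₁ p P) (Sum.inl ())))
      rw [h1, hsx]
      simp [parZ]
    exact fun x => LinearMap.congr_fun h3 x
  · have h3 : g.b00.compr₂ ρ₀ = (LinearMap.mul k A).compl₁₂ ρ₀ ρ₀ -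
        ((LinearMap.mul k A).compl₁₂ ρ₀ ρ₀).flip := by
      refine b₀.ext fun i => b₀.ext fun j => ?_
      show ρ₀ (g.b00 (b₀ i) (b₀ j)) = ρ₀ (b₀ i) * ρ₀ (b₀ j) - ρ₀ (b₀ j) * ρ₀ (b₀ i)
      have h4 := act_comm ρ hρ (Sum.inl i) (Sum.inl j)
      have h5 : sbr g ((b₀.prod b₁) (Sum.inl i)) ((b₀.prod b₁) (Sum.inl j)) =
          (g.b00 (b₀ i) (b₀ j), 0) := by
        rw [sbr_apply]
        simp
      rw [h5, hsum0] at h4
      rw [h0, h0, h4]
      simp [eps, parZ]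
    exact fun x x' => LinearMap.congr_fun (LinearMap.congr_fun h3 x) x'
  · have h3 : g.b01.compr₂ ρ₁ = (LinearMap.mul k A).compl₁₂ ρ₀ ρ₁ -
        ((LinearMap.mul k A).compl₁₂ ρ₁ ρ₀).flip := by
      refine b₀.ext fun i => b₁.ext fun j => ?_
      show ρ₁ (g.b01 (b₀ i) (b₁ j)) = ρ₀ (b₀ i) * ρ₁ (b₁ j) - ρ₁ (b₁ j) * ρ₀ (b₀ i)
      have h4 := act_comm ρ hρ (Sum.inl i) (Sum.inr j)
      have h5 : sbr g ((b₀.prod b₁) (Sum.inl i)) ((b₀.prod b₁) (Sum.inr j)) =
          (0, g.b01 (b₀ i) (b₁ j)) := by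
        rw [sbr_apply]
        simp
      rw [h5, hsum1] at h4
      rw [h0, h1, h4]
      simp [eps, parZ]
    exact fun x x' => LinearMap.congr_fun (LinearMap.congr_fun h3 x) x'
  · have h3 : g.b11.compr₂ ρ₀ = (LinearMap.mul k A).compl₁₂ ρ₁ ρ₁ +
        ((LinearMap.mul k A).compl₁₂ ρ₁ ρ₁).flip := by
      refine b₁.ext fun i => b₁.ext fun j => ?_
      show ρ₀ (g.b11 (b₁ i) (b₁ j)) = ρ₁ (b₁ i) * ρ₁ (b₁ j) + ρ₁ (b₁ j) * ρ₁ (b₁ i)
      have h4 := act_comm ρ hρ (Sum.inr i) (Sum.inr j)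
      have h5 : sbr g ((b₀.prod b₁) (Sum.inr i)) ((b₀.prod b₁) (Sum.inr j)) =
          (g.b11 (b₁ i) (b₁ j), 0) := by
        rw [sbr_apply]
        simp
      rw [h5, hsum0] at h4
      rw [h1, h1, h4]
      simp [eps, parZ]
    exact fun x x' => LinearMap.congr_fun (LinearMap.congr_fun h3 x) x'

/-- The letters generate: subspaces stable under the letters are invariant. -/
theorem inv_of_letters {R X F V : Type*} [CommRing R] [Fintype X] {Pr : Pres R X} [Field F]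
    [AddCommGroup V] [Module F V] (ρ : EU Pr →+* Module.End F V) (φ : R →+* F)
    (hρ : ∀ r a, ρ (r • a) = φ r • ρ a) (W : Submodule F V)
    (hW : ∀ x, ∀ w ∈ W, ρ (gE Pr x) w ∈ W) : Inv ρ W := by
  intro a
  have h1 := gE_span Pr a
  induction h1 using Submodule.span_induction with
  | mem a ha =>
    obtain ⟨l, rfl⟩ := ha
    induction l with
    | nil =>
      intro w hw
      rw [pwf_nil, map_one]
      exact hw
    | cons x l ih =>
      intro w hw
      rw [pwf_cons, map_mul]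
      exact hW x _ (ih w hw)
  | zero =>
    intro w _
    rw [map_zero]
    exact W.zero_mem
  | add a b _ _ ha hb =>
    intro w hw
    rw [map_add]
    exact W.add_mem (ha w hw) (hb w hw)
  | smul c a _ ha =>
    intro w hw
    rw [hρ]
    exact W.smul_mem _ (ha w hw)

end act

section scal

variable {A F V : Type*} [Ring A] [Field F] [IsAlgClosed F] [AddCommGroup V] [Module F V]
  [FiniteDimensional F V]

/-- Central elements act by scalars. -/
theorem central_scalar {ρ : A →+* Module.End F V} (h : Irr ρ) (z : A) (hz : ∀ a, z * a = a * z) :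
    ∃ c : F, ρ z = c • (1 : Module.End F V) := by
  have hnt := h.1
  obtain ⟨c, hc⟩ := Module.End.exists_eigenvalue (ρ z)
  refine ⟨c, ?_⟩
  have hst : Inv ρ ((ρ z).eigenspace c) := by
    intro a v hv
    rw [Module.End.mem_eigenspace_iff] at hv ⊢
    rw [← Module.End.mul_apply, ← map_mul, hz, map_mul, Module.End.mul_apply, hv, map_smul]
  rcases h.2 _ hst with h1 | h1
  · exact absurd h1 (Module.End.hasEigenvalue_iff.1 hc)
  · apply LinearMap.ext
    intro v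
    have : v ∈ (ρ z).eigenspace c := by rw [h1]; trivial
    exact (Module.End.mem_eigenspace_iff).1 this

/-- An irreducible representation of an algebra over a commutative ring has a central
character. -/
theorem exists_char {R : Type*} [CommRing R] [Algebra R A] {ρ : A →+* Module.End F V}
    (h : Irr ρ) : ∃ φ : R →+* F, ∀ (r : R) a, ρ (r • a) = φ r • ρ a := by
  have hnt := h.1
  have h1 : ∀ r : R, ∃ c : F, ρ (algebraMap R A r) = c • (1 : Module.End F V) := fun r =>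
    central_scalar h _ (fun a => Algebra.commutes r a)
  choose φ hφ using h1
  have hinj : ∀ a b : F, a • (1 : Module.End F V) = b • (1 : Module.End F V) → a = b := by
    intro a b hab
    obtain ⟨v, hv⟩ := exists_ne (0 : V)
    have h2 := LinearMap.congr_fun hab v
    simp only [LinearMap.smul_apply, Module.End.one_apply] at h2
    exact smul_left_injective F hv h2
  refine ⟨{ toFun := φ, map_one' := ?_, map_mul' := ?_, map_zero' := ?_, map_add' := ?_ }, ?_⟩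
  · apply hinj
    rw [← hφ, map_one, map_one, one_smul]
  · intro a b
    apply hinj
    rw [← hφ, map_mul, map_mul, hφ, hφ, smul_mul_smul_comm, one_mul]
  · apply hinj
    rw [← hφ, map_zero, map_zero, zero_smul]
  · intro a b
    apply hinj
    rw [← hφ, map_add, map_add, hφ, hφ, add_smul]
  · intro r a
    rw [Algebra.smul_def, map_mul, hφ, smul_mul_assoc, one_mul]
    rfl

end scal

section super

variable {k L₀ L₁ : Type*} [Field k] [AddCommGroup L₀] [Module k L₀] [AddCommGroup L₁]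
  [Module k L₁] {m n : Type} [Fintype m] [Fintype n] [DecidableEq m] [DecidableEq n]
  {g : LieSuper k L₀ L₁} {b₀ : Basis m k L₀} {b₁ : Basis n k L₁} {p : ℕ} {P : m → L₀}
  {V : Type*} [AddCommGroup V] [Module k V] [FiniteDimensional k V]

/-- Irreducible representations are irreducible graded modules. -/
theorem super_of_irr [IsAlgClosed k] (h2 : (2 : k) ≠ 0) (ρ : EU (PG g b₀ b₁ p P) →+* Module.End k V)
    (hρ : ∀ (c : k) a, ρ ((MvPolynomial.C c : MvPolynomial m k) • a) = c • ρ a)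
    (hirr : Irr ρ) : ∃ (W : Submodule k V) (M : SuperModule g W), M.IsIrreducible ∧
      finrank k W = finrank k V := by
  have hnt := hirr.1
  obtain ⟨φ, hφ⟩ := exists_char (R := MvPolynomial m k) hirr
  obtain ⟨ρ₀, ρ₁, σ, h0, h1, hσ, hss, hs0, hs1, m00, m01, m11⟩ := exists_act ρ hρ
  obtain ⟨W, hW0, hW1, hWσ, M, hM⟩ := exists_irreducible h2 g ρ₀ ρ₁ σ hss hs0 hs1 m00 m01 m11
  refine ⟨W, M, hM, ?_⟩
  have hinv : Inv ρ W := by
    refine inv_of_letters ρ φ hφ W ?_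
    rintro (⟨⟩ | (x | x))
    · rw [← hσ]
      exact hWσ
    · rw [← h0]
      exact hW0 _
    · rw [← h1]
      exact hW1 _
  rcases hirr.2 W hinv with h3 | h3
  · have := hM.1
    rw [Submodule.nontrivial_iff_ne_bot] at this
    exact absurd h3 this
  · rw [h3, finrank_top]

/-- Irreducible graded modules are irreducible representations. -/
theorem irr_of_super [IsAlgClosed k] [Fact p.Prime] [CharP k p] (h2 : (2 : k) ≠ 0)
    (hP0 : ∀ i x, g.b00 (P i) x = ((g.b00 (b₀ i)) ^ p) x)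
    (hP1 : ∀ i y, g.b01 (P i) y = ((g.b01 (b₀ i)) ^ p) y) (M : SuperModule g V)
    (hM : M.IsIrreducible) : ∃ (ζ : m → k) (ρ : EU (PG g b₀ b₁ p P) →+* Module.End k V),
      Irr ρ ∧ ∀ (r : MvPolynomial m k) a, ρ (r • a) = MvPolynomial.aeval ζ r • ρ a := by
  obtain ⟨σ, hσ0, hσ1⟩ := exists_parity M
  obtain ⟨ζ, hζ⟩ := exists_repRel p h2 M hM hσ0 hσ1 b₀ b₁ P hP0 hP1
  have hrel := isRel_of_repRel h2 hζ
  refine ⟨ζ, liftE hrel, ⟨hM.1, ?_⟩, fun r a => liftE_smul hrel r a⟩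
  intro W hW
  have hl : ∀ x, ∀ v ∈ W, gV M σ b₀ b₁ x v ∈ W := by
    intro x v hv
    rw [← liftE_gE hrel x]
    exact hW _ v hv
  refine irr_stable h2 M hM hσ0 hσ1 W ?_ ?_ (hl (Sum.inl ()))
  · intro x v hv
    have h3 : (⊤ : Submodule k L₀) ≤ W.comap ((LinearMap.applyₗ v).comp M.ρ₀) := by
      rw [← b₀.span_eq, Submodule.span_le]
      rintro _ ⟨i, rfl⟩
      exact hl (Sum.inr (Sum.inl i)) v hv
    exact h3 (x := x) trivial
  · intro x v hv
    have h3 : (⊤ : Submodule k L₁) ≤ W.comap ((LinearMap.applyₗ v).comp M.ρ₁) := by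
      rw [← b₁.span_eq, Submodule.span_le]
      rintro _ ⟨i, rfl⟩
      exact hl (Sum.inr (Sum.inr i)) v hv
    exact h3 (x := x) trivial

/-- Irreducible representations of the even part. -/
theorem even_of_irr [IsAlgClosed k] (ρ : EU (P0 g b₀ p P) →+* Module.End k V)
    (hρ : ∀ (c : k) a, ρ ((MvPolynomial.C c : MvPolynomial m k) • a) = c • ρ a)
    (hirr : Irr ρ) : ∃ M : EvenModule g V, M.IsIrreducible := by
  obtain ⟨φ, hφ⟩ := exists_char (R := MvPolynomial m k) hirr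
  let ρ₀ : L₀ →ₗ[k] Module.End k V := b₀.constr k fun i => ρ (gE _ i)
  have h0 : ∀ i, ρ₀ (b₀ i) = ρ (gE _ i) := fun i => b₀.constr_basis _ _ i
  have h3 : g.b00.compr₂ ρ₀ = (LinearMap.mul k (Module.End k V)).compl₁₂ ρ₀ ρ₀ -
      ((LinearMap.mul k (Module.End k V)).compl₁₂ ρ₀ ρ₀).flip := by
    refine b₀.ext fun i => b₀.ext fun j => ?_
    show ρ₀ (g.b00 (b₀ i) (b₀ j)) = ρ₀ (b₀ i) * ρ₀ (b₀ j) - ρ₀ (b₀ j) * ρ₀ (b₀ i)
    have h4 := congrArg ρ ((gE_rel (P0 g b₀ p P)).comm i j)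
    have e6 : (P0 g b₀ p P).E i j = 1 := rfl
    have e7 : (P0 g b₀ p P).C0 i j = 0 := rfl
    have e8 : ∀ z, (P0 g b₀ p P).C i j z = MvPolynomial.C (b₀.repr (g.b00 (b₀ i) (b₀ j)) z) :=
      fun z => rfl
    simp only [e6, e7, e8, map_zero, zero_smul, add_zero, map_one, one_smul, RingHom.id_apply,
      map_mul, map_add, map_sum, hρ] at h4
    have h5 : ∑ z, b₀.repr (g.b00 (b₀ i) (b₀ j)) z • ρ (gE (P0 g b₀ p P) z) =
        ρ₀ (g.b00 (b₀ i) (b₀ j)) := by
      conv_rhs => rw [← b₀.sum_repr (g.b00 (b₀ i) (b₀ j))]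
      rw [map_sum]
      refine Finset.sum_congr rfl fun z _ => ?_
      rw [map_smul, h0]
    rw [h5] at h4
    rw [h0, h0, h4]
    abel
  refine ⟨⟨ρ₀, fun x x' => LinearMap.congr_fun (LinearMap.congr_fun h3 x) x'⟩, hirr.1, ?_⟩
  intro W hW
  refine hirr.2 W (inv_of_letters ρ φ hφ W fun x => ?_)
  rw [← h0]
  exact hW _

/-- Irreducible modules over the even part are irreducible representations. -/
theorem irr_of_even [IsAlgClosed k] [Fact p.Prime] [CharP k p]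
    (hP0 : ∀ i x, g.b00 (P i) x = ((g.b00 (b₀ i)) ^ p) x) (M : EvenModule g V)
    (hM : M.IsIrreducible) : ∃ (ζ : m → k) (ρ : EU (P0 g b₀ p P) →+* Module.End k V),
      Irr ρ ∧ ∀ (r : MvPolynomial m k) a, ρ (r • a) = MvPolynomial.aeval ζ r • ρ a := by
  have hnt := hM.1
  have hz : ∀ i, ∃ c : k, M.ρ (b₀ i) ^ p - M.ρ (P i) = c • (1 : Module.End k V) := by
    intro i
    have hc : ∀ x, (M.ρ (b₀ i) ^ p - M.ρ (P i)) * M.ρ x =
        M.ρ x * (M.ρ (b₀ i) ^ p - M.ρ (P i)) := by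
      intro x
      have h3 := comm_pow p M.ρ (M.ρ (b₀ i)) (g.b00 (b₀ i)) (fun x => M.map _ _) x
      rw [← hP0, M.map] at h3
      rw [sub_mul, mul_sub]
      linear_combination (norm := abel) -h3
    set z := M.ρ (b₀ i) ^ p - M.ρ (P i) with hzdef
    obtain ⟨c, hcc⟩ := Module.End.exists_eigenvalue z
    refine ⟨c, ?_⟩
    rcases hM.2 (z.eigenspace c) (fun x v hv => by
      rw [Module.End.mem_eigenspace_iff] at hv ⊢
      rw [← Module.End.mul_apply, hc, Module.End.mul_apply, hv, map_smul]) with h | h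
    · exact absurd h (Module.End.hasEigenvalue_iff.1 hcc)
    · apply LinearMap.ext
      intro v
      have : v ∈ z.eigenspace c := by rw [h]; trivial
      exact (Module.End.mem_eigenspace_iff).1 this
  choose ζ hζ using hz
  have hsum : ∀ a : L₀, ∑ z, b₀.repr a z • M.ρ (b₀ z) = M.ρ a := by
    intro a
    conv_rhs => rw [← b₀.sum_repr a]
    rw [map_sum]
    refine Finset.sum_congr rfl fun z _ => ?_
    rw [map_smul]
  have hrel : IsRel (P0 g b₀ p P) ((MvPolynomial.aeval ζ : MvPolynomial m k →ₐ[k] k) :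
      MvPolynomial m k →+* k) (fun i => M.ρ (b₀ i)) := by
    constructor
    · intro x y
      have e6 : (P0 g b₀ p P).E x y = 1 := rfl
      have e7 : (P0 g b₀ p P).C0 x y = 0 := rfl
      have e8 : ∀ z, (P0 g b₀ p P).C x y z = MvPolynomial.C (b₀.repr (g.b00 (b₀ x) (b₀ y)) z) :=
        fun z => rfl
      simp only [e6, e7, e8, map_zero, zero_smul, add_zero, map_one, one_smul, RingHom.coe_coe,
        MvPolynomial.aeval_C, Algebra.algebraMap_self, RingHom.id_apply]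
      rw [hsum, M.map]
      abel
    · intro x
      have e8 : ∀ z, (P0 g b₀ p P).Dc x z = MvPolynomial.C (b₀.repr (P x) z) := fun z => rfl
      have e9 : (P0 g b₀ p P).D0 x = MvPolynomial.X x := rfl
      have e10 : (P0 g b₀ p P).n x = p := rfl
      simp only [e8, e9, e10, RingHom.coe_coe, MvPolynomial.aeval_C, MvPolynomial.aeval_X,
        Algebra.algebraMap_self, RingHom.id_apply]
      rw [hsum, ← hζ]
      abel
  refine ⟨ζ, liftE hrel, ⟨hnt, ?_⟩, fun r a => liftE_smul hrel r a⟩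
  intro W hW
  refine hM.2 W ?_
  intro x v hv
  have h3 : (⊤ : Submodule k L₀) ≤ W.comap ((LinearMap.applyₗ v).comp M.ρ) := by
    rw [← b₀.span_eq, Submodule.span_le]
    rintro _ ⟨i, rfl⟩
    show M.ρ (b₀ i) v ∈ W
    have h4 := hW (gE _ i) v hv
    rw [liftE_gE] at h4
    exact h4
  exact h3 (x := x) trivial

end super

end Pool.Agent.Helper56.SKR
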