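import Mathlib
import Pool.Agent.Helper56.SKR.Act
import Pool.Agent.Helper56.SKR.Transfer

/-!
# Degrees of irreducible representations of flat families
-/

namespace Pool.Agent.Helper56.SKR

open Module Pool.Agent.Helper56.SKU

universe u

section spec

variable {k : Type u} [Field k] {m X : Type} [Fintype X] [LinearOrder X]
  {Pr : Pres (MvPolynomial m k) X} {hE : ∀ x y, IsUnit (Pr.E x y)} {hn : ∀ x, 2 ≤ Pr.n x}

/-- The regular representation over a field. -/
noncomputable def regRep (hfl : IsFlat hE hn) {F : Type u} [Field F]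
    (φ : MvPolynomial m k →+* F) : EU Pr →+* Module.End F (TI Pr → F) :=
  ((Matrix.toLinAlgEquiv' (R := F) (n := TI Pr)).toRingEquiv.toRingHom).comp
    (liftE (hfl.rel.mapM φ))

theorem regRep_smul (hfl : IsFlat hE hn) {F : Type u} [Field F]
    (φ : MvPolynomial m k →+* F) (r : MvPolynomial m k) (a : EU Pr) :
    regRep hfl φ (r • a) = φ r • regRep hfl φ a := by
  show (Matrix.toLinAlgEquiv' (R := F) (n := TI Pr)) (liftE (hfl.rel.mapM φ) (r • a)) =
    φ r • (Matrix.toLinAlgEquiv' (R := F) (n := TI Pr)) (liftE (hfl.rel.mapM φ) a)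
  rw [liftE_smul, map_smul]

theorem regRep_zero (hfl : IsFlat hE hn) {F : Type u} [Field F]
    (φ : MvPolynomial m k →+* F) (a : EU Pr) (h : regRep hfl φ a = 0) :
    (liftE hfl.rel a).map φ = 0 := by
  rw [← liftE_mapM]
  exact (Matrix.toLinAlgEquiv' (R := F) (n := TI Pr)).injective (h.trans (map_zero _).symm)

/-- Special representations are at most as large as the generic ones. -/
theorem spec_le (hfl : IsFlat hE hn) {F : Type u} [Field F] (φ : MvPolynomial m k →+* F)
    (hφ : Function.Injective φ) (D : ℕ)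
    (hD : ∀ (V : Type u) [AddCommGroup V] [Module F V] [FiniteDimensional F V]
      (ρ : EU Pr →+* Module.End F V), Irr ρ →
      (∀ (r : MvPolynomial m k) a, ρ (r • a) = φ r • ρ a) → finrank F V ≤ D)
    {G : Type*} [Field G] [IsAlgClosed G] {V : Type*} [AddCommGroup V] [Module G V]
    [FiniteDimensional G V] (ρ : EU Pr →+* Module.End G V) (hρ : Irr ρ) : finrank G V ≤ D := by
  classical
  let E : Set (EU Pr × F) := Set.range fun r : MvPolynomial m k => (r • (1 : EU Pr), φ r)
  refine transfer E D (finrank F (TI Pr → F)) ?_ (J := Unit) (fun _ => TI Pr → F)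
    (fun _ => regRep hfl φ) ?_ (fun _ => le_rfl) ρ (irr_span hρ) ?_
  · intro V _ _ _ ρ hρ hsat
    refine hD V ρ hρ fun r a => ?_
    have h1 := hsat _ ⟨r, rfl⟩
    have h2 : r • a = (r • (1 : EU Pr)) * a := by rw [smul_mul_assoc, one_mul]
    rw [h2, map_mul, h1, smul_mul_assoc, one_mul]
  · rintro - _ ⟨r, rfl⟩
    show regRep hfl φ (r • (1 : EU Pr)) = φ r • 1
    rw [regRep_smul, map_one]
  · intro a ha
    have h1 := regRep_zero hfl φ a (ha ())
    have h2 : liftE hfl.rel a = 0 := by
      apply Matrix.map_injective hφ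
      show (liftE hfl.rel a).map φ = (0 : Matrix (TI Pr) (TI Pr) (MvPolynomial m k)).map φ
      rw [h1]
      ext i j
      simp
    have h3 : a = 0 := liftE_inj hfl (h2.trans (map_zero _).symm)
    rw [h3, map_zero]

/-- Generic representations are at most as large as the ones at the closed points. -/
theorem gen_le [Infinite k] (hfl : IsFlat hE hn) (D : ℕ)
    (hD : ∀ (V : Type u) [AddCommGroup V] [Module k V] [FiniteDimensional k V]
      (ρ : EU Pr →+* Module.End k V), Irr ρ →
      (∀ (c : k) a, ρ ((MvPolynomial.C c : MvPolynomial m k) • a) = c • ρ a) → finrank k V ≤ D)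
    {G : Type*} [Field G] [IsAlgClosed G] {V : Type*} [AddCommGroup V] [Module G V]
    [FiniteDimensional G V] (ρ : EU Pr →+* Module.End G V) (hρ : Irr ρ) : finrank G V ≤ D := by
  classical
  let E : Set (EU Pr × k) := Set.range fun c : k =>
    ((MvPolynomial.C c : MvPolynomial m k) • (1 : EU Pr), c)
  refine transfer E D (finrank k (TI Pr → k)) ?_ (J := m → k) (fun _ => TI Pr → k)
    (fun χ => regRep hfl (MvPolynomial.eval χ)) ?_ (fun _ => le_rfl) ρ (irr_span hρ) ?_
  · intro V _ _ _ ρ hρ hsat
    refine hD V ρ hρ fun c a => ?_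
    have h1 := hsat _ ⟨c, rfl⟩
    have h2 : (MvPolynomial.C c : MvPolynomial m k) • a =
        ((MvPolynomial.C c : MvPolynomial m k) • (1 : EU Pr)) * a := by
      rw [smul_mul_assoc, one_mul]
    rw [h2, map_mul, h1, smul_mul_assoc, one_mul]
  · rintro χ _ ⟨c, rfl⟩
    show regRep hfl (MvPolynomial.eval χ) ((MvPolynomial.C c : MvPolynomial m k) • (1 : EU Pr)) =
      c • 1
    rw [regRep_smul, map_one, MvPolynomial.eval_C]
  · intro a ha
    have h2 : liftE hfl.rel a = 0 := by
      refine Matrix.ext fun i j => ?_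
      rw [Matrix.zero_apply]
      refine MvPolynomial.funext (R := k) (σ := m) fun χ => ?_
      have h1 := regRep_zero hfl (MvPolynomial.eval χ) a (ha χ)
      have h3 := congrFun (congrFun h1 i) j
      rw [Matrix.map_apply] at h3
      rw [h3, map_zero]
      rfl
    have h3 : a = 0 := liftE_inj hfl (h2.trans (map_zero _).symm)
    rw [h3, map_zero]

/-- Generic irreducible representations exist. -/
theorem exists_gen (hfl : IsFlat hE hn) {F : Type u} [Field F] (φ : MvPolynomial m k →+* F) :
    ∃ (V : Type u) (_ : AddCommGroup V) (_ : Module F V) (_ : FiniteDimensional F V)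
      (ρ : EU Pr →+* Module.End F V), Irr ρ ∧
      ∀ (r : MvPolynomial m k) a, ρ (r • a) = φ r • ρ a := by
  classical
  have hnt : Nontrivial (TI Pr → F) := by
    have : Nonempty (TI Pr) := ⟨ti0 hn⟩
    infer_instance
  obtain ⟨W, hW, hW0, hirr⟩ := exists_irr_sub (regRep hfl φ)
  refine ⟨W, inferInstance, inferInstance, inferInstance, _, hirr, ?_⟩
  intro r a
  apply LinearMap.ext
  intro v
  apply Subtype.ext
  exact LinearMap.congr_fun (regRep_smul hfl φ r a) (v : TI Pr → F)

end spec

end Pool.Agent.Helper56.SKR
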