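import Mathlib
import Pool.Agent.Helper56.SKR.Lim3
import Pool.Agent.Helper56.SKR.Num
import Pool.Agent.Helper56.SKR.NumT
import Pool.Agent.Helper56.SKR.Fld
import Pool.Agent.Helper56.SKR.Spec

/-!
# Degrees at the generic point
-/

namespace Pool.Agent.Helper56.SKR

open Module Pool.Agent.Helper56.SKW Pool.Agent.Helper56.SKW.PBW Pool.Agent.Helper56.SKU

universe u

section relmap

variable {R X : Type*} [CommRing R] [Fintype X] {Pr : Pres R X} {S B : Type*} [CommRing S]
  [Ring B] [Algebra S B]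

/-- The letters of a semilinear homomorphism satisfy the relations. -/
theorem isRel_of_hom (φ : R →+* S) (T : EU Pr →+* B) (hT : ∀ (r : R) a, T (r • a) = φ r • T a) :
    IsRel Pr φ (fun x => T (gE Pr x)) := by
  constructor
  · intro x y
    have h1 := congrArg T ((gE_rel Pr).comm x y)
    simp only [map_mul, map_add, map_sum, hT, map_one, RingHom.id_apply] at h1
    exact h1
  · intro x
    have h1 := congrArg T ((gE_rel Pr).pow x)
    simp only [map_pow, map_add, map_sum, hT, map_one, RingHom.id_apply] at h1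
    exact h1

theorem hom_pwf (T : EU Pr →+* B) (l : List X) :
    T (pwf (gE Pr) l) = pwf (fun x => T (gE Pr x)) l := by
  induction l with
  | nil => rw [pwf_nil, pwf_nil, map_one]
  | cons x l ih => rw [pwf_cons, pwf_cons, map_mul, ih]

theorem hom_span (φ : R →+* S) (T : EU Pr →+* B) (hT : ∀ (r : R) a, T (r • a) = φ r • T a)
    (hsp : ∀ x : B, x ∈ Submodule.span S (Set.range T)) (x : B) :
    x ∈ Submodule.span S (Set.range (pwf fun x => T (gE Pr x))) := by
  refine (Submodule.span_le.2 ?_) (hsp x)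
  rintro _ ⟨a, rfl⟩
  have h1 := gE_span Pr a
  show T a ∈ Submodule.span S (Set.range (pwf fun x => T (gE Pr x)))
  induction h1 using Submodule.span_induction with
  | mem a ha =>
    obtain ⟨l, rfl⟩ := ha
    rw [hom_pwf]
    exact Submodule.subset_span ⟨l, rfl⟩
  | zero => rw [map_zero]; exact Submodule.zero_mem _
  | add a b _ _ ha hb => rw [map_add]; exact Submodule.add_mem _ ha hb
  | smul c a _ ha => rw [hT]; exact Submodule.smul_mem _ _ ha

end relmap

section gen

variable {k : Type u} {L₀ L₁ : Type*} [Field k] [AddCommGroup L₀] [Module k L₀] [AddCommGroup L₁]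
  [Module k L₁] {m n : Type} [Fintype m] [Fintype n] [LinearOrder m] [DecidableEq n]
  {g : LieSuper k L₀ L₁} {b₀ : Basis m k L₀} {b₁ : Basis n k L₁} {p : ℕ} {P : m → L₀}

/-- The degrees at the generic point. -/
theorem gen_deg [IsAlgClosed k] [hp : Fact p.Prime] [CharP k p] (hp2 : 2 < p)
    (hP0 : ∀ i x, g.b00 (P i) x = ((g.b00 (b₀ i)) ^ p) x) (θ : L₀ →ₗ[k] k) :
    ∃ (F : Type u) (_ : Field F) (_ : IsAlgClosed F) (_ : Algebra k F) (ζ : m → F),
      Function.Injective (MvPolynomial.aeval ζ : MvPolynomial m k →ₐ[k] F) ∧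
      ∀ (V : Type u) [AddCommGroup V] [Module F V] [FiniteDimensional F V]
        (ρ : EU (PG g b₀ b₁ p P) →+* Module.End F V), Irr ρ →
        (∀ (r : MvPolynomial m k) a, ρ (r • a) = MvPolynomial.aeval ζ r • ρ a) →
      ∀ (L : Type u) [AddCommGroup L] [Module F L] [FiniteDimensional F L]
        (τ : EU (P0 g b₀ p P) →+* Module.End F L), Irr τ →
        (∀ (r : MvPolynomial m k) a, τ (r • a) = MvPolynomial.aeval ζ r • τ a) →
        2 ^ ((bOdd g θ + 1) / 2) * finrank F L ∣ finrank F V ∧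
        ∀ δ : ℕ, finrank k L₁ + 1 ≤ 2 * ((bOdd g θ + 1) / 2) + δ → 2 ^ δ < p →
          finrank F V * finrank F V ≤ 2 ^ δ * ((2 ^ ((bOdd g θ + 1) / 2) * finrank F L) *
            (2 ^ ((bOdd g θ + 1) / 2) * finrank F L)) := by
  classical
  have h2 : (2 : k) ≠ 0 := by
    intro h0
    have h1 : ((2 : ℕ) : k) = 0 := by exact_mod_cast h0
    rw [CharP.cast_eq_zero_iff k p] at h1
    have := Nat.le_of_dvd (by norm_num) h1
    omega
  have hfd : FiniteDimensional k L₁ := Module.Finite.of_basis b₁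
  let X := Unit ⊕ (m ⊕ n)
  let _ : LinearOrder X := LinearOrder.lift' (Fintype.equivFin X) (Fintype.equivFin X).injective
  obtain ⟨F, iF, iAC, iA, ζ, O, η, hη, hη0, hk, hinj, hζ⟩ :=
    exists_valued (k := k) (m := m) p hp.out.pos (fun i => θ (b₀ i))
  refine ⟨F, iF, iAC, iA, ζ, hinj, ?_⟩
  have hchF : CharP F p := charP_of_injective_algebraMap (algebraMap k F).injective p
  intro V _ _ _ ρ hρ hρφ L _ _ _ τ hτ hτφ
  have hVnt := hρ.1
  -- the even universal algebra
  have hdom := even_domain (g := g) (b₀ := b₀) (P := P) h2 hP0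
  have hind := even_indep (g := g) (b₀ := b₀) (P := P) h2 hP0
  have hsp0 : ⊤ ≤ Submodule.span (MvPolynomial m k)
      (Set.range fun r : TI (P0 g b₀ p P) => pwf (gE (P0 g b₀ p P)) (bw (P0 g b₀ p P) r)) := by
    intro u _
    refine (Submodule.span_le.2 ?_) (gE_span _ u)
    rintro _ ⟨l, rfl⟩
    exact (gE_rel _).span (P0_hE g b₀ p P) (P0_hn g b₀ p P hp.out.two_le) l
  let bs : Basis (TI (P0 g b₀ p P)) (MvPolynomial m k) (EU (P0 g b₀ p P)) := Basis.mk hind hsp0
  let κ : EU (P0 g b₀ p P) →+* EU (PG g b₀ b₁ p P) := liftE (isRel_even (gE_rel (PG g b₀ b₁ p P)))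
  have hsp1 : ∀ a : EU (PG g b₀ b₁ p P), a ∈ Submodule.span (MvPolynomial m k)
      (Set.range fun r : TI (PG g b₀ b₁ p P) =>
        pwf (gE (PG g b₀ b₁ p P)) (bw (PG g b₀ b₁ p P) r)) := by
    intro u
    refine (Submodule.span_le.2 ?_) (gE_span _ u)
    rintro _ ⟨l, rfl⟩
    exact (gE_rel _).span (PG_hE g b₀ b₁ p P) (PG_hn g b₀ b₁ p P hp.out.two_le) l
  obtain ⟨z, z0, s, e1, e2, e3, e4, e5, e6, B, _, _, _, T, hTφ, hTsp, hTr⟩ :=
    gen_num bs κ (fun r a => liftE_smul _ r a) _ hsp1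
      ((MvPolynomial.aeval ζ : MvPolynomial m k →ₐ[k] F) : MvPolynomial m k →+* F) hinj
      ρ hρ hρφ τ hτ hτφ
  have hc0 : Fintype.card (TI (P0 g b₀ p P)) = p ^ Fintype.card m := by
    rw [Fintype.card_pi]
    simp only [Fintype.card_fin]
    exact P0_prod g b₀ p P
  have hc1 : Fintype.card (TI (PG g b₀ b₁ p P)) = p ^ Fintype.card m * 2 ^ (Fintype.card n + 1) := by
    rw [Fintype.card_pi]
    simp only [Fintype.card_fin]
    exact PG_prod g b₀ b₁ p P
  rw [hc0] at e1 e2 e5 e6 hTr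
  rw [hc1] at e5
  -- divisibility
  have hrV := repRel_of_isRel (isRel_of_hom
    ((MvPolynomial.aeval ζ : MvPolynomial m k →ₐ[k] F) : MvPolynomial m k →+* F) ρ hρφ)
  have d1 := lim_mod (p := p) h2 θ hk η hη hη0 hζ hrV
  have hrB := repRel_of_isRel (isRel_of_hom
    ((MvPolynomial.aeval ζ : MvPolynomial m k →ₐ[k] F) : MvPolynomial m k →+* F) T hTφ)
  have d2 := lim_alg (p := p) h2 θ hk η hη hη0 hζ hrB (hom_span _ T hTφ hTsp)
  rw [hTr] at d2
  have hn : finrank k L₁ = Fintype.card n := finrank_eq_card_basis b₁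
  refine ⟨?_, ?_⟩
  · -- only the divisibility
    have hpM : 0 < p ^ Fintype.card m := pow_pos hp.out.pos _
    have hl : finrank F L ∣ p ^ Fintype.card m := by
      rw [← e2]
      exact ⟨z0 * finrank F L, by ring⟩
    obtain ⟨a, -, ha⟩ := (Nat.dvd_prime_pow hp.out).1 hl
    have hodd : Nat.Coprime 2 p := by
      rw [Nat.coprime_comm, Nat.Prime.coprime_iff_not_dvd hp.out]
      intro h
      have := Nat.le_of_dvd (by norm_num) h
      omega
    have hc : Nat.Coprime (2 ^ ((bOdd g θ + 1) / 2)) (finrank F L) := by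
      rw [ha]
      exact Nat.Coprime.pow _ _ hodd
    exact hc.mul_dvd_of_dvd_of_dvd d1 e4
  · intro δ hδ hδp
    rw [hn] at hδ
    exact (num_core hp.out hp2 e1 e2 e3 e4 e5 e6 d2 d1 hδ hδp).2

end gen

end Pool.Agent.Helper56.SKR
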