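import Mathlib
import Pool.Agent.Helper56.SKR.GenD

/-!
# Comparison of the largest dimensions of irreducible modules
-/

namespace Pool.Agent.Helper56.SKR

open Module Pool.Agent.Helper56.SKW Pool.Agent.Helper56.SKW.PBW Pool.Agent.Helper56.SKU

universe u

section bound

/-- A bounded nonempty property has a largest element. -/
theorem exists_max (Q : ℕ → Prop) (hne : ∃ n, Q n) (N : ℕ) (hb : ∀ n, Q n → n ≤ N) :
    ∃ D, Q D ∧ ∀ n, Q n → n ≤ D := by
  classical
  obtain ⟨n0, hn0⟩ := hne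
  refine ⟨Nat.findGreatest Q N, Nat.findGreatest_spec (hb n0 hn0) hn0, fun n hn => ?_⟩
  exact Nat.le_findGreatest (hb n hn) hn

theorem irr_bound {R X : Type*} [CommRing R] [Fintype X] [LinearOrder X] {Pr : Pres R X}
    (hE : ∀ x y, IsUnit (Pr.E x y)) (hn : ∀ x, 2 ≤ Pr.n x) {F V : Type*} [Field F]
    [IsAlgClosed F] [AddCommGroup V] [Module F V] [FiniteDimensional F V]
    (ρ : EU Pr →+* Module.End F V) (hρ : Irr ρ) : finrank F V ≤ Fintype.card (TI Pr) := by
  classical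
  have hnt := hρ.1
  obtain ⟨φ, hφ⟩ := exists_char (R := R) hρ
  obtain ⟨v, hv⟩ := exists_ne (0 : V)
  let W : Submodule F V := Submodule.span F (Set.range fun r : TI Pr => ρ (pwf (gE Pr) (bw Pr r)) v)
  have hmem : ∀ a, ρ a v ∈ W := by
    intro a
    have h1 : a ∈ Submodule.span R (Set.range fun r : TI Pr => pwf (gE Pr) (bw Pr r)) := by
      refine (Submodule.span_le.2 ?_) (gE_span Pr a)
      rintro _ ⟨l, rfl⟩
      exact (gE_rel Pr).span hE hn l
    induction h1 using Submodule.span_induction with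
    | mem a ha =>
      obtain ⟨r, rfl⟩ := ha
      exact Submodule.subset_span ⟨r, rfl⟩
    | zero => rw [map_zero]; exact W.zero_mem
    | add a b _ _ ha hb => rw [map_add]; exact W.add_mem ha hb
    | smul c a _ ha => rw [hφ]; exact W.smul_mem _ ha
  have hinv : Inv ρ W := by
    intro a w hw
    induction hw using Submodule.span_induction with
    | mem w hw =>
      obtain ⟨r, rfl⟩ := hw
      show ρ a (ρ _ v) ∈ W
      rw [← Module.End.mul_apply, ← map_mul]
      exact hmem _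
    | zero => rw [map_zero]; exact W.zero_mem
    | add a b _ _ ha hb => rw [map_add]; exact W.add_mem ha hb
    | smul c a _ ha => rw [map_smul]; exact W.smul_mem _ ha
  rcases hρ.2 W hinv with h | h
  · have h1 := hmem 1
    rw [h, map_one, Submodule.mem_bot] at h1
    exact absurd h1 hv
  · have h1 : finrank F W ≤ Fintype.card (TI Pr) := finrank_range_le_card _
    rw [h, finrank_top] at h1
    exact h1

end bound

section main

variable {k : Type u} {L₀ L₁ : Type*} [Field k] [AddCommGroup L₀] [Module k L₀] [AddCommGroup L₁]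
  [Module k L₁]

/-- `D` is the largest dimension of an irreducible module over the even part. -/
def MaxEven (g : LieSuper k L₀ L₁) (D : ℕ) : Prop :=
  (∃ (V : Type u) (_ : AddCommGroup V) (_ : Module k V) (_ : FiniteDimensional k V)
    (M : EvenModule g V), M.IsIrreducible ∧ finrank k V = D) ∧
  ∀ (V : Type u) [AddCommGroup V] [Module k V] [FiniteDimensional k V] (M : EvenModule g V),
    M.IsIrreducible → finrank k V ≤ D

/-- `D` is the largest dimension of an irreducible graded module. -/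
def MaxSuper (g : LieSuper k L₀ L₁) (D : ℕ) : Prop :=
  (∃ (V : Type u) (_ : AddCommGroup V) (_ : Module k V) (_ : FiniteDimensional k V)
    (M : SuperModule g V), M.IsIrreducible ∧ finrank k V = D) ∧
  ∀ (V : Type u) [AddCommGroup V] [Module k V] [FiniteDimensional k V] (M : SuperModule g V),
    M.IsIrreducible → finrank k V ≤ D

/-- Comparison of the two maxima. -/
theorem compare [IsAlgClosed k] [FiniteDimensional k L₀] [FiniteDimensional k L₁] (p : ℕ)
    [hp : Fact p.Prime] [CharP k p] (hp2 : 2 < p) (g : LieSuper k L₀ L₁) (θ : L₀ →ₗ[k] k)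
    (hres : ∀ x, ∃ x', g.b00 x' = (g.b00 x) ^ p ∧ g.b01 x' = (g.b01 x) ^ p) :
    ∃ D₀ D : ℕ, MaxEven g D₀ ∧ MaxSuper g D ∧ 2 ^ ((bOdd g θ + 1) / 2) * D₀ ∣ D ∧
      ∀ δ : ℕ, finrank k L₁ + 1 ≤ 2 * ((bOdd g θ + 1) / 2) + δ → 2 ^ δ < p →
        D * D ≤ 2 ^ δ * ((2 ^ ((bOdd g θ + 1) / 2) * D₀) * (2 ^ ((bOdd g θ + 1) / 2) * D₀)) := by
  classical
  have h2 : (2 : k) ≠ 0 := by
    intro h0
    have h1 : ((2 : ℕ) : k) = 0 := by exact_mod_cast h0
    rw [CharP.cast_eq_zero_iff k p] at h1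
    have := Nat.le_of_dvd (by norm_num) h1
    omega
  have hinf : Infinite k := IsAlgClosed.instInfinite
  let m := Fin (finrank k L₀)
  let n := Fin (finrank k L₁)
  let b₀ : Basis m k L₀ := finBasis k L₀
  let b₁ : Basis n k L₁ := finBasis k L₁
  choose pm hpm0 hpm1 using hres
  let P : m → L₀ := fun i => pm (b₀ i)
  have hP0 : ∀ i x, g.b00 (P i) x = ((g.b00 (b₀ i)) ^ p) x := fun i x => by
    simp only [P, hpm0]
  have hP1 : ∀ i x, g.b01 (P i) x = ((g.b01 (b₀ i)) ^ p) x := fun i x => by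
    simp only [P, hpm1]
  let X := Unit ⊕ (m ⊕ n)
  let _ : LinearOrder X := LinearOrder.lift' (Fintype.equivFin X) (Fintype.equivFin X).injective
  obtain ⟨F, iF, iAC, iA, ζ, hinj, hgen⟩ := gen_deg (g := g) (b₀ := b₀) (b₁ := b₁) (P := P)
    hp2 hP0 θ
  let φ : MvPolynomial m k →+* F := ((MvPolynomial.aeval ζ : MvPolynomial m k →ₐ[k] F) :
    MvPolynomial m k →+* F)
  have hφ : Function.Injective φ := hinj
  have hfl0 : IsFlat (P0_hE g b₀ p P) (P0_hn g b₀ p P hp.out.two_le) := even_flat h2 hP0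
  have hfl1 : IsFlat (PG_hE g b₀ b₁ p P) (PG_hn g b₀ b₁ p P hp.out.two_le) :=
    full_flat h2 hP0 hP1
  -- generic maxima
  obtain ⟨l, ⟨L, iL1, iL2, iL3, τ, hτ, hτφ, hLl⟩, hlmax⟩ := exists_max
    (fun N => ∃ (V : Type u) (_ : AddCommGroup V) (_ : Module F V) (_ : FiniteDimensional F V)
      (ρ : EU (P0 g b₀ p P) →+* Module.End F V), Irr ρ ∧
      (∀ (r : MvPolynomial m k) a, ρ (r • a) = φ r • ρ a) ∧ finrank F V = N)
    (by
      obtain ⟨V, i1, i2, i3, ρ, hρ, hρφ⟩ := exists_gen hfl0 φ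
      exact ⟨_, V, i1, i2, i3, ρ, hρ, hρφ, rfl⟩)
    (Fintype.card (TI (P0 g b₀ p P))) (by
      rintro N ⟨V, i1, i2, i3, ρ, hρ, -, rfl⟩
      exact irr_bound (P0_hE g b₀ p P) (P0_hn g b₀ p P hp.out.two_le) ρ hρ)
  obtain ⟨d, ⟨V, iV1, iV2, iV3, ρ, hρ, hρφ, hVd⟩, hdmax⟩ := exists_max
    (fun N => ∃ (V : Type u) (_ : AddCommGroup V) (_ : Module F V) (_ : FiniteDimensional F V)
      (ρ : EU (PG g b₀ b₁ p P) →+* Module.End F V), Irr ρ ∧
      (∀ (r : MvPolynomial m k) a, ρ (r • a) = φ r • ρ a) ∧ finrank F V = N)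
    (by
      obtain ⟨V, i1, i2, i3, ρ, hρ, hρφ⟩ := exists_gen hfl1 φ
      exact ⟨_, V, i1, i2, i3, ρ, hρ, hρφ, rfl⟩)
    (Fintype.card (TI (PG g b₀ b₁ p P))) (by
      rintro N ⟨V, i1, i2, i3, ρ, hρ, -, rfl⟩
      convert irr_bound (PG_hE g b₀ b₁ p P) (PG_hn g b₀ b₁ p P hp.out.two_le) ρ hρ)
  -- the special modules are at most as large
  have hle0 : ∀ (V : Type u) [AddCommGroup V] [Module k V] [FiniteDimensional k V]
      (M : EvenModule g V), M.IsIrreducible → finrank k V ≤ l := by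
    intro V _ _ _ M hM
    obtain ⟨ζ', ρ, hρ, -⟩ := irr_of_even (P := P) hP0 M hM
    refine spec_le hfl0 φ hφ l ?_ ρ hρ
    intro V' _ _ _ ρ' hρ' hρ'φ
    exact hlmax _ ⟨V', _, _, inferInstance, ρ', hρ', hρ'φ, rfl⟩
  have hle1 : ∀ (V : Type u) [AddCommGroup V] [Module k V] [FiniteDimensional k V]
      (M : SuperModule g V), M.IsIrreducible → finrank k V ≤ d := by
    intro V _ _ _ M hM
    obtain ⟨ζ', ρ, hρ, -⟩ := irr_of_super (b₀ := b₀) (b₁ := b₁) (P := P) h2 hP0 hP1 M hM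
    refine spec_le hfl1 φ hφ d ?_ ρ hρ
    intro V' _ _ _ ρ' hρ' hρ'φ
    exact hdmax _ ⟨V', _, _, inferInstance, ρ', hρ', hρ'φ, rfl⟩
  -- the special maxima
  obtain ⟨D0, ⟨V0, i01, i02, i03, M0, hM0, hV0⟩, hD0max⟩ := exists_max
    (fun N => ∃ (V : Type u) (_ : AddCommGroup V) (_ : Module k V) (_ : FiniteDimensional k V)
      (M : EvenModule g V), M.IsIrreducible ∧ finrank k V = N)
    (by
      obtain ⟨V, i1, i2, i3, ρ, hρ, hρφ⟩ := exists_gen hfl0 (MvPolynomial.eval (0 : m → k))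
      obtain ⟨M, hM⟩ := even_of_irr ρ (fun c a => by rw [hρφ, MvPolynomial.eval_C]) hρ
      exact ⟨_, V, i1, i2, i3, M, hM, rfl⟩) l (by
      rintro N ⟨V, i1, i2, i3, M, hM, rfl⟩
      exact hle0 V M hM)
  obtain ⟨D1, ⟨V1, i11, i12, i13, M1, hM1, hV1⟩, hD1max⟩ := exists_max
    (fun N => ∃ (V : Type u) (_ : AddCommGroup V) (_ : Module k V) (_ : FiniteDimensional k V)
      (M : SuperModule g V), M.IsIrreducible ∧ finrank k V = N)
    (by
      obtain ⟨V, i1, i2, i3, ρ, hρ, hρφ⟩ := exists_gen hfl1 (MvPolynomial.eval (0 : m → k))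
      obtain ⟨W, M, hM, -⟩ := super_of_irr h2 ρ (fun c a => by rw [hρφ, MvPolynomial.eval_C]) hρ
      exact ⟨_, W, inferInstance, inferInstance, inferInstance, M, hM, rfl⟩) d (by
      rintro N ⟨V, i1, i2, i3, M, hM, rfl⟩
      exact hle1 V M hM)
  have hl : l = D0 := by
    apply le_antisymm
    · rw [← hLl]
      refine gen_le hfl0 D0 ?_ τ hτ
      intro V' _ _ _ ρ' hρ' hρ'k
      obtain ⟨M, hM⟩ := even_of_irr ρ' hρ'k hρ'
      exact hD0max _ ⟨V', _, _, inferInstance, M, hM, rfl⟩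
    · rw [← hV0]
      exact hle0 V0 M0 hM0
  have hd : d = D1 := by
    apply le_antisymm
    · rw [← hVd]
      refine gen_le hfl1 D1 ?_ ρ hρ
      intro V' _ _ _ ρ' hρ' hρ'k
      obtain ⟨W, M, hM, hW⟩ := super_of_irr h2 ρ' hρ'k hρ'
      rw [← hW]
      exact hD1max _ ⟨W, _, _, inferInstance, M, hM, rfl⟩
    · rw [← hV1]
      exact hle1 V1 M1 hM1
  have hfin := hgen V ρ hρ hρφ L τ hτ hτφ
  rw [hLl, hVd] at hfin
  refine ⟨l, d, ⟨⟨V0, i01, i02, i03, M0, hM0, by rw [hV0, hl]⟩, hle0⟩,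
    ⟨⟨V1, i11, i12, i13, M1, hM1, by rw [hV1, hd]⟩, hle1⟩, hfin.1, hfin.2⟩

end main

end Pool.Agent.Helper56.SKR
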