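import Mathlib
import Pool.Agent.Helper56.SKR.MainA

/-!
# Dimension bound for modules generated by a subspace
-/

namespace Pool.Agent.Helper56.SKR

open Module Pool.Agent.Helper56.SKW Pool.Agent.Helper56.SKW.PBW Pool.Agent.Helper56.SKU

universe u

section word

variable {k V X : Type*} [Field k] [AddCommGroup V] [Module k V]

theorem pwf_stable {f : X → Module.End k V} {W : Submodule k V} {l : List X}
    (h : ∀ x ∈ l, ∀ v ∈ W, f x v ∈ W) : ∀ v ∈ W, pwf f l v ∈ W := by
  induction l with
  | nil => intro v hv; rw [pwf_nil]; exact hv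
  | cons x l ih =>
    intro v hv
    rw [pwf_cons]
    exact h x (List.mem_cons_self) _ (ih (fun y hy => h y (List.mem_cons_of_mem _ hy)) v hv)

/-- Splitting a sorted word. -/
theorem sw_split [Fintype X] [LinearOrder X] (A : X → Prop) [DecidablePred A]
    (hA : ∀ x y, A x → ¬ A y → x ≤ y) (ν : X → ℕ) :
    sw ν = sw (fun x => if A x then ν x else 0) ++ sw (fun x => if A x then 0 else ν x) := by
  symm
  refine eq_sw ?_ ?_
  · rw [List.pairwise_append]
    refine ⟨sorted_sw _, sorted_sw _, ?_⟩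
    intro x hx y hy
    have h1 := List.count_pos_iff.2 hx
    have h2 := List.count_pos_iff.2 hy
    rw [count_sw] at h1 h2
    by_cases hAx : A x
    · by_cases hAy : A y
      · rw [if_pos hAy] at h2; exact absurd h2 (lt_irrefl 0)
      · exact hA x y hAx hAy
    · rw [if_neg hAx] at h1; exact absurd h1 (lt_irrefl 0)
  · intro x
    rw [List.count_append, count_sw, count_sw]
    by_cases hAx : A x
    · rw [if_pos hAx, if_pos hAx, add_zero]
    · rw [if_neg hAx, if_neg hAx, zero_add]

theorem mem_sw [Fintype X] [LinearOrder X] {ν : X → ℕ} {x : X} (h : x ∈ sw ν) : 0 < ν x := by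
  have h1 := List.count_pos_iff.2 h
  rwa [count_sw] at h1

end word

section bound

variable {k : Type u} {L₀ L₁ V : Type*} [Field k] [AddCommGroup L₀] [Module k L₀]
  [AddCommGroup L₁] [Module k L₁] [AddCommGroup V] [Module k V]

/-- The ranking of the letters. -/
def keyX (m c h : ℕ) : Unit ⊕ (Fin m ⊕ (Fin c ⊕ Fin h)) → ℕ
  | Sum.inl _ => c
  | Sum.inr (Sum.inl i) => c + 1 + i
  | Sum.inr (Sum.inr (Sum.inl j)) => j
  | Sum.inr (Sum.inr (Sum.inr j)) => c + 1 + m + j

theorem keyX_inj (m c h : ℕ) : Function.Injective (keyX m c h) := by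
  rintro (⟨⟩ | i | i | i) (⟨⟩ | j | j | j) hij
  all_goals
    have hi := hij
    simp only [keyX] at hi
  · rfl
  · omega
  · have := j.2; omega
  · omega
  · omega
  · have : i = j := Fin.ext (by omega)
    rw [this]
  · have := j.2; omega
  · have := i.2; omega
  · have := i.2; omega
  · have := i.2; omega
  · have : i = j := Fin.ext (by omega)
    rw [this]
  · have := i.2; omega
  · omega
  · have := j.2; omega
  · have := j.2; omega
  · have : i = j := Fin.ext (by omega)
    rw [this]

/-- An irreducible module is at most `2 ^ c` times as large as a subspace which is stable under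
the even part and under a subspace of codimension `c` of the odd part. -/
theorem dim_le_two_pow [IsAlgClosed k] [FiniteDimensional k L₀] [FiniteDimensional k L₁]
    [FiniteDimensional k V] (p : ℕ) [hp : Fact p.Prime] [CharP k p] (hp2 : 2 < p)
    (g : LieSuper k L₀ L₁)
    (hres : ∀ x, ∃ x', g.b00 x' = (g.b00 x) ^ p ∧ g.b01 x' = (g.b01 x) ^ p)
    (M : SuperModule g V) (hM : M.IsIrreducible) {σ : Module.End k V}
    (hσ0 : ∀ v ∈ M.V₀, σ v = v) (hσ1 : ∀ v ∈ M.V₁, σ v = -v)
    (H : Submodule k L₁) (W : Submodule k V) (hW : W ≠ ⊥)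
    (h0 : ∀ x, ∀ v ∈ W, M.ρ₀ x v ∈ W) (h1 : ∀ y ∈ H, ∀ v ∈ W, M.ρ₁ y v ∈ W)
    (hσ : ∀ v ∈ W, σ v ∈ W) :
    finrank k V ≤ 2 ^ (finrank k L₁ - finrank k H) * finrank k W := by
  classical
  have h2 : (2 : k) ≠ 0 := by
    intro h0
    have h1 : ((2 : ℕ) : k) = 0 := by exact_mod_cast h0
    rw [CharP.cast_eq_zero_iff k p] at h1
    have := Nat.le_of_dvd (by norm_num) h1
    omega
  obtain ⟨C, hC⟩ := H.exists_isCompl
  let m := finrank k L₀
  let c := finrank k C
  let h := finrank k H
  have hcc : c = finrank k L₁ - finrank k H := by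
    have := Submodule.finrank_add_eq_of_isCompl hC
    simp only [c]
    omega
  let b₀ : Basis (Fin m) k L₀ := finBasis k L₀
  let bC : Basis (Fin c) k C := finBasis k C
  let bH : Basis (Fin h) k H := finBasis k H
  let b₁ : Basis (Fin c ⊕ Fin h) k L₁ :=
    (bC.prod bH).map (Submodule.prodEquivOfIsCompl C H hC.symm)
  have hbH : ∀ j, b₁ (Sum.inr j) ∈ H := by
    intro j
    simp only [b₁, Basis.map_apply]
    rw [Submodule.coe_prodEquivOfIsCompl']
    simp
  choose pm hpm0 hpm1 using hres
  let P : Fin m → L₀ := fun i => pm (b₀ i)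
  have hP0 : ∀ i x, g.b00 (P i) x = ((g.b00 (b₀ i)) ^ p) x := fun i x => by
    simp only [P, hpm0]
  have hP1 : ∀ i x, g.b01 (P i) x = ((g.b01 (b₀ i)) ^ p) x := fun i x => by
    simp only [P, hpm1]
  let X := Unit ⊕ (Fin m ⊕ (Fin c ⊕ Fin h))
  let iX : LinearOrder X := LinearOrder.lift' (keyX m c h) (keyX_inj m c h)
  obtain ⟨ζ, hζ⟩ := exists_repRel p h2 M hM hσ0 hσ1 b₀ b₁ P hP0 hP1
  have hrel := isRel_of_repRel h2 hζ
  let f : X → Module.End k V := gV M σ b₀ b₁
  let A : X → Prop := fun x => keyX m c h x < c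
  have hA : ∀ x y : X, A x → ¬ A y → iX.le x y := by
    intro x y hx hy
    have h3 : keyX m c h x ≤ keyX m c h y := by
      simp only [A] at hx hy
      omega
    exact h3
  -- letters outside `A` preserve `W`
  have hfW : ∀ x : X, ¬ A x → ∀ v ∈ W, f x v ∈ W := by
    rintro (⟨⟩ | i | i | i) hx v hv
    · exact hσ v hv
    · exact h0 _ v hv
    · exact absurd i.2 hx
    · exact h1 _ (hbH i) v hv
  let e : (Fin c → Fin 2) → X → ℕ := fun s x => match x with
    | Sum.inr (Sum.inr (Sum.inl j)) => (s j : ℕ)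
    | _ => 0
  let Φ : ((Fin c → Fin 2) → W) →ₗ[k] V :=
    LinearMap.lsum k (fun _ => W) k fun s => (pwf f (sw (e s))).comp W.subtype
  have hΦ : ∀ (s : Fin c → Fin 2) (w : W), pwf f (sw (e s)) w ∈ LinearMap.range Φ := by
    intro s w
    refine ⟨Pi.single s w, ?_⟩
    simp only [Φ, LinearMap.lsum_apply, LinearMap.sum_apply, LinearMap.comp_apply,
      LinearMap.proj_apply]
    rw [Finset.sum_eq_single s]
    · simp
    · intro t _ ht
      rw [Pi.single_eq_of_ne ht]
      simp
    · intro hs
      exact absurd (Finset.mem_univ _) hs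
  have hsw : ∀ r : (x : X) → Fin ((PG g b₀ b₁ p P).n x), ∀ w ∈ W,
      pwf f (sw fun x => (r x : ℕ)) w ∈ LinearMap.range Φ := by
    intro r w hw
    rw [sw_split A hA, pwf_append]
    have e1 : (fun x => if A x then (r x : ℕ) else 0) =
        e (fun j => ⟨(r (Sum.inr (Sum.inr (Sum.inl j))) : ℕ),
          (r (Sum.inr (Sum.inr (Sum.inl j)))).2⟩) := by
      funext x
      rcases x with ⟨⟩ | i | i | i
      · have : ¬ A (Sum.inl ()) := by simp [A, keyX]
        rw [if_neg this]
      · have : ¬ A (Sum.inr (Sum.inl i)) := by simp [A, keyX]; omega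
        rw [if_neg this]
      · have : A (Sum.inr (Sum.inr (Sum.inl i))) := i.2
        rw [if_pos this]
      · have : ¬ A (Sum.inr (Sum.inr (Sum.inr i))) := by simp [A, keyX]; omega
        rw [if_neg this]
    rw [e1]
    have e2 : pwf f (sw fun x => if A x then 0 else (r x : ℕ)) w ∈ W := by
      refine pwf_stable ?_ w hw
      intro x hx v hv
      have h3 := mem_sw hx
      refine hfW x ?_ v hv
      intro hAx
      rw [if_pos hAx] at h3
      exact lt_irrefl _ h3
    exact hΦ _ ⟨_, e2⟩
  have hwords : ∀ l : List X, ∀ w ∈ W, pwf f l w ∈ LinearMap.range Φ := by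
    intro l w hw
    have h3 := hrel.span (PG_hE g b₀ b₁ p P) (PG_hn g b₀ b₁ p P hp.out.two_le) l
    have h4 : Submodule.span k (Set.range fun r : (x : X) → Fin ((PG g b₀ b₁ p P).n x) =>
        pwf f (sw fun x => (r x : ℕ))) ≤ (LinearMap.range Φ).comap (LinearMap.applyₗ w) := by
      rw [Submodule.span_le]
      rintro _ ⟨r, rfl⟩
      exact hsw r w hw
    exact h4 h3
  let S : Submodule k V := Submodule.span k {v | ∃ l : List X, ∃ w ∈ W, v = pwf f l w}
  have hSf : ∀ x : X, ∀ v ∈ S, f x v ∈ S := by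
    intro x v hv
    induction hv using Submodule.span_induction with
    | mem v hv =>
      obtain ⟨l, w, hw, rfl⟩ := hv
      refine Submodule.subset_span ⟨x :: l, w, hw, ?_⟩
      rw [pwf_cons]; rfl
    | zero => rw [map_zero]; exact S.zero_mem
    | add a b _ _ ha hb => rw [map_add]; exact S.add_mem ha hb
    | smul c a _ ha => rw [map_smul]; exact S.smul_mem _ ha
  have hS : S = ⊥ ∨ S = ⊤ := by
    refine irr_stable h2 M hM hσ0 hσ1 S ?_ ?_ (hSf (Sum.inl ()))
    · intro x v hv
      have h3 : (⊤ : Submodule k L₀) ≤ S.comap ((LinearMap.applyₗ v).comp M.ρ₀) := by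
        rw [← b₀.span_eq, Submodule.span_le]
        rintro _ ⟨i, rfl⟩
        exact hSf (Sum.inr (Sum.inl i)) v hv
      exact h3 (x := x) trivial
    · intro x v hv
      have h3 : (⊤ : Submodule k L₁) ≤ S.comap ((LinearMap.applyₗ v).comp M.ρ₁) := by
        rw [← b₁.span_eq, Submodule.span_le]
        rintro _ ⟨i, rfl⟩
        exact hSf (Sum.inr (Sum.inr i)) v hv
      exact h3 (x := x) trivial
  have hWS : W ≤ S := fun w hw => Submodule.subset_span ⟨[], w, hw, rfl⟩
  have hStop : S = ⊤ := by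
    rcases hS with h3 | h3
    · exact absurd (le_bot_iff.1 (h3 ▸ hWS)) hW
    · exact h3
  have hSle : S ≤ LinearMap.range Φ := by
    refine Submodule.span_le.2 ?_
    rintro _ ⟨l, w, hw, rfl⟩
    exact hwords l w hw
  have hr : LinearMap.range Φ = ⊤ := top_le_iff.1 (hStop ▸ hSle)
  have h5 := LinearMap.finrank_range_le Φ
  rw [hr, finrank_top, Module.finrank_pi_fintype] at h5
  simp only [Finset.sum_const, Finset.card_univ, Fintype.card_fun, Fintype.card_fin,
    smul_eq_mul] at h5
  rw [← hcc]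
  exact h5

end bound

end Pool.Agent.Helper56.SKR
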