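import Mathlib
import Pool.Agent.Helper56.SKR.StepA

/-!
# Reduction by an isotropic subspace of the odd part
-/

namespace Pool.Agent.Helper56.SKR

open Module Pool.Agent.Helper56.SKW Pool.Agent.Helper56.SKW.PBW Pool.Agent.Helper56.SKU

universe u v

section quot

variable {k L₀ L₁ : Type*} [Field k] [AddCommGroup L₀] [Module k L₀] [AddCommGroup L₁]
  [Module k L₁]

/-- The centraliser of a subspace of the odd part in the odd part. -/
def cen (g : LieSuper k L₀ L₁) (Y : Submodule k L₁) : Submodule k L₁ where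
  carrier := {y | ∀ y' ∈ Y, g.b11 y y' = 0}
  add_mem' := by
    intro a b ha hb y hy
    rw [map_add, LinearMap.add_apply, ha y hy, hb y hy, add_zero]
  zero_mem' := by
    intro y _
    rw [map_zero, LinearMap.zero_apply]
  smul_mem' := by
    intro c a ha y hy
    rw [map_smul, LinearMap.smul_apply, ha y hy, smul_zero]

variable {g : LieSuper k L₀ L₁} {Y : Submodule k L₁}

theorem mem_cen {y : L₁} : y ∈ cen g Y ↔ ∀ y' ∈ Y, g.b11 y y' = 0 := Iff.rfl

theorem cen_stable (hY2 : ∀ x, ∀ y ∈ Y, g.b01 x y ∈ Y) (x : L₀) : ∀ y ∈ cen g Y,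
    g.b01 x y ∈ cen g Y := by
  intro y hy y' hy'
  have h1 := g.jac011 x y y'
  rw [hy y' hy', hy _ (hY2 x y' hy'), map_zero, add_zero] at h1
  exact h1.symm

variable (g Y) in
/-- The subspace `Y` inside its centraliser. -/
abbrev Yin : Submodule k (cen g Y) := Y.comap (cen g Y).subtype

variable (g Y) in
/-- The reduced odd part. -/
abbrev QY : Type _ := (cen g Y) ⧸ (Yin g Y)

/-- The action of the even part on the reduced odd part. -/
def rb01 (hY2 : ∀ x, ∀ y ∈ Y, g.b01 x y ∈ Y) : L₀ →ₗ[k] QY g Y →ₗ[k] QY g Y where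
  toFun x := (Yin g Y).mapQ (Yin g Y) ((g.b01 x).restrict (cen_stable hY2 x)) (by
    intro y hy
    exact hY2 x _ hy)
  map_add' x x' := by
    apply Submodule.linearMap_qext
    ext y
    have h1 : (⟨g.b01 (x + x') y, cen_stable hY2 (x + x') y y.2⟩ : cen g Y) =
        ⟨g.b01 x y, cen_stable hY2 x y y.2⟩ + ⟨g.b01 x' y, cen_stable hY2 x' y y.2⟩ := by
      apply Subtype.ext
      simp
    exact congrArg (Submodule.Quotient.mk (p := Yin g Y)) h1
  map_smul' c x := by
    apply Submodule.linearMap_qext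
    ext y
    have h1 : (⟨g.b01 (c • x) y, cen_stable hY2 (c • x) y y.2⟩ : cen g Y) =
        c • ⟨g.b01 x y, cen_stable hY2 x y y.2⟩ := by
      apply Subtype.ext
      simp
    exact congrArg (Submodule.Quotient.mk (p := Yin g Y)) h1

theorem rb01_mk (hY2 : ∀ x, ∀ y ∈ Y, g.b01 x y ∈ Y) (x : L₀) (y : cen g Y) :
    rb01 hY2 x (Submodule.Quotient.mk y) =
      Submodule.Quotient.mk ⟨g.b01 x y, cen_stable hY2 x y y.2⟩ := rfl

variable (g Y) in
/-- An auxiliary map. -/
def rb11a : cen g Y →ₗ[k] QY g Y →ₗ[k] L₀ where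
  toFun y := (Yin g Y).liftQ ((g.b11 (y : L₁)).comp (cen g Y).subtype) (by
    intro y' hy'
    exact y.2 _ hy')
  map_add' a b := by
    apply Submodule.linearMap_qext
    ext y
    show g.b11 ((a : L₁) + (b : L₁)) (y : L₁) = g.b11 (a : L₁) (y : L₁) + g.b11 (b : L₁) (y : L₁)
    rw [map_add, LinearMap.add_apply]
  map_smul' c a := by
    apply Submodule.linearMap_qext
    ext y
    show g.b11 (c • (a : L₁)) (y : L₁) = c • g.b11 (a : L₁) (y : L₁)
    rw [map_smul, LinearMap.smul_apply]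

variable (g Y) in
/-- The bracket on the reduced odd part. -/
def rb11 : QY g Y →ₗ[k] QY g Y →ₗ[k] L₀ := (Yin g Y).liftQ (rb11a g Y) (by
  intro y hy
  rw [LinearMap.mem_ker]
  apply Submodule.linearMap_qext
  ext y'
  show g.b11 (y : L₁) (y' : L₁) = 0
  rw [g.symm11]
  exact y'.2 _ hy)

theorem rb11_mk (y y' : cen g Y) :
    rb11 g Y (Submodule.Quotient.mk y) (Submodule.Quotient.mk y') = g.b11 (y : L₁) (y' : L₁) :=
  rfl

/-- The reduced Lie superalgebra. -/
def redL (hY2 : ∀ x, ∀ y ∈ Y, g.b01 x y ∈ Y) : LieSuper k L₀ (QY g Y) where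
  b00 := g.b00
  b01 := rb01 hY2
  b11 := rb11 g Y
  self00 := g.self00
  symm11 := by
    intro y y'
    obtain ⟨y, rfl⟩ := Submodule.Quotient.mk_surjective _ y
    obtain ⟨y', rfl⟩ := Submodule.Quotient.mk_surjective _ y'
    rw [rb11_mk, rb11_mk, g.symm11]
  jac000 := g.jac000
  jac001 := by
    intro x x' y
    obtain ⟨y, rfl⟩ := Submodule.Quotient.mk_surjective _ y
    simp only [rb01_mk]
    rw [← Submodule.Quotient.mk_sub]
    congr 1
    apply Subtype.ext
    exact g.jac001 x x' y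
  jac011 := by
    intro x y y'
    obtain ⟨y, rfl⟩ := Submodule.Quotient.mk_surjective _ y
    obtain ⟨y', rfl⟩ := Submodule.Quotient.mk_surjective _ y'
    simp only [rb01_mk, rb11_mk]
    exact g.jac011 x y y'
  jac111 := by
    intro y
    obtain ⟨y, rfl⟩ := Submodule.Quotient.mk_surjective _ y
    rw [rb11_mk, rb01_mk, Submodule.Quotient.mk_eq_zero]
    show g.b01 (g.b11 (y : L₁) (y : L₁)) (y : L₁) ∈ Y
    rw [g.jac111]
    exact Y.zero_mem

theorem redL_res (hY2 : ∀ x, ∀ y ∈ Y, g.b01 x y ∈ Y) {p : ℕ}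
    (hres : ∀ x, ∃ x', g.b00 x' = (g.b00 x) ^ p ∧ g.b01 x' = (g.b01 x) ^ p) :
    ∀ x, ∃ x', (redL hY2).b00 x' = ((redL hY2).b00 x) ^ p ∧
      (redL hY2).b01 x' = ((redL hY2).b01 x) ^ p := by
  intro x
  obtain ⟨x', h0, h1⟩ := hres x
  refine ⟨x', h0, ?_⟩
  have key : ∀ (j : ℕ) (y : cen g Y), ∃ h : ((g.b01 x) ^ j) (y : L₁) ∈ cen g Y,
      ((redL hY2).b01 x ^ j) (Submodule.Quotient.mk y) = Submodule.Quotient.mk ⟨_, h⟩ := by
    intro j
    induction j with
    | zero => intro y; exact ⟨y.2, rfl⟩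
    | succ j ih =>
      intro y
      obtain ⟨h, he⟩ := ih ⟨g.b01 x y, cen_stable hY2 x y y.2⟩
      refine ⟨?_, ?_⟩
      · rw [pow_succ]; exact h
      · rw [pow_succ]
        exact he
  apply LinearMap.ext
  intro y
  obtain ⟨y, rfl⟩ := Submodule.Quotient.mk_surjective _ y
  obtain ⟨h, he⟩ := key p y
  rw [he]
  show rb01 hY2 x' (Submodule.Quotient.mk y) = _
  rw [rb01_mk]
  congr 1
  apply Subtype.ext
  show g.b01 x' (y : L₁) = _
  rw [h1]

end quot

section modstep

variable {k : Type u} {L₀ L₁ : Type*} {V : Type v} [Field k] [AddCommGroup L₀] [Module k L₀]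
  [AddCommGroup L₁] [Module k L₁] [AddCommGroup V] [Module k V]
  {g : LieSuper k L₀ L₁} {Y : Submodule k L₁}

/-- The vectors killed by `Y`. -/
def VY (M : SuperModule g V) (Y : Submodule k L₁) : Submodule k V where
  carrier := {v | ∀ y ∈ Y, M.ρ₁ y v = 0}
  add_mem' := by
    intro a b ha hb y hy
    rw [map_add, ha y hy, hb y hy, add_zero]
  zero_mem' := by
    intro y _
    rw [map_zero]
  smul_mem' := by
    intro c a ha y hy
    rw [map_smul, ha y hy, smul_zero]

theorem VY_ne_bot [FiniteDimensional k L₁] [Nontrivial V] (h2 : (2 : k) ≠ 0) (M : SuperModule g V)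
    (hY1 : ∀ y ∈ Y, ∀ y' ∈ Y, g.b11 y y' = 0) : VY M Y ≠ ⊥ := by
  have hanti : ∀ y ∈ Y, ∀ y' ∈ Y, ∀ v, M.ρ₁ y (M.ρ₁ y' v) = - M.ρ₁ y' (M.ρ₁ y v) := by
    intro y hy y' hy' v
    have h1 := M.map11 y y'
    rw [hY1 y hy y' hy', map_zero] at h1
    have h3 := LinearMap.congr_fun h1 v
    simp only [LinearMap.zero_apply, LinearMap.add_apply, Module.End.mul_apply] at h3
    exact eq_neg_of_add_eq_zero_left h3.symm
  have hsq : ∀ y ∈ Y, ∀ v, M.ρ₁ y (M.ρ₁ y v) = 0 := by
    intro y hy v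
    have h1 := hanti y hy y hy v
    have h3 : (2 : k) • M.ρ₁ y (M.ρ₁ y v) = 0 := by
      rw [two_smul]
      nth_rewrite 1 [h1]
      simp
    exact (smul_eq_zero.1 h3).resolve_left h2
  have key : ∀ l : List L₁, (∀ y ∈ l, y ∈ Y) → ∃ v : V, v ≠ 0 ∧ ∀ y ∈ l, M.ρ₁ y v = 0 := by
    intro l
    induction l with
    | nil =>
      intro _
      obtain ⟨v, hv⟩ := exists_ne (0 : V)
      exact ⟨v, hv, fun y hy => absurd hy List.not_mem_nil⟩
    | cons y l ih =>
      intro hl
      obtain ⟨v, hv, hv2⟩ := ih fun z hz => hl z (List.mem_cons_of_mem _ hz)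
      have hy := hl y List.mem_cons_self
      by_cases h0 : M.ρ₁ y v = 0
      · refine ⟨v, hv, ?_⟩
        intro z hz
        rcases List.mem_cons.1 hz with rfl | hz
        · exact h0
        · exact hv2 z hz
      · refine ⟨M.ρ₁ y v, h0, ?_⟩
        intro z hz
        rcases List.mem_cons.1 hz with rfl | hz
        · exact hsq _ hy v
        · rw [hanti z (hl z (List.mem_cons_of_mem _ hz)) y hy, hv2 z hz, map_zero, neg_zero]
  obtain ⟨s, hs⟩ := (IsNoetherian.noetherian Y : Y.FG)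
  obtain ⟨v, hv, hv2⟩ := key s.toList (by
    intro y hy
    rw [← hs]
    exact Submodule.subset_span (Finset.mem_toList.1 hy))
  intro h0
  apply hv
  rw [← Submodule.mem_bot k, ← h0]
  intro y hy
  rw [← hs] at hy
  induction hy using Submodule.span_induction with
  | mem y hy => exact hv2 y (Finset.mem_toList.2 hy)
  | zero => rw [map_zero, LinearMap.zero_apply]
  | add a b _ _ ha hb => rw [map_add, LinearMap.add_apply, ha, hb, add_zero]
  | smul c a _ ha => rw [map_smul, LinearMap.smul_apply, ha, smul_zero]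

/-- The reduction step for irreducible modules. -/
theorem step_module [IsAlgClosed k] [FiniteDimensional k L₀] [FiniteDimensional k L₁]
    [FiniteDimensional k V] (p : ℕ) [hp : Fact p.Prime] [CharP k p] (hp2 : 2 < p)
    (hres : ∀ x, ∃ x', g.b00 x' = (g.b00 x) ^ p ∧ g.b01 x' = (g.b01 x) ^ p)
    (hY1 : ∀ y ∈ Y, ∀ y' ∈ Y, g.b11 y y' = 0) (hY2 : ∀ x, ∀ y ∈ Y, g.b01 x y ∈ Y)
    (M : SuperModule g V) (hM : M.IsIrreducible) :
    ∃ (U : Type v) (_ : AddCommGroup U) (_ : Module k U) (_ : FiniteDimensional k U)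
      (M' : SuperModule (redL hY2) U), M'.IsIrreducible ∧
      finrank k V ≤ 2 ^ (finrank k L₁ - finrank k (cen g Y)) * finrank k U := by
  classical
  have h2 : (2 : k) ≠ 0 := by
    intro h0
    have h1 : ((2 : ℕ) : k) = 0 := by exact_mod_cast h0
    rw [CharP.cast_eq_zero_iff k p] at h1
    have := Nat.le_of_dvd (by norm_num) h1
    omega
  have := hM.1
  obtain ⟨σ, hσ0, hσ1⟩ := exists_parity M
  -- the parity operator
  have hdec : ∀ v : V, ∃ a ∈ M.V₀, ∃ b ∈ M.V₁, v = a + b := by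
    intro v
    have : v ∈ M.V₀ ⊔ M.V₁ := by rw [M.compl.sup_eq_top]; trivial
    obtain ⟨a, ha, b, hb, rfl⟩ := Submodule.mem_sup.1 this
    exact ⟨a, ha, b, hb, rfl⟩
  have hσσ : ∀ v, σ (σ v) = v := by
    intro v
    obtain ⟨a, ha, b, hb, rfl⟩ := hdec v
    rw [map_add, hσ0 a ha, hσ1 b hb, map_add, hσ0 a ha, map_neg, hσ1 b hb, neg_neg]
  have hσρ₀ : ∀ x v, σ (M.ρ₀ x v) = M.ρ₀ x (σ v) := by
    intro x v
    obtain ⟨a, ha, b, hb, rfl⟩ := hdec v
    rw [map_add, map_add, map_add, hσ0 a ha, hσ1 b hb, hσ0 _ (M.even_V₀ x a ha),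
      hσ1 _ (M.even_V₁ x b hb), map_add, map_neg]
  have hσρ₁ : ∀ y v, σ (M.ρ₁ y v) = - M.ρ₁ y (σ v) := by
    intro y v
    obtain ⟨a, ha, b, hb, rfl⟩ := hdec v
    rw [map_add, map_add, map_add, hσ0 a ha, hσ1 b hb, hσ1 _ (M.odd_V₀ y a ha),
      hσ0 _ (M.odd_V₁ y b hb), map_add, map_neg]
    abel
  -- the subspace killed by `Y`
  have c0 : ∀ x, ∀ v ∈ VY M Y, M.ρ₀ x v ∈ VY M Y := by
    intro x v hv y hy
    have h1 := LinearMap.congr_fun (M.map01 x y) v
    simp only [LinearMap.sub_apply, Module.End.mul_apply] at h1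
    rw [hv _ (hY2 x y hy), hv y hy, map_zero, zero_sub] at h1
    exact neg_eq_zero.1 h1.symm
  have c1 : ∀ y ∈ cen g Y, ∀ v ∈ VY M Y, M.ρ₁ y v ∈ VY M Y := by
    intro y hy v hv y' hy'
    have h1 := LinearMap.congr_fun (M.map11 y y') v
    simp only [LinearMap.add_apply, Module.End.mul_apply] at h1
    rw [hy y' hy', hv y' hy', map_zero, map_zero, LinearMap.zero_apply, zero_add] at h1
    exact h1.symm
  have cσ : ∀ v ∈ VY M Y, σ v ∈ VY M Y := by
    intro v hv y hy
    have h1 := hσρ₁ y v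
    rw [hv y hy, map_zero] at h1
    exact neg_eq_zero.1 h1.symm
  have hnt : Nontrivial (VY M Y) := Submodule.nontrivial_iff_ne_bot.2 (VY_ne_bot h2 M hY1)
  let r0 : L₀ →ₗ[k] Module.End k (VY M Y) := restr M.ρ₀ (VY M Y) c0
  let r1a : cen g Y →ₗ[k] Module.End k (VY M Y) :=
    { toFun := fun y => (M.ρ₁ (y : L₁)).restrict (c1 y y.2)
      map_add' := by
        intro a b
        ext v
        simp
      map_smul' := by
        intro c a
        ext v
        simp }
  have r1a_apply : ∀ (y : cen g Y) (v : VY M Y), ((r1a y v : VY M Y) : V) = M.ρ₁ (y : L₁) v :=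
    fun y v => rfl
  let r1 : QY g Y →ₗ[k] Module.End k (VY M Y) := (Yin g Y).liftQ r1a (by
    intro y hy
    rw [LinearMap.mem_ker]
    ext v
    exact v.2 _ hy)
  have r1_mk : ∀ y : cen g Y, r1 (Submodule.Quotient.mk y) = r1a y := fun y => rfl
  let s : Module.End k (VY M Y) := σ.restrict cσ
  have s_apply : ∀ v : VY M Y, ((s v : VY M Y) : V) = σ v := fun v => rfl
  obtain ⟨W, hW0, hW1, hWs, M', hM'⟩ := exists_irreducible h2 (redL hY2) r0 r1 s
    (by
      apply LinearMap.ext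
      intro v
      apply Subtype.ext
      exact hσσ (v : V))
    (by
      intro x
      apply LinearMap.ext
      intro v
      apply Subtype.ext
      exact hσρ₀ x v)
    (by
      intro y
      obtain ⟨y, rfl⟩ := Submodule.Quotient.mk_surjective _ y
      apply LinearMap.ext
      intro v
      apply Subtype.ext
      exact hσρ₁ y v)
    (by
      intro x x'
      apply LinearMap.ext
      intro v
      apply Subtype.ext
      exact LinearMap.congr_fun (M.map00 x x') v)
    (by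
      intro x y
      obtain ⟨y, rfl⟩ := Submodule.Quotient.mk_surjective _ y
      apply LinearMap.ext
      intro v
      apply Subtype.ext
      exact LinearMap.congr_fun (M.map01 x y) v)
    (by
      intro y y'
      obtain ⟨y, rfl⟩ := Submodule.Quotient.mk_surjective _ y
      obtain ⟨y', rfl⟩ := Submodule.Quotient.mk_surjective _ y'
      apply LinearMap.ext
      intro v
      apply Subtype.ext
      exact LinearMap.congr_fun (M.map11 y y') v)
  let U : Submodule k V := W.map (VY M Y).subtype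
  let e : W ≃ₗ[k] U := (VY M Y).equivSubtypeMap W
  have hWn := hM'.1
  have hU : U ≠ ⊥ := by
    intro h0
    refine (Submodule.nontrivial_iff_ne_bot.1 hWn) ?_
    rw [eq_bot_iff]
    intro w hw
    have h3 : ((w : VY M Y) : V) ∈ U := ⟨w, hw, rfl⟩
    rw [h0, Submodule.mem_bot] at h3
    rw [Submodule.mem_bot]
    exact Subtype.ext h3
  have hdim : finrank k U = finrank k W := e.finrank_eq.symm
  have hb := dim_le_two_pow p hp2 g hres M hM hσ0 hσ1 (cen g Y) U hU
    (by
      rintro x _ ⟨w, hw, rfl⟩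
      exact ⟨_, hW0 x w hw, rfl⟩)
    (by
      rintro y hy _ ⟨w, hw, rfl⟩
      exact ⟨_, hW1 (Submodule.Quotient.mk ⟨y, hy⟩) w hw, rfl⟩)
    (by
      rintro _ ⟨w, hw, rfl⟩
      exact ⟨_, hWs w hw, rfl⟩)
  rw [hdim] at hb
  exact ⟨W, inferInstance, inferInstance, inferInstance, M', hM', hb⟩

end modstep

end Pool.Agent.Helper56.SKR
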