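import Mathlib
import Pool.Agent.Helper56.SKR.StepB

/-!
# The reduction step: dimension count and comparison
-/

namespace Pool.Agent.Helper56.SKR

open Module Pool.Agent.Helper56.SKW Pool.Agent.Helper56.SKW.PBW Pool.Agent.Helper56.SKU

universe u v

section count

variable {k L₀ L₁ : Type*} [Field k] [AddCommGroup L₀] [Module k L₀] [AddCommGroup L₁]
  [Module k L₁] {g : LieSuper k L₀ L₁} {Y : Submodule k L₁}

theorem form₁_symm (θ : L₀ →ₗ[k] k) (y y' : L₁) : form₁ g θ y y' = form₁ g θ y' y := by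
  show θ (g.b11 y y') = θ (g.b11 y' y)
  rw [g.symm11]

/-- For a symmetric form, `dim S - dim (S ⊓ rad) = dim L - dim S^⊥`. -/
theorem finrank_perp {L : Type*} [AddCommGroup L] [Module k L] [FiniteDimensional k L]
    (B : L →ₗ[k] L →ₗ[k] k) (hB : ∀ y y', B y y' = B y' y) (S T : Submodule k L)
    (hT : ∀ y, y ∈ T ↔ ∀ y' ∈ S, B y y' = 0) :
    finrank k T + finrank k S = finrank k L + finrank k (S ⊓ LinearMap.ker B : Submodule k L) := by
  let f : L →ₗ[k] Dual k S := (LinearMap.lcomp k k S.subtype).comp B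
  have hf : ∀ (y : L) (y' : S), f y y' = B y y' := fun y y' => rfl
  have hker : LinearMap.ker f = T := by
    ext y
    rw [LinearMap.mem_ker, hT]
    constructor
    · intro h y' hy'
      have := LinearMap.congr_fun h ⟨y', hy'⟩
      simpa [hf] using this
    · intro h
      ext y'
      rw [hf, h _ y'.2, LinearMap.zero_apply]
  let f' : S →ₗ[k] Dual k L := B.comp S.subtype
  have hcomp : f' = f.dualMap.comp (evalEquiv k S).toLinearMap := by
    ext y y'
    show B (y : L) y' = f y' y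
    rw [hf, hB]
  have hr : finrank k (LinearMap.range f') = finrank k (LinearMap.range f) := by
    rw [hcomp, LinearMap.range_comp, LinearEquiv.range, Submodule.map_top]
    exact LinearMap.finrank_range_dualMap_eq_finrank_range f
  have h1 := LinearMap.finrank_range_add_finrank_ker f
  have h2 := LinearMap.finrank_range_add_finrank_ker f'
  have h3 : finrank k (LinearMap.ker f') = finrank k (S ⊓ LinearMap.ker B : Submodule k L) := by
    have h4 : (LinearMap.ker f').map S.subtype = S ⊓ LinearMap.ker B := by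
      ext y
      constructor
      · rintro ⟨z, hz, rfl⟩
        exact ⟨z.2, hz⟩
      · rintro ⟨hy, hy2⟩
        exact ⟨⟨y, hy⟩, hy2, rfl⟩
    rw [← h4]
    exact (LinearEquiv.finrank_eq (Submodule.equivSubtypeMap S (LinearMap.ker f')))
  rw [hker] at h1
  rw [h3, hr] at h2
  omega

variable [FiniteDimensional k L₁]

theorem count_red (hY1 : ∀ y ∈ Y, ∀ y' ∈ Y, g.b11 y y' = 0)
    (hY2 : ∀ x, ∀ y ∈ Y, g.b01 x y ∈ Y) (θ : L₀ →ₗ[k] k)
    (hY3 : ∀ y, (∀ y' ∈ Y, θ (g.b11 y y') = 0) → ∀ y' ∈ Y, g.b11 y y' = 0) :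
    finrank k (QY g Y) + finrank k Y = finrank k (cen g Y) ∧
    finrank k (cen g Y) ≤ finrank k L₁ ∧
    finrank k (cen g Y) + finrank k Y = finrank k L₁ +
      finrank k (Y ⊓ LinearMap.ker (form₁ g θ) : Submodule k L₁) ∧
    bOdd (redL hY2) θ + 2 * (finrank k L₁ - finrank k (cen g Y)) = bOdd g θ := by
  have hYH : Y ≤ cen g Y := fun y hy y' hy' => hY1 y hy y' hy'
  have hYin : finrank k (Yin g Y) = finrank k Y := by
    have h1 : (Yin g Y).map (cen g Y).subtype = Y := by
      rw [Submodule.map_comap_subtype]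
      exact inf_eq_right.2 hYH
    have h2 := LinearEquiv.finrank_eq (Submodule.equivSubtypeMap (cen g Y) (Yin g Y))
    rw [h2]
    exact congrArg (fun S : Submodule k L₁ => finrank k S) h1
  have e1 : finrank k (QY g Y) + finrank k Y = finrank k (cen g Y) := by
    have := Submodule.finrank_quotient_add_finrank (Yin g Y)
    rw [hYin] at this
    exact this
  have e2 : finrank k (cen g Y) ≤ finrank k L₁ := Submodule.finrank_le _
  have hsymm := form₁_symm (g := g) θ
  have hT : ∀ y, y ∈ cen g Y ↔ ∀ y' ∈ Y, form₁ g θ y y' = 0 := by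
    intro y
    constructor
    · intro h y' hy'
      show θ (g.b11 y y') = 0
      rw [h y' hy', map_zero]
    · exact hY3 y
  have e3 := finrank_perp (form₁ g θ) hsymm Y (cen g Y) hT
  refine ⟨e1, e2, e3, ?_⟩
  -- the radical
  let R := LinearMap.ker (form₁ g θ)
  have hRH : R ≤ cen g Y := by
    intro y hy
    rw [hT]
    intro y' _
    have := LinearMap.congr_fun (LinearMap.mem_ker.1 hy) y'
    simpa using this
  let HP : Submodule k L₁ :=
    { carrier := {y | ∀ y' ∈ cen g Y, form₁ g θ y y' = 0}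
      add_mem' := by
        intro a b ha hb y hy
        rw [map_add, LinearMap.add_apply, ha y hy, hb y hy, add_zero]
      zero_mem' := by
        intro y _
        rw [map_zero, LinearMap.zero_apply]
      smul_mem' := by
        intro c a ha y hy
        rw [map_smul, LinearMap.smul_apply, ha y hy, smul_zero] }
  have e4 := finrank_perp (form₁ g θ) hsymm (cen g Y) HP (fun y => Iff.rfl)
  have e5 : cen g Y ⊓ LinearMap.ker (form₁ g θ) = R := inf_eq_right.2 hRH
  rw [e5] at e4
  have e6 := Submodule.finrank_sup_add_finrank_inf_eq Y R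
  have hsub : Y ⊔ R ≤ HP := by
    refine sup_le ?_ ?_
    · intro y hy y' hy'
      rw [hsymm]
      exact (hT y').1 hy' y hy
    · intro y hy y' _
      have := LinearMap.congr_fun (LinearMap.mem_ker.1 hy) y'
      simpa using this
  have e7 : Y ⊔ R = HP := by
    apply Submodule.eq_of_le_of_finrank_eq hsub
    have e8 : finrank k (Y ⊓ R : Submodule k L₁) = finrank k (Y ⊓ LinearMap.ker (form₁ g θ) :
      Submodule k L₁) := rfl
    omega
  -- the radical of the reduced form
  have e9 : finrank k (LinearMap.ker (form₁ (redL hY2) θ)) + finrank k Y = finrank k HP := by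
    have hHPH : HP ≤ cen g Y := by rw [← e7]; exact sup_le hYH hRH
    let HPin : Submodule k (cen g Y) := HP.comap (cen g Y).subtype
    have h1 : HPin.map (cen g Y).subtype = HP := by
      rw [Submodule.map_comap_subtype]
      exact inf_eq_right.2 hHPH
    have h2 : finrank k HPin = finrank k HP := by
      have h2 := LinearEquiv.finrank_eq (Submodule.equivSubtypeMap (cen g Y) HPin)
      rw [h2]
      exact congrArg (fun S : Submodule k L₁ => finrank k S) h1
    have h3 : LinearMap.ker (form₁ (redL hY2) θ) = HPin.map (Yin g Y).mkQ := by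
      ext q
      obtain ⟨y, rfl⟩ := Submodule.Quotient.mk_surjective _ q
      rw [LinearMap.mem_ker]
      constructor
      · intro h
        refine ⟨y, ?_, rfl⟩
        intro y' hy'
        exact LinearMap.congr_fun h (Submodule.Quotient.mk ⟨y', hy'⟩)
      · rintro ⟨z, hz, hzy⟩
        rw [← hzy]
        apply LinearMap.ext
        intro q'
        obtain ⟨y', rfl⟩ := Submodule.Quotient.mk_surjective _ q'
        exact hz _ y'.2
    let φ : HPin →ₗ[k] QY g Y := (Yin g Y).mkQ.comp HPin.subtype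
    have h4 := LinearMap.finrank_range_add_finrank_ker φ
    have h5 : LinearMap.range φ = HPin.map (Yin g Y).mkQ := by
      rw [LinearMap.range_comp, Submodule.range_subtype]
    have h6 : finrank k (LinearMap.ker φ) = finrank k Y := by
      have h7 : (LinearMap.ker φ).map HPin.subtype = Yin g Y := by
        ext y
        constructor
        · rintro ⟨z, hz, rfl⟩
          have h8 : (Yin g Y).mkQ (z : cen g Y) = 0 := hz
          rw [Submodule.mkQ_apply, Submodule.Quotient.mk_eq_zero] at h8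
          exact h8
        · intro hy
          have hy2 : (y : L₁) ∈ HP := by rw [← e7]; exact (le_sup_left : Y ≤ Y ⊔ R) hy
          refine ⟨⟨y, hy2⟩, ?_, rfl⟩
          show (Yin g Y).mkQ y = 0
          rw [Submodule.mkQ_apply, Submodule.Quotient.mk_eq_zero]
          exact hy
      have h9 := LinearEquiv.finrank_eq (Submodule.equivSubtypeMap HPin (LinearMap.ker φ))
      rw [h9, ← hYin]
      exact congrArg (fun S : Submodule k (cen g Y) => finrank k S) h7
    rw [h3, ← h5, ← h6, h4, h2]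
  have e10 : finrank k (LinearMap.ker (form₁ (redL hY2) θ)) ≤ finrank k (QY g Y) :=
    Submodule.finrank_le _
  have e11 : finrank k R ≤ finrank k L₁ := Submodule.finrank_le _
  have e12 : finrank k (Y ⊓ R : Submodule k L₁) ≤ finrank k Y :=
    Submodule.finrank_mono inf_le_left
  have e13 : finrank k (Y ⊓ R : Submodule k L₁) ≤ finrank k R :=
    Submodule.finrank_mono inf_le_right
  have e14 : finrank k (Y ⊓ R : Submodule k L₁) = finrank k (Y ⊓ LinearMap.ker (form₁ g θ) :
      Submodule k L₁) := rfl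
  have e15 : finrank k R = finrank k (LinearMap.ker (form₁ g θ)) := rfl
  unfold bOdd
  omega

end count

section final

variable {k : Type u} {L₀ L₁ : Type*} [Field k] [AddCommGroup L₀] [Module k L₀]
  [AddCommGroup L₁] [Module k L₁] {g : LieSuper k L₀ L₁} {Y : Submodule k L₁}

theorem maxEven_red (hY2 : ∀ x, ∀ y ∈ Y, g.b01 x y ∈ Y) {D : ℕ} :
    MaxEven (redL hY2) D ↔ MaxEven g D := by
  constructor
  · rintro ⟨⟨V, i1, i2, i3, M, hM, hV⟩, h⟩
    exact ⟨⟨V, i1, i2, i3, ⟨M.ρ, M.map⟩, hM, hV⟩,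
      fun V _ _ _ M hM => h V ⟨M.ρ, M.map⟩ hM⟩
  · rintro ⟨⟨V, i1, i2, i3, M, hM, hV⟩, h⟩
    exact ⟨⟨V, i1, i2, i3, ⟨M.ρ, M.map⟩, hM, hV⟩,
      fun V _ _ _ M hM => h V ⟨M.ρ, M.map⟩ hM⟩

theorem maxEven_unique {D D' : ℕ} (h : MaxEven g D) (h' : MaxEven g D') : D = D' := by
  obtain ⟨⟨V, i1, i2, i3, M, hM, hV⟩, h1⟩ := h
  obtain ⟨⟨V', i1', i2', i3', M', hM', hV'⟩, h1'⟩ := h'
  apply le_antisymm
  · rw [← hV]; exact h1' V M hM
  · rw [← hV']; exact h1 V' M' hM'

theorem maxSuper_unique {D D' : ℕ} (h : MaxSuper g D) (h' : MaxSuper g D') : D = D' := by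
  obtain ⟨⟨V, i1, i2, i3, M, hM, hV⟩, h1⟩ := h
  obtain ⟨⟨V', i1', i2', i3', M', hM', hV'⟩, h1'⟩ := h'
  apply le_antisymm
  · rw [← hV]; exact h1' V M hM
  · rw [← hV']; exact h1 V' M' hM'

/-- **Comparison of the two maxima, with an isotropic subspace.** -/
theorem compare_red [IsAlgClosed k] [FiniteDimensional k L₀] [FiniteDimensional k L₁] (p : ℕ)
    [hp : Fact p.Prime] [CharP k p] (hp2 : 2 < p) (g : LieSuper k L₀ L₁) (θ : L₀ →ₗ[k] k)
    (hres : ∀ x, ∃ x', g.b00 x' = (g.b00 x) ^ p ∧ g.b01 x' = (g.b01 x) ^ p)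
    (Y : Submodule k L₁) (hY1 : ∀ y ∈ Y, ∀ y' ∈ Y, g.b11 y y' = 0)
    (hY2 : ∀ x, ∀ y ∈ Y, g.b01 x y ∈ Y)
    (hY3 : ∀ y, (∀ y' ∈ Y, θ (g.b11 y y') = 0) → ∀ y' ∈ Y, g.b11 y y' = 0) :
    ∃ D₀ D : ℕ, MaxEven g D₀ ∧ MaxSuper g D ∧ 2 ^ ((bOdd g θ + 1) / 2) * D₀ ∣ D ∧
      ∀ δ : ℕ, finrank k L₁ + 1 ≤ 2 * ((bOdd g θ + 1) / 2) + δ +
          finrank k (Y ⊓ LinearMap.ker (form₁ g θ) : Submodule k L₁) → 2 ^ δ < p →
        D * D ≤ 2 ^ δ * ((2 ^ ((bOdd g θ + 1) / 2) * D₀) * (2 ^ ((bOdd g θ + 1) / 2) * D₀)) := by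
  obtain ⟨D₀, D, hD₀, hD, hdvd, -⟩ := compare p hp2 g θ hres
  obtain ⟨D₀', D', hD₀', hD', -, hb⟩ := compare p hp2 (redL hY2) θ (redL_res hY2 hres)
  have hDD : D₀' = D₀ := maxEven_unique ((maxEven_red hY2).1 hD₀') hD₀
  rw [hDD] at hb
  obtain ⟨c1, c2, c3, c4⟩ := count_red hY1 hY2 θ hY3
  refine ⟨D₀, D, hD₀, hD, hdvd, ?_⟩
  intro δ hδ hδp
  let c := finrank k L₁ - finrank k (cen g Y)
  have hc4 : bOdd (redL hY2) θ + 2 * c = bOdd g θ := c4
  have hDle : D ≤ 2 ^ c * D' := by
    obtain ⟨⟨V, i1, i2, i3, M, hM, hV⟩, -⟩ := hD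
    obtain ⟨U, j1, j2, j3, M', hM', hU⟩ := step_module p hp2 hres hY1 hY2 M hM
    rw [hV] at hU
    exact hU.trans (Nat.mul_le_mul_left _ (hD'.2 U M' hM'))
  have he : (bOdd g θ + 1) / 2 = (bOdd (redL hY2) θ + 1) / 2 + c := by omega
  have hfin := hb δ (by
    have hcdef : c = finrank k L₁ - finrank k (cen g Y) := rfl
    omega) hδp
  calc D * D ≤ (2 ^ c * D') * (2 ^ c * D') := Nat.mul_le_mul hDle hDle
    _ = (2 ^ c * 2 ^ c) * (D' * D') := by ring
    _ ≤ (2 ^ c * 2 ^ c) * (2 ^ δ * ((2 ^ ((bOdd (redL hY2) θ + 1) / 2) * D₀) *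
        (2 ^ ((bOdd (redL hY2) θ + 1) / 2) * D₀))) := Nat.mul_le_mul_left _ hfin
    _ = _ := by
      rw [he, pow_add]
      ring

end final

end Pool.Agent.Helper56.SKR
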