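import Mathlib
import Pool.Agent.Helper56.SKR.StepC
import Pool.Agent.Helper56.SKW.Ado

/-!
# Semicontinuity of ranks and the equivalence of the two conjectures
-/

namespace Pool.Agent.Helper56.SKR

open Module Pool.Agent.Helper56.SKW Pool.Agent.Helper56.SKW.PBW Pool.Agent.Helper56.SKU

universe u v

section semi

variable {k : Type*} [Field k]

/-- If `-t⁻¹` is not an eigenvalue of an auxiliary operator then the rank of `A + t B` is at
least the rank of `A`. -/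
theorem exists_aux {V W : Type*} [AddCommGroup V] [Module k V] [AddCommGroup W] [Module k W]
    [FiniteDimensional k V] (A B : V →ₗ[k] W) :
    ∃ S : Set k, S.Finite ∧ ∀ t : k, t ≠ 0 → -t⁻¹ ∉ S →
      finrank k (LinearMap.ker (A + t • B)) ≤ finrank k (LinearMap.ker A) := by
  obtain ⟨C, hC⟩ := (LinearMap.ker A).exists_isCompl
  have hinj : Function.Injective (A.comp C.subtype) := by
    rw [← LinearMap.ker_eq_bot, LinearMap.ker_eq_bot']
    intro c hc
    have h1 : (c : V) ∈ LinearMap.ker A ⊓ C := ⟨hc, c.2⟩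
    rw [hC.inf_eq_bot, Submodule.mem_bot] at h1
    exact Subtype.ext h1
  obtain ⟨P, hP⟩ := LinearMap.exists_leftInverse_of_injective _ (LinearMap.ker_eq_bot.2 hinj)
  let T : Module.End k C := P.comp (B.comp C.subtype)
  refine ⟨{μ | T.HasEigenvalue μ}, Module.End.finite_hasEigenvalue T, ?_⟩
  intro t ht hμ
  have h1 : Disjoint (LinearMap.ker (A + t • B)) C := by
    rw [Submodule.disjoint_def]
    intro v hv hvC
    by_contra hv0
    apply hμ
    refine Module.End.hasEigenvalue_of_hasEigenvector (x := (⟨v, hvC⟩ : C)) ⟨?_, ?_⟩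
    · rw [Module.End.mem_eigenspace_iff]
      have h2 : P ((A + t • B) v) = 0 := by
        rw [LinearMap.mem_ker.1 hv, map_zero]
      have h3 : P (A v) = ⟨v, hvC⟩ := LinearMap.congr_fun hP ⟨v, hvC⟩
      rw [LinearMap.add_apply, LinearMap.smul_apply, map_add, map_smul, h3] at h2
      have h4 : T ⟨v, hvC⟩ = P (B v) := rfl
      rw [h4]
      have h5 : t • P (B v) = - (⟨v, hvC⟩ : C) := (eq_neg_of_add_eq_zero_right h2)
      calc P (B v) = t⁻¹ • (t • P (B v)) := by rw [smul_smul, inv_mul_cancel₀ ht, one_smul]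
        _ = (-t⁻¹) • (⟨v, hvC⟩ : C) := by rw [h5, smul_neg, neg_smul]
    · intro h0
      apply hv0
      exact congrArg Subtype.val h0
  have h2 := Submodule.finrank_add_finrank_le_of_disjoint h1
  have h3 := Submodule.finrank_add_eq_of_isCompl hC
  omega

variable {L₀ L₁ : Type*} [AddCommGroup L₀] [Module k L₀] [AddCommGroup L₁] [Module k L₁]
  [FiniteDimensional k L₀] [FiniteDimensional k L₁]

theorem exists_semi [Infinite k] (g : LieSuper k L₀ L₁) (θ₁ θ₂ : L₀ →ₗ[k] k) :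
    ∃ θ : L₀ →ₗ[k] k, bEven g θ₁ ≤ bEven g θ ∧ bOdd g θ₂ ≤ bOdd g θ := by
  classical
  obtain ⟨S0, hS0, h0⟩ := exists_aux (form₀ g θ₁) (form₀ g θ₂)
  obtain ⟨S1, hS1, h1⟩ := exists_aux (form₁ g θ₂) (form₁ g θ₁)
  have hf0 : (({0} : Set k) ∪ (S0.image fun s => -s⁻¹) ∪ (S1.image fun s => -s)).Finite :=
    ((Set.finite_singleton 0).union (hS0.image _)).union (hS1.image _)
  obtain ⟨t, ht⟩ := hf0.infinite_compl.nonempty
  rw [Set.mem_compl_iff, Set.mem_union, Set.mem_union, not_or, not_or] at ht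
  obtain ⟨⟨ht0, ht1⟩, ht2⟩ := ht
  have ht0' : t ≠ 0 := fun h => ht0 h
  refine ⟨θ₁ + t • θ₂, ?_, ?_⟩
  · have h2 := h0 t ht0' (by
      intro h3
      apply ht1
      refine ⟨_, h3, ?_⟩
      show -(-t⁻¹)⁻¹ = t
      rw [inv_neg, inv_inv, neg_neg])
    have h3 : form₀ g (θ₁ + t • θ₂) = form₀ g θ₁ + t • form₀ g θ₂ := by
      ext x x'
      rfl
    unfold bEven
    rw [h3]
    omega
  · have h2 := h1 t⁻¹ (inv_ne_zero ht0') (by
      intro h3
      apply ht2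
      refine ⟨_, h3, ?_⟩
      show -(-(t⁻¹)⁻¹) = t
      rw [inv_inv, neg_neg])
    have h3 : form₁ g (θ₁ + t • θ₂) = t • (form₁ g θ₂ + t⁻¹ • form₁ g θ₁) := by
      ext x x'
      show θ₁ (g.b11 x x') + t * θ₂ (g.b11 x x') =
        t * (θ₂ (g.b11 x x') + t⁻¹ * θ₁ (g.b11 x x'))
      rw [mul_add, ← mul_assoc, mul_inv_cancel₀ ht0', one_mul, add_comm]
    unfold bOdd
    rw [h3, LinearMap.ker_smul _ _ ht0']
    omega

end semi

section equiv

variable {k : Type u} {L₀ L₁ : Type*} [Field k] [AddCommGroup L₀] [Module k L₀]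
  [AddCommGroup L₁] [Module k L₁]

/-- **The reduction theorem.** -/
theorem reduction [IsAlgClosed k] [FiniteDimensional k L₀] [FiniteDimensional k L₁] (p : ℕ)
    [hp : Fact p.Prime] [CharP k p] (hp2 : 2 < p) (g : LieSuper k L₀ L₁) (θ : L₀ →ₗ[k] k)
    (hres : ∀ x, ∃ x', g.b00 x' = (g.b00 x) ^ p ∧ g.b01 x' = (g.b01 x) ^ p)
    (Y : Submodule k L₁) (hY1 : ∀ y ∈ Y, ∀ y' ∈ Y, g.b11 y y' = 0)
    (hY2 : ∀ x, ∀ y ∈ Y, g.b01 x y ∈ Y)
    (hY3 : ∀ y, (∀ y' ∈ Y, θ (g.b11 y y') = 0) → ∀ y' ∈ Y, g.b11 y y' = 0) :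
    ∃ D₀ D m : ℕ, MaxEven g D₀ ∧ MaxSuper g D ∧ D = m * (2 ^ ((bOdd g θ + 1) / 2) * D₀) ∧
      (∀ δ : ℕ, finrank k (LinearMap.ker (form₁ g θ)) + 1 ≤
        finrank k (Y ⊓ LinearMap.ker (form₁ g θ) : Submodule k L₁) + bOdd g θ % 2 + δ →
        2 ^ δ < p → m * m ≤ 2 ^ δ) ∧
      (finrank k (LinearMap.ker (form₁ g θ)) ≤
        finrank k (Y ⊓ LinearMap.ker (form₁ g θ) : Submodule k L₁) + bOdd g θ % 2 →
        D = 2 ^ ((bOdd g θ + 1) / 2) * D₀ ∧
        (IsGreatest {d | ∃ θ' : L₀ →ₗ[k] k,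
            d = p ^ (bEven g θ' / 2) * 2 ^ ((bOdd g θ' + 1) / 2)} D ↔
          IsGreatest {d | ∃ θ' : L₀ →ₗ[k] k, d = p ^ (bEven g θ' / 2)} D₀)) := by
  obtain ⟨D₀, D, hD₀, hD, ⟨m, hm⟩, hb⟩ := compare_red p hp2 g θ hres Y hY1 hY2 hY3
  have hinf : Infinite k := IsAlgClosed.instInfinite
  have hD₀pos : 0 < D₀ := by
    obtain ⟨⟨V, i1, i2, i3, M, hM, hV⟩, -⟩ := hD₀
    have := hM.1
    rw [← hV]
    exact finrank_pos
  have hDpos : 0 < D := by
    obtain ⟨⟨V, i1, i2, i3, M, hM, hV⟩, -⟩ := hD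
    have := hM.1
    rw [← hV]
    exact finrank_pos
  let E := 2 ^ ((bOdd g θ + 1) / 2) * D₀
  have hE : 0 < E := Nat.mul_pos (by positivity) hD₀pos
  have hmE : D = E * m := hm
  have hker : finrank k (LinearMap.ker (form₁ g θ)) + bOdd g θ = finrank k L₁ := by
    have : finrank k (LinearMap.ker (form₁ g θ)) ≤ finrank k L₁ := Submodule.finrank_le _
    unfold bOdd
    omega
  have hbound : ∀ δ : ℕ, finrank k (LinearMap.ker (form₁ g θ)) + 1 ≤
      finrank k (Y ⊓ LinearMap.ker (form₁ g θ) : Submodule k L₁) + bOdd g θ % 2 + δ →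
      2 ^ δ < p → m * m ≤ 2 ^ δ := by
    intro δ hδ hδp
    have h1 := hb δ (by omega) hδp
    have h2 : (E * E) * (m * m) ≤ (E * E) * 2 ^ δ := by
      calc (E * E) * (m * m) = D * D := by rw [hmE]; ring
        _ ≤ 2 ^ δ * (E * E) := h1
        _ = (E * E) * 2 ^ δ := by ring
    exact Nat.le_of_mul_le_mul_left h2 (Nat.mul_pos hE hE)
  refine ⟨D₀, D, m, hD₀, hD, by rw [hm, mul_comm], hbound, ?_⟩
  intro hN
  have hm1 : m * m ≤ 2 ^ 1 := hbound 1 (by omega) (by simpa using hp2)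
  have hm2 : m = 1 := by
    have h1 : m ≠ 0 := by
      rintro rfl
      rw [mul_zero] at hmE
      omega
    have h2 : m < 2 := by
      by_contra h3
      push Not at h3
      have : 2 * 2 ≤ m * m := Nat.mul_le_mul h3 h3
      omega
    omega
  have hDE : D = 2 ^ ((bOdd g θ + 1) / 2) * D₀ := by
    rw [hmE, hm2, mul_one]
  refine ⟨hDE, ?_⟩
  -- all values are at most `D`
  have hlow : ∀ θ' : L₀ →ₗ[k] k, p ^ (bEven g θ' / 2) * 2 ^ ((bOdd g θ' + 1) / 2) ≤ D := by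
    intro θ'
    obtain ⟨V, i1, i2, i3, M, hM, hd⟩ := main_general p (by omega) g θ'
    have := hM.1
    exact (Nat.le_of_dvd finrank_pos hd).trans (hD.2 V M hM)
  have hlow0 : ∀ θ' : L₀ →ₗ[k] k, p ^ (bEven g θ' / 2) ≤ D₀ := by
    intro θ'
    obtain ⟨θ'', h1, h2⟩ := exists_semi g θ' θ
    have h3 : p ^ (bEven g θ' / 2) * 2 ^ ((bOdd g θ + 1) / 2) ≤
        D₀ * 2 ^ ((bOdd g θ + 1) / 2) := by
      calc p ^ (bEven g θ' / 2) * 2 ^ ((bOdd g θ + 1) / 2) ≤
          p ^ (bEven g θ'' / 2) * 2 ^ ((bOdd g θ'' + 1) / 2) := by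
            refine Nat.mul_le_mul (Nat.pow_le_pow_right hp.out.pos ?_)
              (Nat.pow_le_pow_right (by norm_num) ?_)
            · omega
            · omega
        _ ≤ D := hlow θ''
        _ = _ := by rw [hDE, mul_comm]
    exact Nat.le_of_mul_le_mul_right h3 (by positivity)
  have hodd : ∀ θ' : L₀ →ₗ[k] k, (bOdd g θ' + 1) / 2 ≤ (bOdd g θ + 1) / 2 := by
    intro θ'
    obtain ⟨D₀', D', hD₀', hD', hdvd, -⟩ := compare p hp2 g θ' hres
    have e1 : D₀' = D₀ := maxEven_unique hD₀' hD₀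
    have e2 : D' = D := maxSuper_unique hD' hD
    rw [e1, e2] at hdvd
    have h1 := Nat.le_of_dvd hDpos hdvd
    rw [hDE] at h1
    have h2 := Nat.le_of_mul_le_mul_right h1 hD₀pos
    exact (Nat.pow_le_pow_iff_right (by norm_num)).1 h2
  constructor
  · rintro ⟨⟨θ', hθ'⟩, -⟩
    have h1 : D₀ ≤ p ^ (bEven g θ' / 2) := by
      have h2 : 2 ^ ((bOdd g θ + 1) / 2) * D₀ ≤ 2 ^ ((bOdd g θ + 1) / 2) *
          p ^ (bEven g θ' / 2) := by
        rw [← hDE, hθ', mul_comm]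
        exact Nat.mul_le_mul_right _ (Nat.pow_le_pow_right (by norm_num) (hodd θ'))
      exact Nat.le_of_mul_le_mul_left h2 (by positivity)
    refine ⟨⟨θ', le_antisymm h1 (hlow0 θ')⟩, ?_⟩
    rintro _ ⟨θ'', rfl⟩
    exact hlow0 θ''
  · rintro ⟨⟨θ', hθ'⟩, -⟩
    obtain ⟨θ'', h1, h2⟩ := exists_semi g θ' θ
    refine ⟨⟨θ'', le_antisymm ?_ (hlow θ'')⟩, ?_⟩
    · rw [hDE, hθ', mul_comm]
      refine Nat.mul_le_mul (Nat.pow_le_pow_right hp.out.pos ?_)
        (Nat.pow_le_pow_right (by norm_num) ?_)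
      · omega
      · omega
    · rintro _ ⟨θ₃, rfl⟩
      exact hlow θ₃

end equiv

end Pool.Agent.Helper56.SKR
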